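import Pool.Agent.Work.MP_0da4e0_ag.Fx.Defs2

/-! MP_0da4e0_ag, exact Weil criterion, module ActEig: eigentensors, and stability of Inv1 under the center.

PROOFS.
(act_eig) For an index e, φ(τ) = exp (-τ c) * act (expGL Z τ) s e has derivative
exp (-τ c) * (-c * act (expGL Z τ) s e + act (expGL Z τ) (dact Z s) e) = 0 (hasDerivAt_act_exp' in Ex/Defs,
act_smul), so it is constant (is_const_of_deriv_eq_zero, as in act_expGL_fix), equal to φ(0) = s e.
(inv_stable) First part: dact X (dact Z t) = dact Z (dact X t) + dact (X Z - Z X) t = 0 (dact_bracket, X Z = Z X).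
Second part: g = expGL Z' (2 π I) with Z' in m commutes with Z (expGL_commute, Z' Z = Z Z' since Z is in cen m), so
act g (dact Z t) = dact (g Z g⁻¹) (act g t) = dact Z t (act_dact). -/

open Matrix

namespace Pool.Agent.Work.MP_0da4e0_ag.Ex

variable {ι : Type} [Fintype ι] [DecidableEq ι]

theorem act_eig {p q : ℕ} {Z : Matrix ι ι ℂ} {s : Tens ι p q ℂ} {c : ℂ} (h : dact Z s = c • s)
    (τ : ℂ) : act (expGL Z τ) s = Complex.exp (τ * c) • s := by
  funext e
  have h1 : ∀ τ, HasDerivAt (fun τ => Complex.exp (-(τ * c)) * act (expGL Z τ) s e) 0 τ := by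
    intro τ
    have a := Ex.hasDerivAt_act_exp' Z s e τ
    rw [h, act_smul] at a
    have b : HasDerivAt (fun τ => Complex.exp (-(τ * c))) (Complex.exp (-(τ * c)) * (-(1 * c))) τ :=
      ((hasDerivAt_id τ).mul_const c).neg.cexp
    refine (b.mul a).congr_deriv ?_
    change Complex.exp (-(τ * c)) * (-(1 * c)) * act (expGL Z τ) s e +
      Complex.exp (-(τ * c)) * (c * act (expGL Z τ) s e) = 0
    ring
  have h2 := is_const_of_deriv_eq_zero (fun τ => (h1 τ).differentiableAt) (fun τ => (h1 τ).deriv) τ 0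
  simp only [zero_mul, neg_zero, Complex.exp_zero, one_mul, expGL_zero, act_one] at h2
  change act (expGL Z τ) s e = Complex.exp (τ * c) * s e
  rw [← h2, ← mul_assoc, ← Complex.exp_add, add_neg_cancel, Complex.exp_zero, one_mul]

theorem inv_stable {m : Submodule ℂ (Matrix ι ι ℂ)} {p q : ℕ} {t : Tens ι p q ℂ} (ht : Inv1 m t)
    {Z : Matrix ι ι ℂ} (hZ : Z ∈ cen m) : Inv1 m (dact Z t) := by
  refine ⟨fun X hX hX0 => ?_, fun Z' hZ' hZc hZi => ?_⟩
  · have h1 := dact_bracket X Z t
    have h2 : X * Z - Z * X = 0 := by rw [hZ.1 X hX, sub_self]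
    have h3 : dact (0 : Matrix ι ι ℂ) t = 0 := by
      have h5 := dact_bracket (0 : Matrix ι ι ℂ) 0 t
      rw [Matrix.zero_mul, sub_self, sub_self] at h5
      exact h5
    have h4 : dact Z (0 : Tens ι p q ℂ) = 0 := by rw [dact, Matrix.mulVec_zero]
    rw [h2, h3, ht.1 X hX hX0, h4, sub_zero] at h1
    exact h1.symm
  · rw [act_dact, ht.2 Z' hZ' hZc hZi, expGL_commute (hZ.1 Z' hZ'), Matrix.mul_assoc,
      ← Units.val_mul, mul_inv_cancel, Units.val_one, Matrix.mul_one]

end Pool.Agent.Work.MP_0da4e0_ag.Ex
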