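import Mathlib

/-! MP_0da4e0_ag, exact Weil criterion, module Angles: unit complex numbers whose sum is large.

PROOF. n = card ι, s = ∑ u i, ‖s‖ ≤ n. ‖1 + s‖^2 = 1 + 2 Re s + ‖s‖^2 ≤ 1 + 2 Re s + n^2, so by h
2 Re s ≥ 2 n - 1 / n. ∑ ‖u i - 1‖^2 = ∑ (2 - 2 Re (u i)) = 2 n - 2 Re s ≤ 1 / n. For |θ| ≤ π,
|θ| ≤ (π / 2) ‖exp (θ I) - 1‖ (‖exp (θ I) - 1‖ = 2 |sin (θ / 2)|, Real.mul_le_sin: 2 / π * x ≤ sin x for
0 ≤ x ≤ π / 2), and u i = exp (arg (u i) * I). By Cauchy-Schwarz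
∑ |arg (u i)| ≤ (π / 2) ∑ ‖u i - 1‖ ≤ (π / 2) sqrt (n * (1 / n)) = π / 2. -/

namespace Pool.Agent.Work.MP_0da4e0_ag.Ex

theorem angles {ι : Type} [Fintype ι] (hn : 1 ≤ Fintype.card ι) (u : ι → ℂ) (hu : ∀ i, ‖u i‖ = 1)
    (h : ((Fintype.card ι : ℝ) + 1) ^ 2 - 1 / (Fintype.card ι : ℝ) ≤ ‖1 + ∑ i, u i‖ ^ 2) :
    ∑ i, |Complex.arg (u i)| ≤ Real.pi / 2 := by
  have hn' : (1 : ℝ) ≤ (Fintype.card ι : ℝ) := by exact_mod_cast hn
  set n : ℝ := (Fintype.card ι : ℝ) with hnn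
  set s : ℂ := ∑ i, u i with hs
  have h1 : ‖s‖ ≤ n := by
    calc ‖s‖ ≤ ∑ i, ‖u i‖ := norm_sum_le _ _
      _ = n := by simp [hu, hnn]
  have h2 : ‖s‖ ^ 2 ≤ n ^ 2 := pow_le_pow_left₀ (norm_nonneg _) h1 2
  have h3 : ‖1 + s‖ ^ 2 = 1 + 2 * s.re + ‖s‖ ^ 2 := by
    rw [Complex.sq_norm, Complex.sq_norm, Complex.normSq_apply, Complex.normSq_apply]
    simp only [Complex.add_re, Complex.add_im, Complex.one_re, Complex.one_im]
    ring
  have h4 : 2 * n - 2 * s.re ≤ 1 / n := by nlinarith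
  have h5 : ∀ i, |Complex.arg (u i)| ^ 2 ≤ Real.pi ^ 2 / 4 * (2 - 2 * (u i).re) := by
    intro i
    have h6 : u i ≠ 0 := by
      intro h0
      have := hu i
      rw [h0, norm_zero] at this
      exact zero_ne_one this
    have h7 : Real.cos (Complex.arg (u i)) = (u i).re := by
      rw [Complex.cos_arg h6, hu i, div_one]
    set θ := Complex.arg (u i) with hθ
    have h8 : |θ| ≤ Real.pi := Complex.abs_arg_le_pi _
    have h9 : 2 / Real.pi * (|θ| / 2) ≤ Real.sin (|θ| / 2) :=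
      Real.mul_le_sin (by positivity) (by linarith)
    have h10 : 2 - 2 * (u i).re = 4 * Real.sin (|θ| / 2) ^ 2 := by
      have h11 : Real.cos |θ| = (u i).re := by rw [Real.cos_abs, h7]
      have h12 : Real.cos |θ| = 1 - 2 * Real.sin (|θ| / 2) ^ 2 := by
        have h13 := Real.cos_two_mul (|θ| / 2)
        have h14 := Real.sin_sq_add_cos_sq (|θ| / 2)
        have h15 : 2 * (|θ| / 2) = |θ| := by ring
        rw [h15] at h13
        linarith
      linarith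
    have h16 : |θ| ≤ Real.pi * Real.sin (|θ| / 2) := by
      have h17 : 2 / Real.pi * (|θ| / 2) = |θ| / Real.pi := by
        field_simp
      rw [h17, div_le_iff₀ Real.pi_pos] at h9
      linarith
    calc |θ| ^ 2 ≤ (Real.pi * Real.sin (|θ| / 2)) ^ 2 := pow_le_pow_left₀ (abs_nonneg _) h16 2
      _ = Real.pi ^ 2 / 4 * (2 - 2 * (u i).re) := by rw [h10]; ring
  have h6 : (∑ i, |Complex.arg (u i)|) ^ 2 ≤ n * ∑ i, |Complex.arg (u i)| ^ 2 := by
    have := sq_sum_le_card_mul_sum_sq (s := (Finset.univ : Finset ι))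
      (f := fun i => |Complex.arg (u i)|)
    simpa [hnn] using this
  have h7 : ∑ i, |Complex.arg (u i)| ^ 2 ≤ Real.pi ^ 2 / 4 * (2 * n - 2 * s.re) := by
    calc ∑ i, |Complex.arg (u i)| ^ 2 ≤ ∑ i, Real.pi ^ 2 / 4 * (2 - 2 * (u i).re) :=
          Finset.sum_le_sum fun i _ => h5 i
      _ = Real.pi ^ 2 / 4 * (2 * n - 2 * s.re) := by
          rw [← Finset.mul_sum, Finset.sum_sub_distrib, ← Finset.mul_sum, hs, Complex.re_sum]
          simp [hnn]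
          ring
  have h8 : (∑ i, |Complex.arg (u i)|) ^ 2 ≤ (Real.pi / 2) ^ 2 := by
    have hpi : (0 : ℝ) ≤ Real.pi ^ 2 / 4 := by positivity
    calc (∑ i, |Complex.arg (u i)|) ^ 2 ≤ n * ∑ i, |Complex.arg (u i)| ^ 2 := h6
      _ ≤ n * (Real.pi ^ 2 / 4 * (2 * n - 2 * s.re)) :=
          mul_le_mul_of_nonneg_left h7 (by linarith)
      _ ≤ n * (Real.pi ^ 2 / 4 * (1 / n)) :=
          mul_le_mul_of_nonneg_left (mul_le_mul_of_nonneg_left h4 hpi) (by linarith)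
      _ = (Real.pi / 2) ^ 2 := by
          have : n ≠ 0 := by linarith
          field_simp
          ring
  exact (abs_le_of_sq_le_sq' h8 (by positivity)).2

end Pool.Agent.Work.MP_0da4e0_ag.Ex
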