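import Pool.Agent.Work.MP_0da4e0_ag.LieAct

/-! MP_0da4e0_ag, exact Weil criterion, module AvgInv: averages over a coset.

PROOF. For g in GL let χ p q g = ∑ e, act g (Pi.single e 1) e, the sum over all e in (Fin p → ι) × (Fin q → ι).
Expanding act: χ p q g = ∑ e, (∏ j, g (e.1 j) (e.1 j)) * (∏ j, g⁻¹ (e.2 j) (e.2 j)) = (trace g)^p * (trace g⁻¹)^q
(Finset.sum_prod_type / prod_univ_sum, Fintype.piFinset_univ). For p, q ≤ e and every index c let
t c = ∫ k, act (ρ k) (Pi.single c 1) (entrywise: t c e = ∫ k, act (ρ k) (Pi.single c 1) e, integrable as a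
continuous function on a compact space; note that the entries of (ρ k)⁻¹ = (ρ k)ᴴ are continuous, by hu).
act (ρ h) (t c) = t c: act is a finite sum, so act (ρ h) (t c) e = ∫ k, act (ρ h) (act (ρ k) (Pi.single c 1)) e =
∫ k, act (ρ (h * k)) (Pi.single c 1) e = t c e (act_mul, integral_mul_left_eq_self). By hfix, act f (t c) = t c;
the entry c gives ∫ k, act (f * ρ k) (Pi.single c 1) c = ∫ k, act (ρ k) (Pi.single c 1) c. Sum over c:
∫ k, χ p q (f * ρ k) = ∫ k, χ p q (ρ k) for all p, q ≤ e. For unitary g, trace g⁻¹ = conj (trace g), so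
‖1 + trace g‖^(2e) = (1 + trace g)^e * (1 + conj (trace g))^e = ∑ p ≤ e, ∑ q ≤ e, C(e,p) C(e,q) χ p q g
(add_pow, as a complex number). f * ρ k is unitary (hf, hu) and f * ρ k = ρ k * f. -/

open Matrix MeasureTheory

namespace Pool.Agent.Work.MP_0da4e0_ag.Ex

variable {ι : Type} [Fintype ι] [DecidableEq ι]

private theorem inv_eq {g : GL ι ℂ} (hg : (g : Matrix ι ι ℂ)ᴴ * (g : Matrix ι ι ℂ) = 1) :
    ((g⁻¹ : GL ι ℂ) : Matrix ι ι ℂ) = (g : Matrix ι ι ℂ)ᴴ := by
  calc ((g⁻¹ : GL ι ℂ) : Matrix ι ι ℂ)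
      = ((g : Matrix ι ι ℂ)ᴴ * (g : Matrix ι ι ℂ)) * ((g⁻¹ : GL ι ℂ) : Matrix ι ι ℂ) := by
        rw [hg, Matrix.one_mul]
    _ = _ := by rw [Matrix.mul_assoc, ← Units.val_mul, mul_inv_cancel, Units.val_one, Matrix.mul_one]

private theorem sum_prod_diag (p : ℕ) (M : Matrix ι ι ℂ) :
    ∑ x : Fin p → ι, ∏ j, M (x j) (x j) = (Matrix.trace M) ^ p := by
  have h1 : (Matrix.trace M) ^ p = ∏ _j : Fin p, ∑ i, M i i := by
    rw [Finset.prod_const, Finset.card_univ, Fintype.card_fin]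
    rfl
  rw [h1, Finset.prod_univ_sum, Fintype.piFinset_univ]

private theorem trace_actMat (p q : ℕ) (g : GL ι ℂ) :
    Matrix.trace (actMat g : Matrix ((Fin p → ι) × (Fin q → ι)) ((Fin p → ι) × (Fin q → ι)) ℂ) =
      (Matrix.trace (g : Matrix ι ι ℂ)) ^ p * (Matrix.trace ((g⁻¹ : GL ι ℂ) : Matrix ι ι ℂ)) ^ q := by
  rw [Matrix.trace, Fintype.sum_prod_type]
  simp only [Matrix.diag_apply, actMat]
  rw [← sum_prod_diag, ← sum_prod_diag, Finset.sum_mul_sum]

private theorem norm_pow_eq (e : ℕ) {g : GL ι ℂ} (hg : (g : Matrix ι ι ℂ)ᴴ * (g : Matrix ι ι ℂ) = 1) :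
    ((‖1 + Matrix.trace (g : Matrix ι ι ℂ)‖ ^ (2 * e) : ℝ) : ℂ) =
      ∑ p ∈ Finset.range (e + 1), ∑ q ∈ Finset.range (e + 1), ((e.choose p : ℂ) * (e.choose q : ℂ)) *
        Matrix.trace (actMat g :
          Matrix ((Fin p → ι) × (Fin q → ι)) ((Fin p → ι) × (Fin q → ι)) ℂ) := by
  have h1 : Matrix.trace ((g⁻¹ : GL ι ℂ) : Matrix ι ι ℂ) =
      starRingEnd ℂ (Matrix.trace (g : Matrix ι ι ℂ)) := by
    rw [inv_eq hg, Matrix.trace_conjTranspose]
    rfl
  simp only [trace_actMat, h1]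
  set z := Matrix.trace (g : Matrix ι ι ℂ)
  have h2 : ((‖1 + z‖ ^ (2 * e) : ℝ) : ℂ) = (z + 1) ^ e * (starRingEnd ℂ z + 1) ^ e := by
    rw [pow_mul, ← Complex.normSq_eq_norm_sq, ← mul_pow]
    push_cast
    rw [← Complex.mul_conj, map_add, map_one]
    ring
  rw [h2, add_pow, add_pow, Finset.sum_mul_sum]
  apply Finset.sum_congr rfl
  intro p _
  apply Finset.sum_congr rfl
  intro q _
  rw [one_pow, one_pow]
  ring

section avg
variable {K : Type} [Group K] [TopologicalSpace K] [IsTopologicalGroup K] [CompactSpace K]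
    [MeasurableSpace K] [BorelSpace K] (μ : Measure K) [IsProbabilityMeasure μ] [μ.IsMulLeftInvariant]
    (ρ : K →* GL ι ℂ) (hρ : Continuous fun k => ((ρ k : GL ι ℂ) : Matrix ι ι ℂ))
    (hu : ∀ k, ((ρ k : GL ι ℂ) : Matrix ι ι ℂ)ᴴ * ((ρ k : GL ι ℂ) : Matrix ι ι ℂ) = 1)

include hρ hu in
private theorem cont_actMat {p q : ℕ} (e c : (Fin p → ι) × (Fin q → ι)) :
    Continuous fun k => (actMat (ρ k) :
      Matrix ((Fin p → ι) × (Fin q → ι)) ((Fin p → ι) × (Fin q → ι)) ℂ) e c := by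
  have h1 : ∀ i j, Continuous fun k => ((ρ k : GL ι ℂ) : Matrix ι ι ℂ) i j := fun i j =>
    hρ.matrix_elem i j
  have h2 : ∀ i j, Continuous fun k => (((ρ k)⁻¹ : GL ι ℂ) : Matrix ι ι ℂ) i j := by
    intro i j
    have : (fun k => (((ρ k)⁻¹ : GL ι ℂ) : Matrix ι ι ℂ) i j) =
        fun k => star (((ρ k : GL ι ℂ) : Matrix ι ι ℂ) j i) := by
      funext k
      rw [inv_eq (hu k), Matrix.conjTranspose_apply]
    rw [this]
    exact (h1 j i).star
  simp only [actMat]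
  exact (continuous_finset_prod _ fun j _ => h1 _ _).mul (continuous_finset_prod _ fun j _ => h2 _ _)

include hρ hu in
private theorem int_actMat {p q : ℕ} (e c : (Fin p → ι) × (Fin q → ι)) :
    Integrable (fun k => (actMat (ρ k) :
      Matrix ((Fin p → ι) × (Fin q → ι)) ((Fin p → ι) × (Fin q → ι)) ℂ) e c) μ :=
  (cont_actMat ρ hρ hu e c).integrable_of_hasCompactSupport (HasCompactSupport.of_compactSpace _)

/-- the average of the matrices of the action -/
private noncomputable def avgM (p q : ℕ) :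
    Matrix ((Fin p → ι) × (Fin q → ι)) ((Fin p → ι) × (Fin q → ι)) ℂ :=
  fun e c => ∫ k, (actMat (ρ k) :
    Matrix ((Fin p → ι) × (Fin q → ι)) ((Fin p → ι) × (Fin q → ι)) ℂ) e c ∂μ

include hρ hu in
private theorem mul_avgM (p q : ℕ) (g : GL ι ℂ) (e c : (Fin p → ι) × (Fin q → ι)) :
    ((actMat g : Matrix ((Fin p → ι) × (Fin q → ι)) ((Fin p → ι) × (Fin q → ι)) ℂ) * avgM μ ρ p q) e c =
      ∫ k, (actMat (g * ρ k) :
        Matrix ((Fin p → ι) × (Fin q → ι)) ((Fin p → ι) × (Fin q → ι)) ℂ) e c ∂μ := by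
  rw [Matrix.mul_apply]
  simp only [actMat_mul, Matrix.mul_apply, avgM]
  rw [integral_finset_sum]
  · apply Finset.sum_congr rfl
    intro x _
    rw [integral_const_mul]
  · intro x _
    exact (int_actMat μ ρ hρ hu x c).const_mul _

include hρ hu in
private theorem avgM_inv (p q : ℕ) (h : K) :
    (actMat (ρ h) : Matrix ((Fin p → ι) × (Fin q → ι)) ((Fin p → ι) × (Fin q → ι)) ℂ) * avgM μ ρ p q =
      avgM μ ρ p q := by
  ext e c
  rw [mul_avgM μ ρ hρ hu]
  have h1 : ∀ k, ρ h * ρ k = ρ (h * k) := fun k => (map_mul ρ h k).symm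
  simp only [h1]
  exact integral_mul_left_eq_self (fun k => (actMat (ρ k) :
    Matrix ((Fin p → ι) × (Fin q → ι)) ((Fin p → ι) × (Fin q → ι)) ℂ) e c) h

end avg

theorem avg_inv {K : Type} [Group K] [TopologicalSpace K] [IsTopologicalGroup K] [CompactSpace K]
    [MeasurableSpace K] [BorelSpace K] (μ : Measure K) [IsProbabilityMeasure μ] [μ.IsMulLeftInvariant]
    (ρ : K →* GL ι ℂ) (hρ : Continuous fun k => ((ρ k : GL ι ℂ) : Matrix ι ι ℂ))
    (hu : ∀ k, ((ρ k : GL ι ℂ) : Matrix ι ι ℂ)ᴴ * ((ρ k : GL ι ℂ) : Matrix ι ι ℂ) = 1)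
    (f : GL ι ℂ) (hf : (f : Matrix ι ι ℂ)ᴴ * (f : Matrix ι ι ℂ) = 1) (hfc : ∀ k, f * ρ k = ρ k * f)
    (e : ℕ) (hfix : ∀ p q : ℕ, p ≤ e → q ≤ e → ∀ t : Tens ι p q ℂ, (∀ k, act (ρ k) t = t) →
      act f t = t) :
    ∫ k, ‖1 + Matrix.trace (((ρ k * f : GL ι ℂ)) : Matrix ι ι ℂ)‖ ^ (2 * e) ∂μ =
      ∫ k, ‖1 + Matrix.trace ((ρ k : GL ι ℂ) : Matrix ι ι ℂ)‖ ^ (2 * e) ∂μ := by
  have hfu : ∀ k, ((f * ρ k : GL ι ℂ) : Matrix ι ι ℂ)ᴴ * ((f * ρ k : GL ι ℂ) : Matrix ι ι ℂ) = 1 := by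
    intro k
    rw [Units.val_mul, Matrix.conjTranspose_mul]
    calc _ = ((ρ k : GL ι ℂ) : Matrix ι ι ℂ)ᴴ * ((f : Matrix ι ι ℂ)ᴴ * (f : Matrix ι ι ℂ)) *
          ((ρ k : GL ι ℂ) : Matrix ι ι ℂ) := by simp only [Matrix.mul_assoc]
      _ = 1 := by rw [hf, Matrix.mul_one, hu]
  -- the averages of the characters
  have hkey : ∀ p ∈ Finset.range (e + 1), ∀ q ∈ Finset.range (e + 1),
      ∫ k, Matrix.trace (actMat (f * ρ k) :
          Matrix ((Fin p → ι) × (Fin q → ι)) ((Fin p → ι) × (Fin q → ι)) ℂ) ∂μ =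
        ∫ k, Matrix.trace (actMat (ρ k) :
          Matrix ((Fin p → ι) × (Fin q → ι)) ((Fin p → ι) × (Fin q → ι)) ℂ) ∂μ := by
    intro p hp q hq
    have hp' : p ≤ e := Nat.lt_succ_iff.1 (Finset.mem_range.1 hp)
    have hq' : q ≤ e := Nat.lt_succ_iff.1 (Finset.mem_range.1 hq)
    have h1 : (actMat f : Matrix ((Fin p → ι) × (Fin q → ι)) ((Fin p → ι) × (Fin q → ι)) ℂ) *
        avgM μ ρ p q = avgM μ ρ p q := by
      ext x c
      have h2 := hfix p q hp' hq' (fun x => avgM μ ρ p q x c) (by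
        intro k
        funext x
        rw [act_eq]
        have h3 := congrFun (congrFun (avgM_inv μ ρ hρ hu p q k) x) c
        exact h3)
      rw [act_eq] at h2
      exact congrFun h2 x
    have h2 : ∀ x c, ∫ k, (actMat (f * ρ k) :
        Matrix ((Fin p → ι) × (Fin q → ι)) ((Fin p → ι) × (Fin q → ι)) ℂ) x c ∂μ = avgM μ ρ p q x c := by
      intro x c
      rw [← mul_avgM μ ρ hρ hu, h1]
    simp only [Matrix.trace, Matrix.diag_apply]
    rw [integral_finset_sum, integral_finset_sum]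
    · apply Finset.sum_congr rfl
      intro x _
      exact h2 x x
    · intro x _
      exact int_actMat μ ρ hρ hu x x
    · intro x _
      simp only [actMat_mul, Matrix.mul_apply]
      apply integrable_finset_sum
      intro y _
      exact (int_actMat μ ρ hρ hu y x).const_mul _
  have hi1 : ∀ p q : ℕ, Integrable (fun k => Matrix.trace (actMat (ρ k) :
      Matrix ((Fin p → ι) × (Fin q → ι)) ((Fin p → ι) × (Fin q → ι)) ℂ)) μ := by
    intro p q
    simp only [Matrix.trace, Matrix.diag_apply]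
    exact integrable_finset_sum _ fun x _ => int_actMat μ ρ hρ hu x x
  have hi2 : ∀ p q : ℕ, Integrable (fun k => Matrix.trace (actMat (f * ρ k) :
      Matrix ((Fin p → ι) × (Fin q → ι)) ((Fin p → ι) × (Fin q → ι)) ℂ)) μ := by
    intro p q
    simp only [Matrix.trace, Matrix.diag_apply, actMat_mul, Matrix.mul_apply]
    exact integrable_finset_sum _ fun x _ => integrable_finset_sum _ fun y _ =>
      (int_actMat μ ρ hρ hu y x).const_mul _
  have h1 : (∫ k, (((‖1 + Matrix.trace (((ρ k * f : GL ι ℂ)) : Matrix ι ι ℂ)‖ ^ (2 * e) : ℝ)) : ℂ) ∂μ) =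
      ∫ k, (((‖1 + Matrix.trace ((ρ k : GL ι ℂ) : Matrix ι ι ℂ)‖ ^ (2 * e) : ℝ)) : ℂ) ∂μ := by
    have h2 : ∀ k, (((‖1 + Matrix.trace (((ρ k * f : GL ι ℂ)) : Matrix ι ι ℂ)‖ ^ (2 * e) : ℝ)) : ℂ) =
        ∑ p ∈ Finset.range (e + 1), ∑ q ∈ Finset.range (e + 1),
          ((e.choose p : ℂ) * (e.choose q : ℂ)) *
          Matrix.trace (actMat (f * ρ k) :
            Matrix ((Fin p → ι) × (Fin q → ι)) ((Fin p → ι) × (Fin q → ι)) ℂ) := by
      intro k
      rw [← hfc]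
      exact norm_pow_eq e (hfu k)
    simp only [h2, fun k => norm_pow_eq e (hu k)]
    rw [integral_finset_sum, integral_finset_sum]
    · apply Finset.sum_congr rfl
      intro p hp
      rw [integral_finset_sum, integral_finset_sum]
      · apply Finset.sum_congr rfl
        intro q hq
        rw [integral_const_mul, integral_const_mul, hkey p hp q hq]
      · intro q _
        exact (hi1 p q).const_mul _
      · intro q _
        exact (hi2 p q).const_mul _
    · intro p _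
      exact integrable_finset_sum _ fun q _ => (hi1 p q).const_mul _
    · intro p _
      exact integrable_finset_sum _ fun q _ => (hi2 p q).const_mul _
  rw [integral_complex_ofReal, integral_complex_ofReal] at h1
  exact Complex.ofReal_injective h1

end Pool.Agent.Work.MP_0da4e0_ag.Ex
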