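import Pool.Agent.Work.MP_0da4e0_ag.LieAct

/-! MP_0da4e0_ag, exact Weil criterion, module AvgLow: a lower bound for the average of |1 + trace|^(2e) over a
compact group.

PROOF. Put α = Option (ι × ι), x none k = 1, x (some (i, j)) k = (ρ k) i j, and for s in Sym α e let
N s be the multinomial coefficient of s, X s k = sqrt (N s) * ∏_{o in s} x o k (a continuous function of k).
By the multinomial theorem (Finset.sum_pow_of_commute or Finset.sum_pow, with Finset.univ.sym e, or
Finset.sym_univ), for all k, k' in K: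
∑ s, conj (X s k) * X s k' = (∑ o, conj (x o k) * x o k') ^ e = (1 + trace ((ρ k)ᴴ * ρ k')) ^ e, (1)
and (ρ k)ᴴ = (ρ k)⁻¹ = ρ k⁻¹, so the right side is (1 + trace (ρ (k⁻¹ * k'))) ^ e; for k' = k it is (n + 1) ^ e.
Let T s t = ∫ k, conj (X s k) * X t k (continuous functions on a compact space are integrable for a
finite measure). ∑ s, T s s = (n + 1)^e. By Cauchy-Schwarz
(n + 1)^(2 e) = |∑ s, T s s|^2 ≤ D * ∑ s, |T s s|^2 ≤ D * ∑ s, ∑ t, |T s t|^2, D = card (Sym α e), and
|T s t|^2 = T s t * conj (T s t) = ∫ k, ∫ k', (conj (X s k) * X t k) * (X s k' * conj (X t k')) (product of two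
integrals, no Fubini needed). Summing over s and t inside both integrals (finite sums):
∑ s, ∑ t, |T s t|^2 = ∫ k, ∫ k', |∑ s, conj (X s k) * X s k'|^2 = ∫ k, ∫ k', |1 + trace (ρ (k⁻¹ * k'))|^(2 e)
= ∫ k, ∫ k', |1 + trace (ρ k')|^(2 e) = ∫ k', |1 + trace (ρ k')|^(2 e) by left invariance
(MeasureTheory.integral_mul_left_eq_self) and since μ is a probability measure. -/

open Matrix MeasureTheory

namespace Pool.Agent.Work.MP_0da4e0_ag.Ex

variable {ι : Type} [Fintype ι] [DecidableEq ι]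

private theorem al_multi {α : Type} [Fintype α] [DecidableEq α] (f : α → ℂ) (e : ℕ) :
    ∑ s : Sym α e, ((s.val.countPerms : ℕ) : ℂ) * (s.val.map f).prod = (∑ o, f o) ^ e := by
  rw [Finset.sum_pow, Finset.sym_univ]

/-- the general inequality -/
private theorem al_gen {K α : Type} [Group K] [TopologicalSpace K] [IsTopologicalGroup K]
    [CompactSpace K] [MeasurableSpace K] [BorelSpace K] (μ : Measure K) [IsProbabilityMeasure μ]
    [μ.IsMulLeftInvariant] [Fintype α] [DecidableEq α] (x : α → K → ℂ)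
    (hx : ∀ o, Continuous (x o)) (c : ℝ) (hc : ∀ k, ∑ o, star (x o k) * x o k = (c : ℂ))
    (F : K → ℂ) (hF : ∀ k k', ∑ o, star (x o k) * x o k' = F (k⁻¹ * k')) (e : ℕ) :
    c ^ (2 * e) ≤ (Fintype.card (Sym α e) : ℝ) * ∫ k, ‖F k‖ ^ (2 * e) ∂μ := by
  classical
  let N : Sym α e → ℝ := fun s => ((s.val.countPerms : ℕ) : ℝ)
  have hN0 : ∀ s, 0 ≤ N s := fun s => Nat.cast_nonneg _
  let Y : Sym α e → K → ℂ := fun s k => (s.val.map fun o => x o k).prod
  have hYc : ∀ s, Continuous (Y s) := fun s => continuous_multiset_prod _ fun o _ => hx o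
  let f : Sym α e → Sym α e → K → ℂ := fun s t k => star (Y s k) * Y t k
  have hfc : ∀ s t, Continuous (f s t) := fun s t => (hYc s).star.mul (hYc t)
  have hint : ∀ g : K → ℂ, Continuous g → Integrable g μ := fun g hg =>
    hg.integrable_of_hasCompactSupport (HasCompactSupport.of_compactSpace _)
  -- the multinomial theorem
  have hA : ∀ k k', ∑ s, (N s : ℂ) * (star (Y s k) * Y s k') = (F (k⁻¹ * k')) ^ e := by
    intro k k'
    rw [← hF, ← al_multi]
    refine Finset.sum_congr rfl fun s _ => ?_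
    have h1 : star (Y s k) = (s.val.map fun o => star (x o k)).prod := by
      show star ((s.val.map fun o => x o k).prod) = _
      have h2 := map_multiset_prod (starRingEnd ℂ) (s.val.map fun o => x o k)
      rw [Multiset.map_map] at h2
      exact h2
    rw [h1]
    show _ * ((s.val.map fun o => star (x o k)).prod * (s.val.map fun o => x o k').prod) = _
    rw [← Multiset.prod_map_mul]
    congr 1
  let T : Sym α e → Sym α e → ℂ := fun s t => ∫ k, f s t k ∂μ
  let I : ℝ := ∫ k, ‖F k‖ ^ (2 * e) ∂μ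
  -- the inner integral
  have hstar : ∀ s t, star (T s t) = ∫ k, star (f s t k) ∂μ := by
    intro s t
    show (starRingEnd ℂ) (∫ k, f s t k ∂μ) = _
    rw [← integral_conj]
    rfl
  have hG : ∀ k, ∑ s, ∑ t, ((N s : ℂ) * (N t : ℂ)) * (f s t k * star (T s t)) = (I : ℂ) := by
    intro k
    have h1 : ∀ s t, ((N s : ℂ) * (N t : ℂ)) * (f s t k * star (T s t)) =
        ∫ k', ((N s : ℂ) * (N t : ℂ)) * (f s t k * star (f s t k')) ∂μ := by
      intro s t
      rw [hstar, integral_const_mul, integral_const_mul]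
    simp only [h1]
    have h2 : ∀ s, ∑ t, ∫ k', ((N s : ℂ) * (N t : ℂ)) * (f s t k * star (f s t k')) ∂μ =
        ∫ k', ∑ t, ((N s : ℂ) * (N t : ℂ)) * (f s t k * star (f s t k')) ∂μ := by
      intro s
      rw [integral_finsetSum]
      intro t _
      exact hint _ (continuous_const.mul (continuous_const.mul (hfc s t).star))
    simp only [h2]
    rw [← integral_finsetSum]
    swap
    · intro s _
      exact hint _ (continuous_finsetSum _ fun t _ =>
        continuous_const.mul (continuous_const.mul (hfc s t).star))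
    have h3 : ∀ k', ∑ s, ∑ t, ((N s : ℂ) * (N t : ℂ)) * (f s t k * star (f s t k')) =
        (((‖F (k⁻¹ * k')‖ ^ (2 * e) : ℝ)) : ℂ) := by
      intro k'
      have h4 : ∀ s, ∑ t, ((N s : ℂ) * (N t : ℂ)) * (f s t k * star (f s t k')) =
          ((N s : ℂ) * (star (Y s k) * Y s k')) *
            ∑ t, (N t : ℂ) * (star (Y t k') * Y t k) := by
        intro s
        rw [Finset.mul_sum]
        refine Finset.sum_congr rfl fun t _ => ?_
        show ((N s : ℂ) * (N t : ℂ)) * ((star (Y s k) * Y t k) * star (star (Y s k') * Y t k')) = _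
        rw [star_mul', star_star]
        ring
      simp only [h4]
      rw [← Finset.sum_mul, hA, hA]
      have h5 : F (k'⁻¹ * k) = star (F (k⁻¹ * k')) := by
        rw [← hF, ← hF, star_sum]
        refine Finset.sum_congr rfl fun o _ => ?_
        rw [star_mul', star_star, mul_comm]
      rw [h5, ← mul_pow, Complex.star_def, Complex.mul_conj, Complex.normSq_eq_norm_sq, pow_mul]
      push_cast
      rfl
    simp only [h3]
    rw [integral_complex_ofReal]
    congr 1
    exact integral_mul_left_eq_self (fun k' => ‖F k'‖ ^ (2 * e)) k⁻¹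
  have hT : ∑ s, ∑ t, ((N s : ℂ) * (N t : ℂ)) * (T s t * star (T s t)) = (I : ℂ) := by
    have h1 : ∀ s t, ((N s : ℂ) * (N t : ℂ)) * (T s t * star (T s t)) =
        ∫ k, ((N s : ℂ) * (N t : ℂ)) * (f s t k * star (T s t)) ∂μ := by
      intro s t
      rw [integral_const_mul, integral_mul_const]
    simp only [h1]
    have h2 : ∀ s, ∑ t, ∫ k, ((N s : ℂ) * (N t : ℂ)) * (f s t k * star (T s t)) ∂μ =
        ∫ k, ∑ t, ((N s : ℂ) * (N t : ℂ)) * (f s t k * star (T s t)) ∂μ := by
      intro s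
      rw [integral_finsetSum]
      intro t _
      exact hint _ (continuous_const.mul ((hfc s t).mul continuous_const))
    simp only [h2]
    rw [← integral_finsetSum]
    swap
    · intro s _
      exact hint _ (continuous_finsetSum _ fun t _ =>
        continuous_const.mul ((hfc s t).mul continuous_const))
    simp only [hG]
    rw [integral_const]
    simp
  -- real form
  have hTr : ∑ s, ∑ t, (N s * N t) * ‖T s t‖ ^ 2 = I := by
    have h1 : ((∑ s, ∑ t, (N s * N t) * ‖T s t‖ ^ 2 : ℝ) : ℂ) = (I : ℂ) := by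
      rw [← hT]
      push_cast
      refine Finset.sum_congr rfl fun s _ => Finset.sum_congr rfl fun t _ => ?_
      rw [Complex.star_def, Complex.mul_conj, Complex.normSq_eq_norm_sq]
      push_cast
      rfl
    exact_mod_cast h1
  -- the diagonal
  have hD : ∑ s, (N s : ℂ) * T s s = ((c ^ e : ℝ) : ℂ) := by
    have h1 : ∀ s, (N s : ℂ) * T s s = ∫ k, (N s : ℂ) * f s s k ∂μ := fun s =>
      (integral_const_mul _ _).symm
    simp only [h1]
    rw [← integral_finsetSum]
    swap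
    · intro s _
      exact hint _ (continuous_const.mul (hfc s s))
    have h2 : ∀ k, ∑ s, (N s : ℂ) * f s s k = ((c ^ e : ℝ) : ℂ) := by
      intro k
      have h3 := hA k k
      rw [← hF, hc] at h3
      rw [Complex.ofReal_pow]
      exact h3
    simp only [h2]
    rw [integral_const]
    simp
  have hD' : |c| ^ e ≤ ∑ s, N s * ‖T s s‖ := by
    have h1 : ‖∑ s, (N s : ℂ) * T s s‖ = |c| ^ e := by
      rw [hD, Complex.norm_real, Real.norm_eq_abs, abs_pow]
    rw [← h1]
    refine (norm_sum_le _ _).trans (Finset.sum_le_sum fun s _ => ?_)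
    rw [norm_mul, Complex.norm_real, Real.norm_eq_abs, abs_of_nonneg (hN0 s)]
  have hCS : (∑ s, N s * ‖T s s‖) ^ 2 ≤ (Fintype.card (Sym α e) : ℝ) *
      ∑ s, (N s * ‖T s s‖) ^ 2 := by
    have := sq_sum_le_card_mul_sum_sq (s := (Finset.univ : Finset (Sym α e)))
      (f := fun s => N s * ‖T s s‖)
    rw [Finset.card_univ] at this
    exact this
  have hle : ∑ s, (N s * ‖T s s‖) ^ 2 ≤ I := by
    rw [← hTr]
    refine Finset.sum_le_sum fun s _ => ?_
    have h1 : (N s * ‖T s s‖) ^ 2 = (N s * N s) * ‖T s s‖ ^ 2 := by ring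
    rw [h1]
    exact Finset.single_le_sum (f := fun t => (N s * N t) * ‖T s t‖ ^ 2)
      (fun t _ => mul_nonneg (mul_nonneg (hN0 s) (hN0 t)) (sq_nonneg _)) (Finset.mem_univ s)
  calc c ^ (2 * e) = (|c| ^ e) ^ 2 := by
        rw [← pow_mul, mul_comm e 2, pow_mul, pow_mul, sq_abs]
    _ ≤ (∑ s, N s * ‖T s s‖) ^ 2 := pow_le_pow_left₀ (by positivity) hD' 2
    _ ≤ _ := hCS
    _ ≤ (Fintype.card (Sym α e) : ℝ) * I := mul_le_mul_of_nonneg_left hle (Nat.cast_nonneg _)

theorem avg_low {K : Type} [Group K] [TopologicalSpace K] [IsTopologicalGroup K] [CompactSpace K]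
    [MeasurableSpace K] [BorelSpace K] (μ : Measure K) [IsProbabilityMeasure μ] [μ.IsMulLeftInvariant]
    (ρ : K →* GL ι ℂ) (hρ : Continuous fun k => ((ρ k : GL ι ℂ) : Matrix ι ι ℂ))
    (hu : ∀ k, ((ρ k : GL ι ℂ) : Matrix ι ι ℂ)ᴴ * ((ρ k : GL ι ℂ) : Matrix ι ι ℂ) = 1) (e : ℕ) :
    ((Fintype.card ι : ℝ) + 1) ^ (2 * e) ≤ (Fintype.card (Sym (Option (ι × ι)) e) : ℝ) *
      ∫ k, ‖1 + Matrix.trace ((ρ k : GL ι ℂ) : Matrix ι ι ℂ)‖ ^ (2 * e) ∂μ := by
  classical
  have hF : ∀ k k', ∑ o : Option (ι × ι),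
      star ((o.elim 1 fun p => ((ρ k : GL ι ℂ) : Matrix ι ι ℂ) p.1 p.2 : ℂ)) *
        (o.elim 1 fun p => ((ρ k' : GL ι ℂ) : Matrix ι ι ℂ) p.1 p.2 : ℂ) =
      1 + Matrix.trace ((ρ (k⁻¹ * k') : GL ι ℂ) : Matrix ι ι ℂ) := by
    intro k k'
    have h1 : ((ρ (k⁻¹ * k') : GL ι ℂ) : Matrix ι ι ℂ) =
        ((ρ k : GL ι ℂ) : Matrix ι ι ℂ)ᴴ * ((ρ k' : GL ι ℂ) : Matrix ι ι ℂ) := by
      have h2 : ((ρ k⁻¹ : GL ι ℂ) : Matrix ι ι ℂ) = ((ρ k : GL ι ℂ) : Matrix ι ι ℂ)ᴴ := by
        have h3 : ((ρ k : GL ι ℂ) : Matrix ι ι ℂ) * ((ρ k⁻¹ : GL ι ℂ) : Matrix ι ι ℂ) = 1 := by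
          rw [← Units.val_mul, ← map_mul, mul_inv_cancel, map_one, Units.val_one]
        calc ((ρ k⁻¹ : GL ι ℂ) : Matrix ι ι ℂ) =
            (((ρ k : GL ι ℂ) : Matrix ι ι ℂ)ᴴ * ((ρ k : GL ι ℂ) : Matrix ι ι ℂ)) *
              ((ρ k⁻¹ : GL ι ℂ) : Matrix ι ι ℂ) := by rw [hu, one_mul]
          _ = ((ρ k : GL ι ℂ) : Matrix ι ι ℂ)ᴴ := by rw [Matrix.mul_assoc, h3, mul_one]
      rw [map_mul, Units.val_mul, h2]
    rw [h1, Fintype.sum_option]
    simp only [Option.elim_none, Option.elim_some, star_one, one_mul]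
    congr 1
    rw [Matrix.trace, Fintype.sum_prod_type, Finset.sum_comm]
    refine Finset.sum_congr rfl fun j _ => ?_
    rw [Matrix.diag_apply, Matrix.mul_apply]
    rfl
  refine al_gen μ (fun (o : Option (ι × ι)) k =>
    (o.elim 1 fun p => ((ρ k : GL ι ℂ) : Matrix ι ι ℂ) p.1 p.2 : ℂ)) ?_ _ ?_
    (fun k => 1 + Matrix.trace ((ρ k : GL ι ℂ) : Matrix ι ι ℂ)) hF e
  · intro o
    rcases o with _ | ⟨i, j⟩
    · exact continuous_const
    · exact hρ.matrix_elem i j
  · intro k
    rw [hF, inv_mul_cancel, map_one, Units.val_one, Matrix.trace_one]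
    push_cast
    ring

end Pool.Agent.Work.MP_0da4e0_ag.Ex
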