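import Pool.Agent.Work.MP_0da4e0_ag.Fx.Defs
import Pool.Agent.Work.MP_0da4e0_ag.WeilLin

/-! MP_0da4e0_ag, exact Weil criterion, module CenIdem: idempotents of cen m.

PROOFS. cen m is closed under products and contains 1 (if Z and W commute with all of m and with all C in the
commutant of m, so does Z * W), its elements commute with each other (the first commutes with m, so it is
in the commutant of m, with which the second commutes), and it is closed under conjugate transposes (cen_star).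
(cen_idem_herm) e is normal and idempotent. (e - eᴴ e)ᴴ (e - eᴴ e) = (eᴴ - eᴴ e) (e - eᴴ e) = eᴴ e - eᴴ eᴴ e -
eᴴ e e + eᴴ e eᴴ e = 0 (use e eᴴ = eᴴ e, e e = e), so e = eᴴ e (trace_star_eq_zero), which is Hermitian.
(cen_idem_ext) Suppose Z ≠ 0. exists_diag (WeilLin) for {Z, Zᴴ} (commuting): V in GL, Z V = V (diagonal γ). Some
γ i =: c is nonzero (otherwise Z = 0). Let p be a polynomial with p(c) = 1, p(γ j) = 0 for γ j ≠ c (Lagrange),
and e = aeval Z p = V (diagonal (if γ j = c then 1 else 0)) V⁻¹. e is a polynomial in Z, so it is in cen m (or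
check directly that every matrix commuting with Z commutes with e: entrywise in the basis V, as in
commute_fun of Ex/GlD.lean), e e = e, Z e = c e, and trace (Z e) = c * (number of j with γ j = c) ≠ 0.
(cen_idem_real) Q - Qᴴ is in cen m; for an idempotent e of cen m, eᴴ = e, trace (Qᴴ e) = conj (trace (e Q)) =
conj (trace (Q e)) = trace (Q e) (an integer). So cen_idem_ext gives Q = Qᴴ. -/

open Matrix

namespace Pool.Agent.Work.MP_0da4e0_ag.Ex

variable {ι : Type} [Fintype ι] [DecidableEq ι]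

private theorem ui (U : GL ι ℂ) : (U : Matrix ι ι ℂ) * ((U⁻¹ : GL ι ℂ) : Matrix ι ι ℂ) = 1 := by
  rw [← Units.val_mul, mul_inv_cancel, Units.val_one]

private theorem iu (U : GL ι ℂ) : ((U⁻¹ : GL ι ℂ) : Matrix ι ι ℂ) * (U : Matrix ι ι ℂ) = 1 := by
  rw [← Units.val_mul, inv_mul_cancel, Units.val_one]

/-- a matrix commuting with `V (diagonal γ) V⁻¹` commutes with `V (diagonal (f γ)) V⁻¹` -/
private theorem commute_fun (V : GL ι ℂ) (γ : ι → ℂ) (f : ℂ → ℂ) (C : Matrix ι ι ℂ)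
    (hC : C * ((V : Matrix ι ι ℂ) * Matrix.diagonal γ * ((V⁻¹ : GL ι ℂ) : Matrix ι ι ℂ)) =
      ((V : Matrix ι ι ℂ) * Matrix.diagonal γ * ((V⁻¹ : GL ι ℂ) : Matrix ι ι ℂ)) * C) :
    C * ((V : Matrix ι ι ℂ) * Matrix.diagonal (fun i => f (γ i)) * ((V⁻¹ : GL ι ℂ) : Matrix ι ι ℂ)) =
      ((V : Matrix ι ι ℂ) * Matrix.diagonal (fun i => f (γ i)) * ((V⁻¹ : GL ι ℂ) : Matrix ι ι ℂ)) * C := by
  set D : Matrix ι ι ℂ := ((V⁻¹ : GL ι ℂ) : Matrix ι ι ℂ) * C * (V : Matrix ι ι ℂ) with hD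
  have hCD : C = (V : Matrix ι ι ℂ) * D * ((V⁻¹ : GL ι ℂ) : Matrix ι ι ℂ) := by
    rw [hD]
    calc C = ((V : Matrix ι ι ℂ) * ((V⁻¹ : GL ι ℂ) : Matrix ι ι ℂ)) * C *
        ((V : Matrix ι ι ℂ) * ((V⁻¹ : GL ι ℂ) : Matrix ι ι ℂ)) := by
          rw [ui, Matrix.one_mul, Matrix.mul_one]
      _ = _ := by simp only [Matrix.mul_assoc]
  have h1 : D * Matrix.diagonal γ = Matrix.diagonal γ * D := by
    have h2 := congrArg (fun X => ((V⁻¹ : GL ι ℂ) : Matrix ι ι ℂ) * X * (V : Matrix ι ι ℂ)) hC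
    calc D * Matrix.diagonal γ
        = ((V⁻¹ : GL ι ℂ) : Matrix ι ι ℂ) * (C * ((V : Matrix ι ι ℂ) * Matrix.diagonal γ *
            ((V⁻¹ : GL ι ℂ) : Matrix ι ι ℂ))) * (V : Matrix ι ι ℂ) := by
          rw [hD]
          calc _ = ((V⁻¹ : GL ι ℂ) : Matrix ι ι ℂ) * C * (V : Matrix ι ι ℂ) * Matrix.diagonal γ *
                (((V⁻¹ : GL ι ℂ) : Matrix ι ι ℂ) * (V : Matrix ι ι ℂ)) := by
                rw [iu, Matrix.mul_one]
            _ = _ := by simp only [Matrix.mul_assoc]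
      _ = ((V⁻¹ : GL ι ℂ) : Matrix ι ι ℂ) * (((V : Matrix ι ι ℂ) * Matrix.diagonal γ *
            ((V⁻¹ : GL ι ℂ) : Matrix ι ι ℂ)) * C) * (V : Matrix ι ι ℂ) := h2
      _ = Matrix.diagonal γ * D := by
          rw [hD]
          calc _ = (((V⁻¹ : GL ι ℂ) : Matrix ι ι ℂ) * (V : Matrix ι ι ℂ)) * Matrix.diagonal γ *
                (((V⁻¹ : GL ι ℂ) : Matrix ι ι ℂ) * C * (V : Matrix ι ι ℂ)) := by
                simp only [Matrix.mul_assoc]
            _ = _ := by rw [iu, Matrix.one_mul]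
  have h2 : D * Matrix.diagonal (fun i => f (γ i)) = Matrix.diagonal (fun i => f (γ i)) * D := by
    ext i j
    have h3 := congrFun (congrFun h1 i) j
    rw [Matrix.mul_diagonal, Matrix.diagonal_mul] at h3 ⊢
    by_cases h0 : D i j = 0
    · rw [h0, zero_mul, mul_zero]
    · have h4 : γ j = γ i := by
        apply mul_left_cancel₀ h0
        rw [h3, mul_comm]
      rw [h4, mul_comm]
  rw [hCD]
  calc (V : Matrix ι ι ℂ) * D * ((V⁻¹ : GL ι ℂ) : Matrix ι ι ℂ) *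
        ((V : Matrix ι ι ℂ) * Matrix.diagonal (fun i => f (γ i)) * ((V⁻¹ : GL ι ℂ) : Matrix ι ι ℂ))
      = (V : Matrix ι ι ℂ) * D * (((V⁻¹ : GL ι ℂ) : Matrix ι ι ℂ) * (V : Matrix ι ι ℂ)) *
          Matrix.diagonal (fun i => f (γ i)) * ((V⁻¹ : GL ι ℂ) : Matrix ι ι ℂ) := by
        simp only [Matrix.mul_assoc]
    _ = (V : Matrix ι ι ℂ) * (D * Matrix.diagonal (fun i => f (γ i))) *
          ((V⁻¹ : GL ι ℂ) : Matrix ι ι ℂ) := by
        rw [iu, Matrix.mul_one]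
        simp only [Matrix.mul_assoc]
    _ = (V : Matrix ι ι ℂ) * Matrix.diagonal (fun i => f (γ i)) *
          (((V⁻¹ : GL ι ℂ) : Matrix ι ι ℂ) * (V : Matrix ι ι ℂ)) * D *
          ((V⁻¹ : GL ι ℂ) : Matrix ι ι ℂ) := by
        rw [h2, iu, Matrix.mul_one]
        simp only [Matrix.mul_assoc]
    _ = _ := by simp only [Matrix.mul_assoc]

omit [DecidableEq ι] in
private theorem cen_mul {m : Submodule ℂ (Matrix ι ι ℂ)} {Z W : Matrix ι ι ℂ} (hZ : Z ∈ cen m)
    (hW : W ∈ cen m) : Z * W ∈ cen m := by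
  refine ⟨fun X hX => ?_, fun C hC => ?_⟩
  · rw [← Matrix.mul_assoc, hZ.1 X hX, Matrix.mul_assoc, hW.1 X hX, Matrix.mul_assoc]
  · rw [← Matrix.mul_assoc, hZ.2 C hC, Matrix.mul_assoc, hW.2 C hC, Matrix.mul_assoc]

theorem cen_idem_herm {m : Submodule ℂ (Matrix ι ι ℂ)} (hm : StarLie m) {e : Matrix ι ι ℂ}
    (he : e ∈ cen m) (hee : e * e = e) : eᴴ = e := by
  have hes := cen_star hm he
  have hc : e * eᴴ = eᴴ * e := hes.2 e he.1
  have hss : eᴴ * eᴴ = eᴴ := by rw [← Matrix.conjTranspose_mul, hee]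
  have h0 : (e - eᴴ * e)ᴴ * (e - eᴴ * e) = 0 := by
    rw [Matrix.conjTranspose_sub, Matrix.conjTranspose_mul, Matrix.conjTranspose_conjTranspose,
      Matrix.mul_sub, Matrix.sub_mul, Matrix.sub_mul]
    have h1 : eᴴ * e * e = eᴴ * e := by rw [Matrix.mul_assoc, hee]
    have h2 : eᴴ * (eᴴ * e) = eᴴ * e := by rw [← Matrix.mul_assoc, hss]
    have h3 : eᴴ * e * (eᴴ * e) = eᴴ * e := by
      rw [← Matrix.mul_assoc, Matrix.mul_assoc eᴴ e eᴴ, hc, ← Matrix.mul_assoc, hss, h1]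
    rw [h1, h2, h3, sub_self]
  have h1 : e - eᴴ * e = 0 := trace_star_eq_zero (by rw [h0, Matrix.trace_zero, Complex.zero_re])
  have h2 : e = eᴴ * e := sub_eq_zero.1 h1
  calc eᴴ = (eᴴ * e)ᴴ := by rw [← h2]
    _ = eᴴ * e := by rw [Matrix.conjTranspose_mul, Matrix.conjTranspose_conjTranspose]
    _ = e := h2.symm

theorem cen_idem_ext {m : Submodule ℂ (Matrix ι ι ℂ)} (hm : StarLie m) {Z : Matrix ι ι ℂ}
    (hZ : Z ∈ cen m) (h : ∀ e ∈ cen m, e * e = e → Matrix.trace (Z * e) = 0) : Z = 0 := by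
  classical
  have hcs := cen_star hm hZ
  obtain ⟨V, hV⟩ := exists_diag ({Z, Zᴴ} : Set (Matrix ι ι ℂ))
    (by
      rintro A (rfl | rfl) B (rfl | rfl)
      · rfl
      · exact hcs.2 _ hZ.1
      · exact hZ.2 _ hcs.1
      · rfl)
    (by
      rintro A (rfl | rfl)
      · right
        rfl
      · left
        rw [Matrix.conjTranspose_conjTranspose])
  obtain ⟨γ, hγ⟩ := hV Z (Or.inl rfl)
  have hcV : Z = (V : Matrix ι ι ℂ) * Matrix.diagonal γ * ((V⁻¹ : GL ι ℂ) : Matrix ι ι ℂ) := by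
    rw [← hγ, Matrix.mul_assoc, ui, Matrix.mul_one]
  by_contra hne
  have hex : ∃ i, γ i ≠ 0 := by
    by_contra hcon
    push Not at hcon
    apply hne
    have h1 : Matrix.diagonal γ = 0 := by
      rw [Matrix.diagonal_eq_zero]
      funext i
      exact hcon i
    rw [hcV, h1, Matrix.mul_zero, Matrix.zero_mul]
  obtain ⟨i0, hi0⟩ := hex
  set f : ℂ → ℂ := fun z => if z = γ i0 then 1 else 0 with hf
  set e : Matrix ι ι ℂ := (V : Matrix ι ι ℂ) * Matrix.diagonal (fun i => f (γ i)) *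
    ((V⁻¹ : GL ι ℂ) : Matrix ι ι ℂ) with he
  have hec : e ∈ cen m := by
    refine ⟨fun X hX => ?_, fun C hC => ?_⟩
    · exact commute_fun V γ f X (by rw [← hcV]; exact hZ.1 X hX)
    · exact commute_fun V γ f C (by rw [← hcV]; exact hZ.2 C hC)
  have hmul : ∀ a b : ι → ℂ, (V : Matrix ι ι ℂ) * Matrix.diagonal a * ((V⁻¹ : GL ι ℂ) : Matrix ι ι ℂ) *
      ((V : Matrix ι ι ℂ) * Matrix.diagonal b * ((V⁻¹ : GL ι ℂ) : Matrix ι ι ℂ)) =
      (V : Matrix ι ι ℂ) * Matrix.diagonal (fun i => a i * b i) *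
        ((V⁻¹ : GL ι ℂ) : Matrix ι ι ℂ) := by
    intro a b
    calc _ = (V : Matrix ι ι ℂ) * Matrix.diagonal a * (((V⁻¹ : GL ι ℂ) : Matrix ι ι ℂ) *
        (V : Matrix ι ι ℂ)) * Matrix.diagonal b * ((V⁻¹ : GL ι ℂ) : Matrix ι ι ℂ) := by
          simp only [Matrix.mul_assoc]
      _ = (V : Matrix ι ι ℂ) * (Matrix.diagonal a * Matrix.diagonal b) *
          ((V⁻¹ : GL ι ℂ) : Matrix ι ι ℂ) := by
          rw [iu, Matrix.mul_one]
          simp only [Matrix.mul_assoc]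
      _ = _ := by rw [Matrix.diagonal_mul_diagonal]
  have hee : e * e = e := by
    rw [he, hmul]
    congr 3
    funext i
    simp only [hf]
    split_ifs <;> norm_num
  have h1 := h e hec hee
  rw [hcV, he, hmul, Matrix.trace_mul_comm, ← Matrix.mul_assoc, iu, Matrix.one_mul,
    Matrix.trace_diagonal] at h1
  have h2 : ∀ i, γ i * f (γ i) = γ i0 * (if γ i = γ i0 then 1 else 0) := by
    intro i
    simp only [hf]
    split_ifs with h3
    · rw [h3]
    · rw [mul_zero, mul_zero]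
  rw [Finset.sum_congr rfl fun i _ => h2 i, ← Finset.mul_sum, Finset.sum_boole] at h1
  rcases mul_eq_zero.1 h1 with h3 | h3
  · exact hi0 h3
  · have h4 : (Finset.univ.filter fun i => γ i = γ i0).card = 0 := by exact_mod_cast h3
    rw [Finset.card_eq_zero] at h4
    have h5 : i0 ∈ Finset.univ.filter fun i => γ i = γ i0 := by simp
    rw [h4] at h5
    exact absurd h5 (Finset.notMem_empty _)

theorem cen_idem_real {m : Submodule ℂ (Matrix ι ι ℂ)} (hm : StarLie m) {Q : Matrix ι ι ℂ}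
    (hQ : Q ∈ cen m) (h : ∀ e ∈ cen m, e * e = e → ∃ z : ℤ, Matrix.trace (Q * e) = z) : Qᴴ = Q := by
  have h1 : Qᴴ - Q ∈ cen m := (cen m).sub_mem (cen_star hm hQ) hQ
  have h2 : Qᴴ - Q = 0 := by
    apply cen_idem_ext hm h1
    intro e he hee
    obtain ⟨z, hz⟩ := h e he hee
    have h3 : Matrix.trace (Qᴴ * e) = z := by
      have h4 : Qᴴ * e = (e * Q)ᴴ := by
        rw [Matrix.conjTranspose_mul, cen_idem_herm hm he hee]
      rw [h4, Matrix.trace_conjTranspose, Matrix.trace_mul_comm, hz]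
      simp
    rw [Matrix.sub_mul, Matrix.trace_sub, h3, hz, sub_self]
  exact sub_eq_zero.1 h2

end Pool.Agent.Work.MP_0da4e0_ag.Ex
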