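import Pool.Agent.Work.MP_0da4e0_ag.Fx.Defs2

/-! MP_0da4e0_ag, exact Weil criterion, module CenRel: the two descriptions of the center, and idempotents.

PROOFS.
(cen_iff) A matrix commuting with mtLieC h is in the span of the cx A, A Hodge endomorphisms (mem_span_endo), and
these commute with mtLieC h (mt_commute).
(idem_zero) e is in the span of the d.q i (cen_iff, Diag.cen_span); trace (X * ·) is linear.
(idem_int) e * U = U * diagonal (κ e) (d.spec), V e U = diagonal ε, ε = d.κ e with ε i ^ 2 = ε i (e e = e), so ε i is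
0 or 1, and ε is constant on the classes of d.rel (definition of d.rel, Cen h e). With X' = V X U:
trace (X e) = ∑ i, X' i i * ε i; trace (X * d.q j) = ∑ over i with d.rel i j of X' i i (trace_mul_q). Group the
sum over i by the classes (Quotient of the setoid d.rel, Finset.sum_fiberwise; or choose a
representative function): trace (X e) is the sum over the classes with ε = 1 of trace (X * d.q j), j in the class. -/

open Matrix

namespace Pool.Agent.Work.MP_0da4e0_ag.Ex

variable {ι : Type} [Fintype ι] [DecidableEq ι]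

theorem cen_iff {h : HodgeStr ι} {Z : Matrix ι ι ℂ} : Cen h Z ↔ Z ∈ cen (mtLieC h) := by
  constructor
  · intro hZ
    refine ⟨hZ.1, fun C hC => ?_⟩
    have h1 := mem_span_endo hC
    have h2 := hZ.2
    clear hC
    induction h1 using Submodule.span_induction with
    | mem x hx => obtain ⟨A, hA, rfl⟩ := hx; exact h2 A hA
    | zero => rw [Matrix.zero_mul, Matrix.mul_zero]
    | add x y _ _ hx hy => rw [Matrix.add_mul, Matrix.mul_add, hx, hy]
    | smul c x _ hx => rw [Matrix.smul_mul, Matrix.mul_smul, hx]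
  · intro hZ
    exact ⟨hZ.1, fun A hA => hZ.2 (cx A) fun X hX => mt_commute hX hA⟩

theorem idem_zero {h : HodgeStr ι} (d : Diag h) {X : Matrix ι ι ℂ}
    (hX : ∀ i, Matrix.trace (X * d.q i) = 0) :
    ∀ e ∈ cen (mtLieC h), Matrix.trace (X * e) = 0 := by
  intro e he
  have h1 := d.cen_span (cen_iff.2 he)
  clear he
  induction h1 using Submodule.span_induction with
  | mem x hx => obtain ⟨i, rfl⟩ := hx; exact hX i
  | zero => rw [Matrix.mul_zero, Matrix.trace_zero]
  | add x y _ _ hx hy => rw [Matrix.mul_add, Matrix.trace_add, hx, hy, add_zero]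
  | smul c x _ hx => rw [Matrix.mul_smul, Matrix.trace_smul, hx, smul_zero]

private theorem sat_int {h : HodgeStr ι} (d : Diag h) {X : Matrix ι ι ℂ}
    (hX : ∀ i, ∃ z : ℤ, Matrix.trace (X * d.q i) = z) : ∀ S : Finset ι,
    (∀ i ∈ S, ∀ j, d.rel i j → j ∈ S) →
    ∃ z : ℤ, ∑ i ∈ S, (d.V * X * (d.U : Matrix ι ι ℂ)) i i = z := by
  classical
  intro S
  induction S using Finset.strongInduction with
  | H S ih =>
    intro hS
    rcases S.eq_empty_or_nonempty with rfl | ⟨j, hj⟩
    · exact ⟨0, by simp⟩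
    · have hT : S.filter (fun i => ¬ d.rel i j) ⊂ S :=
        Finset.filter_ssubset.2 ⟨j, hj, fun hn => hn (d.rel_refl j)⟩
      obtain ⟨z, hz⟩ := ih _ hT (fun i hi k hik => Finset.mem_filter.2
        ⟨hS i (Finset.mem_filter.1 hi).1 k hik,
          fun hkj => (Finset.mem_filter.1 hi).2 (d.rel_trans hik hkj)⟩)
      obtain ⟨w, hw⟩ := hX j
      refine ⟨w + z, ?_⟩
      rw [d.trace_mul_q, ← Finset.sum_filter] at hw
      have hF : S.filter (fun i => d.rel i j) = Finset.univ.filter (fun i => d.rel i j) := by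
        ext i
        simp only [Finset.mem_filter, Finset.mem_univ, true_and, and_iff_right_iff_imp]
        intro hij
        exact hS j hj i (d.rel_symm hij)
      rw [← Finset.sum_filter_add_sum_filter_not S (fun i => d.rel i j), hz, hF, hw]
      push_cast
      rfl

theorem idem_int {h : HodgeStr ι} (d : Diag h) {X : Matrix ι ι ℂ}
    (hX : ∀ i, ∃ z : ℤ, Matrix.trace (X * d.q i) = z) :
    ∀ e ∈ cen (mtLieC h), e * e = e → ∃ z : ℤ, Matrix.trace (X * e) = z := by
  classical
  intro e he hee
  have hC := cen_iff.2 he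
  have hs := d.spec e hC
  have hdd : Matrix.diagonal (d.κ e) * Matrix.diagonal (d.κ e) = Matrix.diagonal (d.κ e) := by
    have h1 : (d.U : Matrix ι ι ℂ) * (Matrix.diagonal (d.κ e) * Matrix.diagonal (d.κ e)) =
        (d.U : Matrix ι ι ℂ) * Matrix.diagonal (d.κ e) := by
      rw [← Matrix.mul_assoc, ← hs, Matrix.mul_assoc, ← hs, ← Matrix.mul_assoc, hee]
    calc Matrix.diagonal (d.κ e) * Matrix.diagonal (d.κ e)
        = d.V * ((d.U : Matrix ι ι ℂ) * (Matrix.diagonal (d.κ e) * Matrix.diagonal (d.κ e))) := by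
          rw [← Matrix.mul_assoc, d.VU, Matrix.one_mul]
      _ = d.V * ((d.U : Matrix ι ι ℂ) * Matrix.diagonal (d.κ e)) := by rw [h1]
      _ = Matrix.diagonal (d.κ e) := by rw [← Matrix.mul_assoc, d.VU, Matrix.one_mul]
  have hε : ∀ i, d.κ e i = 0 ∨ d.κ e i = 1 := by
    intro i
    rw [Matrix.diagonal_mul_diagonal] at hdd
    have h2 := congrFun (congrFun hdd i) i
    rw [Matrix.diagonal_apply_eq, Matrix.diagonal_apply_eq] at h2
    have h3 : d.κ e i * (d.κ e i - 1) = 0 := by
      rw [mul_sub, h2, mul_one, sub_self]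
    rcases mul_eq_zero.1 h3 with h4 | h4
    · exact Or.inl h4
    · exact Or.inr (sub_eq_zero.1 h4)
  obtain ⟨z, hz⟩ := sat_int d hX (Finset.univ.filter fun i => d.κ e i = 1) (by
    intro i hi j hij
    rw [Finset.mem_filter] at hi ⊢
    exact ⟨Finset.mem_univ j, (hij e hC).symm.trans hi.2⟩)
  refine ⟨z, ?_⟩
  rw [← hz]
  have h5 : e = (d.U : Matrix ι ι ℂ) * Matrix.diagonal (d.κ e) * d.V := by
    rw [← hs, Matrix.mul_assoc, d.UV, Matrix.mul_one]
  calc Matrix.trace (X * e)
      = Matrix.trace ((X * (d.U : Matrix ι ι ℂ) * Matrix.diagonal (d.κ e)) * d.V) := by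
        conv_lhs => rw [h5]
        simp only [Matrix.mul_assoc]
    _ = Matrix.trace ((d.V * X * (d.U : Matrix ι ι ℂ)) * Matrix.diagonal (d.κ e)) := by
        rw [Matrix.trace_mul_comm]
        simp only [Matrix.mul_assoc]
    _ = ∑ i ∈ Finset.univ.filter (fun i => d.κ e i = 1), (d.V * X * (d.U : Matrix ι ι ℂ)) i i := by
        rw [Matrix.trace, Finset.sum_filter]
        apply Finset.sum_congr rfl
        intro i _
        rw [Matrix.diag_apply, Matrix.mul_diagonal]
        rcases hε i with h6 | h6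
        · rw [if_neg (by rw [h6]; exact zero_ne_one), h6, mul_zero]
        · rw [if_pos h6, h6, mul_one]

end Pool.Agent.Work.MP_0da4e0_ag.Ex
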