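import Pool.Agent.Work.MP_0da4e0_ag.Fx.Defs
import Pool.Agent.Work.MP_0da4e0_ag.WeilCen

/-! MP_0da4e0_ag, exact Weil criterion, module ExCentral: the central component of an element of m.

PROOF. The bilinear form tr (A B) is nondegenerate on m ⊓ cen m: if A is in it and tr (A B) = 0 for all B in it
then tr (Aᴴ A) = 0 (hm.st, cen_star), so A = 0. So there is Z in m ⊓ cen m with tr ((Y - Z) B) = 0 for all
B in m ⊓ cen m. Let W be in cen m; similarly (nondegeneracy on m) there is W1 in m with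
tr (A W) = tr (A W1) for all A in m. For A, B in m: tr ([A, W1] B) = tr (W1 [B, A]) = tr (W [B, A]) =
tr ([A, W] B) = 0 (W commutes with m), and [A, W1] is in m, so it is 0. So W1 commutes with m; being in m it
commutes with the commutant of m. So W1 is in m ⊓ cen m and
tr ((Y - Z) W) = tr ((Y - Z) W1) = 0 as Y - Z is in m. (The nondegenerate forms and the splitting can be
copied from the proof of exists_split in Ex/SplitL.lean; trB and trB_symm are in WeilCen.lean.) -/

open Matrix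

namespace Pool.Agent.Work.MP_0da4e0_ag.Ex

variable {ι : Type} [Fintype ι] [DecidableEq ι]

private theorem star_zeroC {A : Matrix ι ι ℂ} (h : Matrix.trace (Aᴴ * A) = 0) : A = 0 :=
  trace_star_eq_zero (by rw [h, Complex.zero_re])

private theorem orth_split {S : Submodule ℂ (Matrix ι ι ℂ)} (hS : ∀ X ∈ S, Xᴴ ∈ S)
    (Y : Matrix ι ι ℂ) : ∃ Z ∈ S, ∀ B ∈ S, Matrix.trace (B * (Y - Z)) = 0 := by
  have hdisj : Disjoint S ((trB ι).orthogonal S) := by
    rw [Submodule.disjoint_def]
    intro X hX hX'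
    exact star_zeroC (hX' _ (hS X hX))
  have hcompl := (LinearMap.BilinForm.isCompl_orthogonal_iff_disjoint trB_symm.isRefl).2 hdisj
  obtain ⟨Z, hZ, R, hR, hZR⟩ : ∃ Z ∈ S, ∃ R ∈ (trB ι).orthogonal S, Z + R = Y := by
    have h1 : Y ∈ S ⊔ (trB ι).orthogonal S := by
      rw [hcompl.sup_eq_top]
      exact Submodule.mem_top
    exact Submodule.mem_sup.1 h1
  refine ⟨Z, hZ, fun B hB => ?_⟩
  rw [← hZR, add_sub_cancel_left]
  exact hR B hB

theorem exists_central {m : Submodule ℂ (Matrix ι ι ℂ)} (hm : StarLie m) {Y : Matrix ι ι ℂ}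
    (hY : Y ∈ m) : ∃ Z ∈ m, Z ∈ cen m ∧ ∀ W ∈ cen m, Matrix.trace ((Y - Z) * W) = 0 := by
  obtain ⟨Z, hZ, hR⟩ := orth_split (S := m ⊓ cen m)
    (fun X hX => ⟨hm.st X hX.1, cen_star hm hX.2⟩) Y
  refine ⟨Z, hZ.1, hZ.2, fun W hW => ?_⟩
  obtain ⟨W1, hW1, hR1⟩ := orth_split (S := m) hm.st W
  have hcom : Com m W1 := by
    intro A hA
    have hQ : A * W1 - W1 * A ∈ m := hm.br A hA W1 hW1
    have key : ∀ B ∈ m, Matrix.trace (B * (A * W1 - W1 * A)) = 0 := by
      intro B hB
      have h1 := hR1 _ (hm.br B hB A hA)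
      have h2 : Matrix.trace ((B * A - A * B) * W) = 0 := by
        have h3 : Matrix.trace ((B * A - A * B) * W) = Matrix.trace (B * (A * W - W * A)) := by
          rw [Matrix.sub_mul, Matrix.mul_sub, Matrix.trace_sub, Matrix.trace_sub]
          congr 1
          · rw [Matrix.mul_assoc]
          · rw [Matrix.mul_assoc, Matrix.trace_mul_comm, Matrix.mul_assoc]
        rw [h3, hW.1 A hA, sub_self, Matrix.mul_zero, Matrix.trace_zero]
      have h4 : Matrix.trace (B * (A * W1 - W1 * A)) = Matrix.trace ((B * A - A * B) * W1) := by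
        rw [Matrix.sub_mul, Matrix.mul_sub, Matrix.trace_sub, Matrix.trace_sub]
        congr 1
        · rw [Matrix.mul_assoc]
        · rw [Matrix.mul_assoc A, Matrix.trace_mul_comm A, Matrix.mul_assoc]
      rw [Matrix.mul_sub, Matrix.trace_sub, h2] at h1
      rw [h4]
      have h5 := sub_eq_zero.1 h1
      exact h5.symm
    have h6 := star_zeroC (key _ (hm.st _ hQ))
    exact sub_eq_zero.1 h6
  have hW1' : W1 ∈ cen m := ⟨hcom, fun C hC => (hC W1 hW1).symm⟩
  have hRm : Y - Z ∈ m := m.sub_mem hY hZ.1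
  have h1 := hR W1 ⟨hW1, hW1'⟩
  have h2 := hR1 _ hRm
  rw [Matrix.mul_sub, Matrix.trace_sub] at h2
  have h3 := sub_eq_zero.1 h2
  rw [h3, Matrix.trace_mul_comm, h1]

end Pool.Agent.Work.MP_0da4e0_ag.Ex
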