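import Pool.Agent.Work.MP_0da4e0_ag.Fx.Defs

/-! MP_0da4e0_ag, exact Weil criterion, module DetE: the determinant of an exponential on the image of an
idempotent.

PROOF. Y = A * e is Hermitian ((A e)ᴴ = e A = A e). exp (s • A) * e + (1 - e) = exp (s • Y): either sum the
series, or: s • A = s • Y + s • (A * (1 - e)), both commute and both products with the other idempotent vanish;
expGL_add_of_commute gives expGL A s = expGL Y s * expGL (A * (1 - e)) s; (expGL (A * (1 - e)) s) * e = e since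
(A (1 - e)) e = 0 (power series, or derivative in s: hasDerivAt of exp), and (expGL Y s) * (1 - e) = 1 - e.
So exp (s A) e + (1 - e) = expGL Y s * e + expGL Y s * (1 - e) = expGL Y s.
det (exp (s • Y)) = exp (s * trace Y) by the spectral theorem: Y = U * diagonal y * U⁻¹ (y real eigenvalues,
Matrix.IsHermitian.spectral_theorem), exp (s • Y) = U * diagonal (exp (s y i)) * U⁻¹ (expGL_conj,
Matrix.exp_diagonal), the determinant is the product of the exp (s y i), the trace of Y is the sum of the y i. -/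

open Matrix

namespace Pool.Agent.Work.MP_0da4e0_ag.Ex

variable {ι : Type} [Fintype ι] [DecidableEq ι]

section exp
open NormedSpace
attribute [local instance] Matrix.linftyOpNormedRing Matrix.linftyOpNormedAlgebra

private theorem expGL_mul_of_zero {M C : Matrix ι ι ℂ} (h : M * C = 0) (s : ℂ) :
    (expGL M s : Matrix ι ι ℂ) * C = C := by
  change exp (s • M) * C = C
  have h1 : HasSum (fun n : ℕ => ((n.factorial : ℂ)⁻¹) • (s • M) ^ n) (exp (s • M)) :=
    NormedSpace.exp_series_hasSum_exp' (𝕂 := ℂ) (s • M)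
  have h2 := h1.mul_right C
  have h3 : HasSum (fun n : ℕ => (((n.factorial : ℂ)⁻¹) • (s • M) ^ n) * C) C := by
    have h4 : (((Nat.factorial 0 : ℂ)⁻¹) • (s • M) ^ 0) * C = C := by simp
    have h5 := hasSum_single (f := fun n : ℕ => (((n.factorial : ℂ)⁻¹) • (s • M) ^ n) * C) 0
      (fun n hn => by
        obtain ⟨k, rfl⟩ := Nat.exists_eq_succ_of_ne_zero hn
        change (((k.succ.factorial : ℂ)⁻¹) • (s • M) ^ (k + 1)) * C = 0
        rw [pow_succ, Matrix.smul_mul, Matrix.mul_assoc, Matrix.smul_mul, h, smul_zero,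
          Matrix.mul_zero, smul_zero])
    rwa [h4] at h5
  exact h2.unique h3

end exp

private theorem det_expGL {Y : Matrix ι ι ℂ} (hY : Yᴴ = Y) (s : ℂ) :
    (expGL Y s : Matrix ι ι ℂ).det = Complex.exp (s * Matrix.trace Y) := by
  obtain ⟨U, d, hsp⟩ : ∃ (U : GL ι ℂ) (d : ι → ℝ), Y =
      (U : Matrix ι ι ℂ) * Matrix.diagonal (fun i => (d i : ℂ)) * ((U⁻¹ : GL ι ℂ) : Matrix ι ι ℂ) := by
    have hH : Y.IsHermitian := hY
    refine ⟨⟨(hH.eigenvectorUnitary : Matrix ι ι ℂ), star (hH.eigenvectorUnitary : Matrix ι ι ℂ),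
      Unitary.coe_mul_star_self _, Unitary.coe_star_mul_self _⟩, hH.eigenvalues, ?_⟩
    have h := hH.spectral_theorem
    rw [Unitary.conjStarAlgAut_apply] at h
    exact h
  have hUU : ((U⁻¹ : GL ι ℂ) : Matrix ι ι ℂ) * (U : Matrix ι ι ℂ) = 1 := by
    rw [← Units.val_mul, inv_mul_cancel, Units.val_one]
  have htr : Matrix.trace Y = ∑ i, (d i : ℂ) := by
    rw [hsp, Matrix.trace_mul_comm, ← Matrix.mul_assoc, hUU, Matrix.one_mul, Matrix.trace_diagonal]
  have hdet : (expGL Y s : Matrix ι ι ℂ).det =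
      (expGL (Matrix.diagonal (fun i => (d i : ℂ))) s : Matrix ι ι ℂ).det := by
    rw [hsp, expGL_conj, Units.val_mul, Units.val_mul, Matrix.det_mul, Matrix.det_mul, mul_comm,
      ← mul_assoc, ← Matrix.det_mul, hUU, Matrix.det_one, one_mul]
  have hdg : (expGL (Matrix.diagonal (fun i => (d i : ℂ))) s : Matrix ι ι ℂ) =
      Matrix.diagonal fun i => Complex.exp (s * (d i : ℂ)) := by
    change NormedSpace.exp (s • Matrix.diagonal (fun i => (d i : ℂ))) = _
    rw [← Matrix.diagonal_smul, Matrix.exp_diagonal]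
    congr 1
    funext i
    rw [Pi.coe_exp, ← Complex.exp_eq_exp_ℂ]
    rfl
  rw [hdet, hdg, Matrix.det_diagonal, htr, Finset.mul_sum, Complex.exp_sum]

theorem det_exp_idem {A e : Matrix ι ι ℂ} (hA : Aᴴ = A) (he : e * e = e) (heH : eᴴ = e)
    (hc : A * e = e * A) (s : ℂ) :
    ((expGL A s : Matrix ι ι ℂ) * e + (1 - e)).det = Complex.exp (s * Matrix.trace (A * e)) := by
  have hYH : (A * e)ᴴ = A * e := by rw [Matrix.conjTranspose_mul, hA, heH, hc]
  have h1 : (A * (1 - e)) * e = 0 := by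
    rw [Matrix.mul_assoc, Matrix.sub_mul, Matrix.one_mul, he, sub_self, Matrix.mul_zero]
  have h2 : (A * e) * (1 - e) = 0 := by
    rw [Matrix.mul_assoc, Matrix.mul_sub, Matrix.mul_one, he, sub_self, Matrix.mul_zero]
  have h3 : (A * e) * (A * (1 - e)) = 0 := by
    rw [hc, Matrix.mul_assoc, ← Matrix.mul_assoc A A, Matrix.mul_sub, Matrix.mul_one,
      Matrix.mul_sub, Matrix.mul_assoc A A e, hc, ← Matrix.mul_assoc A e A, hc,
      Matrix.mul_assoc e A A, ← Matrix.mul_assoc e e, he, sub_self]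
  have h4 : (A * (1 - e)) * (A * e) = 0 := by
    rw [hc, ← Matrix.mul_assoc, h1, Matrix.zero_mul]
  have h5 : A = A * e + A * (1 - e) := by
    rw [← Matrix.mul_add]
    have : e + (1 - e) = 1 := by abel
    rw [this, Matrix.mul_one]
  have h6 : expGL A s = expGL (A * e) s * expGL (A * (1 - e)) s := by
    conv_lhs => rw [h5]
    exact expGL_add_of_commute (h3.trans h4.symm) s
  have h7 : (expGL A s : Matrix ι ι ℂ) * e + (1 - e) = (expGL (A * e) s : Matrix ι ι ℂ) := by
    rw [h6, Units.val_mul, Matrix.mul_assoc, expGL_mul_of_zero h1]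
    have h8 : (expGL (A * e) s : Matrix ι ι ℂ) * (1 - e) = 1 - e := expGL_mul_of_zero h2 s
    rw [← h8, ← Matrix.mul_add]
    have : e + (1 - e) = 1 := by abel
    rw [this, Matrix.mul_one]
  rw [h7, det_expGL hYH]

end Pool.Agent.Work.MP_0da4e0_ag.Ex
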