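import Pool.Agent.Work.MP_0da4e0_ag.Ex.UDiag
import Pool.Agent.Work.MP_0da4e0_ag.Fx.Angles

/-! MP_0da4e0_ag, exact Weil criterion, module UDiagU: unitary diagonalization of a unitary matrix.

PROOF. g gᴴ = gᴴ g = 1. A = (g + gᴴ) / 2 and B = (g - gᴴ) / (2 i) are Hermitian, commute, and g = A + i B.
exists_udiag for the real span of A and B (all its elements are Hermitian and commute): U unitary,
U⁻¹ A U = dg a, U⁻¹ B U = dg b, so U⁻¹ g U = diagonal (a i + b i I) =: diagonal u, and ‖u i‖ = 1 since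
diagonal u is unitary. Put θ i = arg (u i), u i = exp (θ i * I). trace g = ∑ u i, so angles applies. -/

open Matrix

namespace Pool.Agent.Work.MP_0da4e0_ag.Ex

variable {ι : Type} [Fintype ι] [DecidableEq ι]

private theorem ui (U : GL ι ℂ) : (U : Matrix ι ι ℂ) * ((U⁻¹ : GL ι ℂ) : Matrix ι ι ℂ) = 1 := by
  rw [← Units.val_mul, mul_inv_cancel, Units.val_one]

private theorem iu (U : GL ι ℂ) : ((U⁻¹ : GL ι ℂ) : Matrix ι ι ℂ) * (U : Matrix ι ι ℂ) = 1 := by
  rw [← Units.val_mul, inv_mul_cancel, Units.val_one]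

theorem exists_angles (hn : 1 ≤ Fintype.card ι) (g : GL ι ℂ)
    (hg : (g : Matrix ι ι ℂ)ᴴ * (g : Matrix ι ι ℂ) = 1)
    (h : ((Fintype.card ι : ℝ) + 1) ^ 2 - 1 / (Fintype.card ι : ℝ) ≤
      ‖1 + Matrix.trace (g : Matrix ι ι ℂ)‖ ^ 2) :
    ∃ (U : GL ι ℂ) (θ : ι → ℝ), (U : Matrix ι ι ℂ)ᴴ * (U : Matrix ι ι ℂ) = 1 ∧
      (g : Matrix ι ι ℂ) * (U : Matrix ι ι ℂ) =
        (U : Matrix ι ι ℂ) * Matrix.diagonal (fun i => Complex.exp ((θ i : ℂ) * Complex.I)) ∧
      ∑ i, |θ i| ≤ Real.pi / 2 := by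
  classical
  set G : Matrix ι ι ℂ := (g : Matrix ι ι ℂ) with hG
  have hg' : G * Gᴴ = 1 := mul_eq_one_comm.1 hg
  set A : Matrix ι ι ℂ := (1 / 2 : ℂ) • (G + Gᴴ) with hA
  set B : Matrix ι ι ℂ := (-(Complex.I / 2) : ℂ) • (G - Gᴴ) with hB
  have hAH : Aᴴ = A := by
    rw [hA, Matrix.conjTranspose_smul, Matrix.conjTranspose_add, Matrix.conjTranspose_conjTranspose,
      add_comm Gᴴ G]
    congr 1
    simp
  have hBH : Bᴴ = B := by
    rw [hB, Matrix.conjTranspose_smul, Matrix.conjTranspose_sub, Matrix.conjTranspose_conjTranspose]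
    have h1 : star (-(Complex.I / 2) : ℂ) = Complex.I / 2 := by
      simp [Complex.conj_I]
      ring
    rw [h1, neg_smul, ← smul_neg, neg_sub]
  have hAB : A * B = B * A := by
    rw [hA, hB, Matrix.smul_mul, Matrix.mul_smul, Matrix.smul_mul, Matrix.mul_smul, smul_comm]
    congr 2
    rw [Matrix.add_mul, Matrix.mul_sub, Matrix.mul_sub, Matrix.sub_mul, Matrix.mul_add,
      Matrix.mul_add, hg, hg']
    abel
  have hGAB : G = A + Complex.I • B := by
    rw [hA, hB, smul_smul]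
    have h1 : Complex.I * -(Complex.I / 2) = 1 / 2 := by
      have h2 := Complex.I_mul_I
      linear_combination (-1 / 2) * h2
    rw [h1, ← smul_add]
    have h2 : G + Gᴴ + (G - Gᴴ) = (2 : ℂ) • G := by
      rw [two_smul]
      abel
    rw [h2, smul_smul]
    norm_num
  have hmem : ∀ X ∈ Submodule.span ℝ ({A, B} : Set (Matrix ι ι ℂ)), ∃ a b : ℝ,
      X = a • A + b • B := by
    intro X hX
    obtain ⟨a, b, h1⟩ := Submodule.mem_span_pair.1 hX
    exact ⟨a, b, h1.symm⟩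
  obtain ⟨U, hU, hd⟩ := exists_udiag (Submodule.span ℝ ({A, B} : Set (Matrix ι ι ℂ)))
    (by
      intro X hX
      obtain ⟨a, b, rfl⟩ := hmem X hX
      rw [Matrix.conjTranspose_add, Matrix.conjTranspose_smul a A, Matrix.conjTranspose_smul b B, hAH,
        hBH, star_trivial, star_trivial])
    (by
      intro X hX Y hY
      obtain ⟨a, b, rfl⟩ := hmem X hX
      obtain ⟨c, d, rfl⟩ := hmem Y hY
      simp only [Matrix.add_mul, Matrix.mul_add, Matrix.smul_mul, Matrix.mul_smul, hAB, smul_add,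
        smul_smul]
      rw [mul_comm c a, mul_comm c b, mul_comm d a, mul_comm d b]
      abel)
  obtain ⟨a, ha⟩ := hd A (Submodule.subset_span (Set.mem_insert _ _))
  obtain ⟨b, hb⟩ := hd B (Submodule.subset_span (Set.mem_insert_of_mem _ rfl))
  set u : ι → ℂ := fun i => (a i : ℂ) + Complex.I * (b i : ℂ) with hu
  have hK : ((U⁻¹ : GL ι ℂ) : Matrix ι ι ℂ) * G * (U : Matrix ι ι ℂ) = Matrix.diagonal u := by
    rw [hGAB, Matrix.mul_add, Matrix.add_mul, ha, Matrix.mul_smul, Matrix.smul_mul, hb]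
    unfold dg
    rw [← Matrix.diagonal_smul, Matrix.diagonal_add]
    rfl
  have hGU : G * (U : Matrix ι ι ℂ) = (U : Matrix ι ι ℂ) * Matrix.diagonal u := by
    rw [← hK, ← Matrix.mul_assoc, ← Matrix.mul_assoc, ui, Matrix.one_mul]
  have hun : ∀ i, ‖u i‖ = 1 := by
    have h1 : (Matrix.diagonal u)ᴴ * Matrix.diagonal u = 1 := by
      have h2 : (G * (U : Matrix ι ι ℂ))ᴴ * (G * (U : Matrix ι ι ℂ)) = 1 := by
        rw [Matrix.conjTranspose_mul, Matrix.mul_assoc, ← Matrix.mul_assoc Gᴴ, hg, Matrix.one_mul, hU]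
      rw [hGU, Matrix.conjTranspose_mul, Matrix.mul_assoc,
        ← Matrix.mul_assoc ((U : Matrix ι ι ℂ))ᴴ, hU, Matrix.one_mul] at h2
      exact h2
    intro i
    have h3 := congrFun (congrFun h1 i) i
    rw [Matrix.diagonal_conjTranspose, Matrix.diagonal_mul_diagonal, Matrix.diagonal_apply_eq,
      Matrix.one_apply_eq, Pi.star_apply, Complex.star_def, ← Complex.normSq_eq_conj_mul_self,
      Complex.normSq_eq_norm_sq] at h3
    have h4 : ‖u i‖ ^ 2 = 1 := by exact_mod_cast h3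
    have h5 := norm_nonneg (u i)
    nlinarith
  have htr : Matrix.trace G = ∑ i, u i := by
    have h1 : Matrix.trace (Matrix.diagonal u) = ∑ i, u i := Matrix.trace_diagonal u
    rw [← h1, ← hK, Matrix.mul_assoc, Matrix.trace_mul_comm, Matrix.mul_assoc, ui, Matrix.mul_one]
  refine ⟨U, fun i => Complex.arg (u i), hU, ?_, angles hn u hun (by rw [← htr]; exact h)⟩
  rw [hGU]
  congr 2
  funext i
  have h1 := Complex.norm_mul_exp_arg_mul_I (u i)
  rw [hun i, Complex.ofReal_one, one_mul] at h1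
  exact h1.symm

end Pool.Agent.Work.MP_0da4e0_ag.Ex
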