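import Pool.Agent.Work.MP_0da4e0_ag.Ex.Fc
import Pool.Agent.Work.MP_0da4e0_ag.Fx.UDiagU
import Pool.Agent.Work.MP_0da4e0_ag.Fx.DetE

/-! MP_0da4e0_ag, exact Weil criterion, module ULog: the logarithm of a unitary matrix near one.

PROOF. U, θ from exists_angles, u i = exp (θ i * I). B = U * dg θ * U⁻¹ (U⁻¹ = Uᴴ), Hermitian.
expGL (I • B) 1 = g: expGL_conj and Matrix.exp_diagonal (see expGL_diagonal in Ex/GlD.lean).
All |θ i| ≤ π / 2, and |θ i - θ j| ≤ |θ i| + |θ j| ≤ π / 2 for i ≠ j, so |θ i - θ j| ≤ π / 2 for all i, j.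
(commute) g C = C g. C' = U⁻¹ C U: u i * C' i j = C' i j * u j. If C' i j ≠ 0 then u i = u j, so θ i - θ j is a
multiple of 2 π and |θ i - θ j| < 2 π: θ i = θ j. So dg θ C' = C' dg θ.
(stable) m' = {X' | U X' U⁻¹ ∈ m} = cj U m. For X' in m', (U⁻¹ g U) X' (U⁻¹ g U)⁻¹ has entries
u i * conj (u j) * X' i j and is in m'. fc (Ex/Fc.lean) with t i j = u i * conj (u j) and s i j = θ i - θ j: if
t i j = t k l, then (θ i - θ j) - (θ k - θ l) is a multiple of 2 π of absolute value ≤ π, so it is 0. Hence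
(dg θ * X' - X' * dg θ) i j = (θ i - θ j) * X' i j gives an element of m'.
(det) q' = U⁻¹ q U is a Hermitian idempotent commuting with diagonal u, so q commutes with B by (commute)
applied to C = q. det_exp_idem for A = B, e = q, s = I (expGL (I • B) 1 = expGL B I): exp (I * trace (B * q)) = 1.
trace (B * q) = trace (dg θ * q') = ∑ θ i * q' i i, and q' i i = ∑ j, |q' i j|^2 is real with
q' i i ≥ |q' i i|^2, so 0 ≤ q' i i ≤ 1; so trace (B * q) is real of absolute value ≤ ∑ |θ i| ≤ π / 2, hence 0. -/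

open Matrix

namespace Pool.Agent.Work.MP_0da4e0_ag.Ex

variable {ι : Type} [Fintype ι] [DecidableEq ι]

private theorem ui (U : GL ι ℂ) : (U : Matrix ι ι ℂ) * ((U⁻¹ : GL ι ℂ) : Matrix ι ι ℂ) = 1 := by
  rw [← Units.val_mul, mul_inv_cancel, Units.val_one]

private theorem iu (U : GL ι ℂ) : ((U⁻¹ : GL ι ℂ) : Matrix ι ι ℂ) * (U : Matrix ι ι ℂ) = 1 := by
  rw [← Units.val_mul, inv_mul_cancel, Units.val_one]

private theorem ang_inj {x y : ℝ} (h : |x - y| < 2 * Real.pi)
    (he : Complex.exp ((x : ℂ) * Complex.I) = Complex.exp ((y : ℂ) * Complex.I)) : x = y := by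
  obtain ⟨n, hn⟩ := Complex.exp_eq_exp_iff_exists_int.1 he
  have h1 : (x : ℂ) = y + n * (2 * Real.pi) := by
    have h2 : ((x : ℂ) - (y + n * (2 * Real.pi))) * Complex.I = 0 := by
      linear_combination hn
    rcases mul_eq_zero.1 h2 with h3 | h3
    · exact sub_eq_zero.1 h3
    · exact absurd h3 Complex.I_ne_zero
  have h2 : x = y + n * (2 * Real.pi) := by exact_mod_cast h1
  have h3 : x - y = n * (2 * Real.pi) := by linarith
  rw [h3, abs_mul, abs_of_pos (by positivity : (0 : ℝ) < 2 * Real.pi)] at h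
  have h4 : |(n : ℝ)| < 1 := by
    have h5 : (0 : ℝ) < 2 * Real.pi := by positivity
    nlinarith
  have h5 : n = 0 := by
    have h6 : |n| < 1 := by exact_mod_cast h4
    exact Int.abs_lt_one_iff.1 h6
  rw [h2, h5]
  simp

section exp
open NormedSpace
attribute [local instance] Matrix.linftyOpNormedRing Matrix.linftyOpNormedAlgebra

private theorem expGL_diagonal (d : ι → ℂ) :
    (expGL (Matrix.diagonal d) 1 : Matrix ι ι ℂ) = Matrix.diagonal (fun i => Complex.exp (d i)) := by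
  change exp ((1 : ℂ) • Matrix.diagonal d) = _
  rw [one_smul, Matrix.exp_diagonal]
  congr 1
  funext i
  rw [Pi.coe_exp, Complex.exp_eq_exp_ℂ]

private theorem expGL_smul_one (X : Matrix ι ι ℂ) (s : ℂ) : expGL (s • X) 1 = expGL X s := by
  apply Units.ext
  change exp ((1 : ℂ) • (s • X)) = exp (s • X)
  rw [one_smul]

end exp

omit [DecidableEq ι] in
private theorem idem_diag {Q : Matrix ι ι ℂ} (h1 : Q * Q = Q) (h2 : Qᴴ = Q) (i : ι) :
    ∃ r : ℝ, Q i i = (r : ℂ) ∧ 0 ≤ r ∧ r ≤ 1 := by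
  have h3 : Q i i = ((∑ j, Complex.normSq (Q i j) : ℝ) : ℂ) := by
    have h4 := congrFun (congrFun h1 i) i
    rw [Matrix.mul_apply] at h4
    rw [← h4, Complex.ofReal_sum]
    refine Finset.sum_congr rfl fun j _ => ?_
    have h5 := congrFun (congrFun h2 j) i
    rw [Matrix.conjTranspose_apply, Complex.star_def] at h5
    rw [← h5, Complex.normSq_eq_conj_mul_self, mul_comm]
  refine ⟨_, h3, Finset.sum_nonneg fun j _ => Complex.normSq_nonneg _, ?_⟩
  have h4 : Complex.normSq (Q i i) ≤ ∑ j, Complex.normSq (Q i j) :=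
    Finset.single_le_sum (f := fun j => Complex.normSq (Q i j))
      (fun j _ => Complex.normSq_nonneg _) (Finset.mem_univ i)
  set r : ℝ := ∑ j, Complex.normSq (Q i j) with hr
  rw [h3, Complex.normSq_ofReal] at h4
  nlinarith

theorem exists_ulog (hn : 1 ≤ Fintype.card ι) (g : GL ι ℂ)
    (hg : (g : Matrix ι ι ℂ)ᴴ * (g : Matrix ι ι ℂ) = 1)
    (h : ((Fintype.card ι : ℝ) + 1) ^ 2 - 1 / (Fintype.card ι : ℝ) ≤
      ‖1 + Matrix.trace (g : Matrix ι ι ℂ)‖ ^ 2) :
    ∃ B : Matrix ι ι ℂ, Bᴴ = B ∧ expGL (Complex.I • B) 1 = g ∧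
      (∀ C : Matrix ι ι ℂ, (g : Matrix ι ι ℂ) * C = C * (g : Matrix ι ι ℂ) → B * C = C * B) ∧
      (∀ m : Submodule ℂ (Matrix ι ι ℂ),
        (∀ X ∈ m, (g : Matrix ι ι ℂ) * X * ((g⁻¹ : GL ι ℂ) : Matrix ι ι ℂ) ∈ m) →
        ∀ X ∈ m, B * X - X * B ∈ m) ∧
      (∀ q : Matrix ι ι ℂ, q * q = q → qᴴ = q → (g : Matrix ι ι ℂ) * q = q * (g : Matrix ι ι ℂ) →
        ((g : Matrix ι ι ℂ) * q + (1 - q)).det = 1 → Matrix.trace (B * q) = 0) := by
  obtain ⟨U, θ, hU, hgU, hsum⟩ := exists_angles hn g hg h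
  set G : Matrix ι ι ℂ := (g : Matrix ι ι ℂ) with hG
  set u : ι → ℂ := fun i => Complex.exp ((θ i : ℂ) * Complex.I) with hu
  have hUi : ((U⁻¹ : GL ι ℂ) : Matrix ι ι ℂ) = (U : Matrix ι ι ℂ)ᴴ := by
    calc ((U⁻¹ : GL ι ℂ) : Matrix ι ι ℂ) =
        ((U : Matrix ι ι ℂ)ᴴ * (U : Matrix ι ι ℂ)) * ((U⁻¹ : GL ι ℂ) : Matrix ι ι ℂ) := by
          rw [hU, Matrix.one_mul]
      _ = (U : Matrix ι ι ℂ)ᴴ := by rw [Matrix.mul_assoc, ui, Matrix.mul_one]
  let K : Matrix ι ι ℂ → Matrix ι ι ℂ := fun X =>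
    ((U⁻¹ : GL ι ℂ) : Matrix ι ι ℂ) * X * (U : Matrix ι ι ℂ)
  have K_def : ∀ X, K X = ((U⁻¹ : GL ι ℂ) : Matrix ι ι ℂ) * X * (U : Matrix ι ι ℂ) := fun _ => rfl
  have K_mul : ∀ X Y, K (X * Y) = K X * K Y := by
    intro X Y
    calc K (X * Y) = ((U⁻¹ : GL ι ℂ) : Matrix ι ι ℂ) * X *
          ((U : Matrix ι ι ℂ) * ((U⁻¹ : GL ι ℂ) : Matrix ι ι ℂ)) * Y * (U : Matrix ι ι ℂ) := by
          rw [ui, Matrix.mul_one, K_def]
          simp only [Matrix.mul_assoc]
      _ = K X * K Y := by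
          rw [K_def, K_def]
          simp only [Matrix.mul_assoc]
  have K_back : ∀ X, (U : Matrix ι ι ℂ) * K X * ((U⁻¹ : GL ι ℂ) : Matrix ι ι ℂ) = X := by
    intro X
    calc (U : Matrix ι ι ℂ) * K X * ((U⁻¹ : GL ι ℂ) : Matrix ι ι ℂ) =
        ((U : Matrix ι ι ℂ) * ((U⁻¹ : GL ι ℂ) : Matrix ι ι ℂ)) * X *
          ((U : Matrix ι ι ℂ) * ((U⁻¹ : GL ι ℂ) : Matrix ι ι ℂ)) := by
          rw [K_def]
          simp only [Matrix.mul_assoc]
      _ = X := by rw [ui, Matrix.one_mul, Matrix.mul_one]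
  have K_inj : ∀ X Y, K X = K Y → X = Y := by
    intro X Y h1
    rw [← K_back X, h1, K_back]
  have K_of : ∀ Y, K ((U : Matrix ι ι ℂ) * Y * ((U⁻¹ : GL ι ℂ) : Matrix ι ι ℂ)) = Y := by
    intro Y
    calc K ((U : Matrix ι ι ℂ) * Y * ((U⁻¹ : GL ι ℂ) : Matrix ι ι ℂ)) =
        (((U⁻¹ : GL ι ℂ) : Matrix ι ι ℂ) * (U : Matrix ι ι ℂ)) * Y *
          (((U⁻¹ : GL ι ℂ) : Matrix ι ι ℂ) * (U : Matrix ι ι ℂ)) := by
          rw [K_def]
          simp only [Matrix.mul_assoc]
      _ = Y := by rw [iu, Matrix.one_mul, Matrix.mul_one]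
  have K_tr : ∀ Y, Matrix.trace (K Y) = Matrix.trace Y := by
    intro Y
    rw [K_def, Matrix.mul_assoc, Matrix.trace_mul_comm, Matrix.mul_assoc, ui, Matrix.mul_one]
  have K_g : K G = Matrix.diagonal u := by
    rw [K_def, Matrix.mul_assoc, hgU, ← Matrix.mul_assoc, iu, Matrix.one_mul]
  set B : Matrix ι ι ℂ := (U : Matrix ι ι ℂ) * dg θ * ((U⁻¹ : GL ι ℂ) : Matrix ι ι ℂ) with hB
  have K_B : K B = dg θ := K_of _
  have hdg : (dg θ)ᴴ = dg θ := by
    unfold dg
    rw [Matrix.diagonal_conjTranspose]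
    congr 1
    funext i
    rw [Pi.star_apply, Complex.star_def, Complex.conj_ofReal]
  have hBH : Bᴴ = B := by
    rw [hB, hUi, Matrix.conjTranspose_mul, Matrix.conjTranspose_mul,
      Matrix.conjTranspose_conjTranspose, hdg, Matrix.mul_assoc]
  have hexp : expGL (Complex.I • B) 1 = g := by
    have h1 : Complex.I • B = (U : Matrix ι ι ℂ) *
        Matrix.diagonal (fun i => (θ i : ℂ) * Complex.I) * ((U⁻¹ : GL ι ℂ) : Matrix ι ι ℂ) := by
      rw [hB, ← Matrix.smul_mul, ← Matrix.mul_smul]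
      congr 2
      unfold dg
      rw [← Matrix.diagonal_smul]
      congr 1
      funext i
      rw [Pi.smul_apply, smul_eq_mul, mul_comm]
    rw [h1, expGL_conj]
    apply Units.ext
    rw [Units.val_mul, Units.val_mul, expGL_diagonal]
    have h2 : (U : Matrix ι ι ℂ) * Matrix.diagonal u = G * (U : Matrix ι ι ℂ) := hgU.symm
    change (U : Matrix ι ι ℂ) * Matrix.diagonal u * ((U⁻¹ : GL ι ℂ) : Matrix ι ι ℂ) = G
    rw [h2, Matrix.mul_assoc, ui, Matrix.mul_one]
  have hpi := Real.pi_pos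
  have hi1 : ∀ i, |θ i| ≤ Real.pi / 2 := fun i =>
    (Finset.single_le_sum (f := fun i => |θ i|) (fun j _ => abs_nonneg _) (Finset.mem_univ i)).trans
      hsum
  have hi2 : ∀ i j, |θ i - θ j| ≤ Real.pi / 2 := by
    intro i j
    by_cases hij : i = j
    · rw [hij, sub_self, abs_zero]
      positivity
    · have h1 : |θ i| + |θ j| ≤ ∑ i, |θ i| := by
        rw [← Finset.sum_pair (f := fun i => |θ i|) hij]
        exact Finset.sum_le_sum_of_subset_of_nonneg (Finset.subset_univ _)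
          (fun _ _ _ => abs_nonneg _)
      have h2 := abs_sub (θ i) (θ j)
      linarith
  have hcomm : ∀ C : Matrix ι ι ℂ, G * C = C * G → B * C = C * B := by
    intro C hC
    apply K_inj
    rw [K_mul B C, K_mul C B, K_B]
    have h1 : Matrix.diagonal u * K C = K C * Matrix.diagonal u := by
      rw [← K_g, ← K_mul, ← K_mul, hC]
    ext i j
    have h2 := congrFun (congrFun h1 i) j
    rw [Matrix.diagonal_mul, Matrix.mul_diagonal] at h2
    unfold dg
    rw [Matrix.diagonal_mul, Matrix.mul_diagonal]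
    by_cases h0 : K C i j = 0
    · rw [h0, mul_zero, zero_mul]
    · have h3 : u i = u j := by
        apply mul_right_cancel₀ h0
        rw [h2, mul_comm]
      have h4 : θ i = θ j := by
        refine ang_inj ?_ h3
        have := hi2 i j
        linarith
      rw [h4, mul_comm]
  have hcuu : ∀ j, (starRingEnd ℂ) (u j) = Complex.exp (-((θ j : ℂ) * Complex.I)) := by
    intro j
    rw [hu]
    beta_reduce
    rw [← Complex.exp_conj, map_mul, Complex.conj_ofReal, Complex.conj_I, mul_neg]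
  have huu : ∀ j, u j * (starRingEnd ℂ) (u j) = 1 := by
    intro j
    rw [hcuu, hu]
    beta_reduce
    rw [← Complex.exp_add, add_neg_cancel, Complex.exp_zero]
  have hgi : K ((g⁻¹ : GL ι ℂ) : Matrix ι ι ℂ) = Matrix.diagonal (fun j => (starRingEnd ℂ) (u j)) := by
    have h1 : Matrix.diagonal (fun j => (starRingEnd ℂ) (u j)) * K G = 1 := by
      rw [K_g, Matrix.diagonal_mul_diagonal, ← Matrix.diagonal_one]
      congr 1
      funext j
      rw [mul_comm]
      exact huu j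
    have h2 : K G * K ((g⁻¹ : GL ι ℂ) : Matrix ι ι ℂ) = 1 := by
      rw [← K_mul, hG, ui, K_def, Matrix.mul_one, iu]
    calc K ((g⁻¹ : GL ι ℂ) : Matrix ι ι ℂ) =
        (Matrix.diagonal (fun j => (starRingEnd ℂ) (u j)) * K G) *
          K ((g⁻¹ : GL ι ℂ) : Matrix ι ι ℂ) := by rw [h1, Matrix.one_mul]
      _ = _ := by rw [Matrix.mul_assoc, h2, Matrix.mul_one]
  refine ⟨B, hBH, hexp, hcomm, ?_, ?_⟩
  · intro m hm X hX
    have ht : ∀ Y ∈ cj U m,
        (Matrix.of fun i j => (u i * (starRingEnd ℂ) (u j)) * Y i j) ∈ cj U m := by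
      intro Y hY
      have h1 : (U : Matrix ι ι ℂ) * Y * ((U⁻¹ : GL ι ℂ) : Matrix ι ι ℂ) ∈ m := hY
      have h2 := hm _ h1
      have h3 : (Matrix.of fun i j => (u i * (starRingEnd ℂ) (u j)) * Y i j) =
          K (G * ((U : Matrix ι ι ℂ) * Y * ((U⁻¹ : GL ι ℂ) : Matrix ι ι ℂ)) *
            ((g⁻¹ : GL ι ℂ) : Matrix ι ι ℂ)) := by
        rw [K_mul, K_mul, K_of, K_g, hgi]
        ext i j
        rw [Matrix.mul_diagonal, Matrix.diagonal_mul, Matrix.of_apply]
        ring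
      change (U : Matrix ι ι ℂ) * _ * ((U⁻¹ : GL ι ℂ) : Matrix ι ι ℂ) ∈ m
      rw [h3, K_back]
      exact h2
    have hs : ∀ i j k l, u i * (starRingEnd ℂ) (u j) = u k * (starRingEnd ℂ) (u l) →
        ((θ i : ℂ) - θ j) = ((θ k : ℂ) - θ l) := by
      intro i j k l h1
      have h2 : ∀ i j, u i * (starRingEnd ℂ) (u j) =
          Complex.exp (((θ i - θ j : ℝ) : ℂ) * Complex.I) := by
        intro i j
        rw [hcuu, hu]
        beta_reduce
        rw [← Complex.exp_add]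
        congr 1
        push_cast
        ring
      rw [h2, h2] at h1
      have h3 : θ i - θ j = θ k - θ l := by
        refine ang_inj ?_ h1
        have h4 := hi2 i j
        have h5 := hi2 k l
        have h6 := abs_sub (θ i - θ j) (θ k - θ l)
        linarith
      exact_mod_cast h3
    have h1 : K X ∈ cj U m := by
      change (U : Matrix ι ι ℂ) * K X * ((U⁻¹ : GL ι ℂ) : Matrix ι ι ℂ) ∈ m
      rw [K_back]
      exact hX
    have h2 := fc (cj U m) (fun i j => u i * (starRingEnd ℂ) (u j)) (fun i j => (θ i : ℂ) - θ j) ht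
      hs (K X) h1
    have h3 : (Matrix.of fun i j => ((θ i : ℂ) - θ j) * K X i j) = K (B * X - X * B) := by
      have h4 : K (B * X - X * B) = K (B * X) - K (X * B) := by
        rw [K_def, K_def, K_def, Matrix.mul_sub, Matrix.sub_mul]
      rw [h4, K_mul B X, K_mul X B, K_B]
      ext i j
      unfold dg
      rw [Matrix.sub_apply, Matrix.diagonal_mul, Matrix.mul_diagonal, Matrix.of_apply]
      ring
    rw [h3] at h2
    have h5 : (U : Matrix ι ι ℂ) * K (B * X - X * B) * ((U⁻¹ : GL ι ℂ) : Matrix ι ι ℂ) ∈ m := h2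
    rwa [K_back] at h5
  · intro q hq hqH hqc hdet
    have h1 := det_exp_idem hBH hq hqH (hcomm q hqc) Complex.I
    rw [← expGL_smul_one, hexp, hdet] at h1
    have hKq : K q * K q = K q := by rw [← K_mul, hq]
    have hKqH : (K q)ᴴ = K q := by
      rw [K_def, hUi, Matrix.conjTranspose_mul, Matrix.conjTranspose_mul,
        Matrix.conjTranspose_conjTranspose, hqH, Matrix.mul_assoc]
    choose r hr hr0 hr1 using idem_diag hKq hKqH
    have htr : Matrix.trace (B * q) = ((∑ i, θ i * r i : ℝ) : ℂ) := by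
      have h2 : Matrix.trace (B * q) = Matrix.trace (K (B * q)) := (K_tr _).symm
      rw [h2, K_mul B q, K_B, Matrix.trace, Complex.ofReal_sum]
      refine Finset.sum_congr rfl fun i _ => ?_
      unfold dg
      rw [Matrix.diag_apply, Matrix.diagonal_mul, hr, Complex.ofReal_mul]
    have habs : |∑ i, θ i * r i| ≤ Real.pi / 2 := by
      refine (Finset.abs_sum_le_sum_abs _ _).trans (le_trans (Finset.sum_le_sum fun i _ => ?_) hsum)
      rw [abs_mul, abs_of_nonneg (hr0 i)]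
      exact mul_le_of_le_one_right (abs_nonneg _) (hr1 i)
    have h3 : (∑ i, θ i * r i) = 0 := by
      refine ang_inj (by rw [sub_zero]; linarith) ?_
      rw [Complex.ofReal_zero, zero_mul, Complex.exp_zero, h1, htr, mul_comm]
    rw [htr, h3, Complex.ofReal_zero]

end Pool.Agent.Work.MP_0da4e0_ag.Ex
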