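import Pool.Agent.Work.MP_0da4e0_ag.Ex.SplitL
import Pool.Agent.Work.MP_0da4e0_ag.Fx.ULog
import Pool.Agent.Work.MP_0da4e0_ag.Fx.CenIdem
import Pool.Agent.Work.MP_0da4e0_ag.Fx.ExCentral

/-! MP_0da4e0_ag, exact Weil criterion, module Gap: a central matrix near an element of Kp m is in Gp m.

PROOF. g = uGL k * f is unitary. B from exists_ulog. For X in m: g X g⁻¹ = k X k⁻¹ is in m (f commutes with X,
Gp_norm ha), so [B, X] is in m. For C in the commutant of m: g C = C g (Gp_com for k; f is in cen m), so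
B C = C B. exists_split: Y in m, B - Y in cen m. exists_central: Z in m, in cen m with trace ((Y - Z) W) = 0 for
all W in cen m. V = (B - Y) + Z is in cen m. For an idempotent e of cen m: e is Hermitian (cen_idem_herm), g e = e g,
det (g e + (1 - e)) = det (k e + (1 - e)) * det (f e + (1 - e)) = 1 (bdet_mul), so trace (B e) = 0, and
trace (V e) = trace (B e) - trace ((Y - Z) e) = 0. So V = 0 (cen_idem_ext), B = Y - Z is in m, and
g = expGL (I • B) 1 is in Gp m (expGL_mem), f = (uGL k)⁻¹ * g is in Gp m. -/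

open Matrix

namespace Pool.Agent.Work.MP_0da4e0_ag.Ex

variable {ι : Type} [Fintype ι] [DecidableEq ι]

theorem gap {m : Submodule ℂ (Matrix ι ι ℂ)} (hm : StarLie m) (ha : Algebraic m)
    (hn : 1 ≤ Fintype.card ι) (f : GL ι ℂ) (hfc : (f : Matrix ι ι ℂ) ∈ cen m)
    (hf : (f : Matrix ι ι ℂ)ᴴ * (f : Matrix ι ι ℂ) = 1)
    (hdet : ∀ e ∈ cen m, e * e = e → ((f : Matrix ι ι ℂ) * e + (1 - e)).det = 1)
    (k : Matrix.unitaryGroup ι ℂ) (hk : k ∈ Kp m)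
    (h : ((Fintype.card ι : ℝ) + 1) ^ 2 - 1 / (Fintype.card ι : ℝ) ≤
      ‖1 + Matrix.trace ((uGL k * f : GL ι ℂ) : Matrix ι ι ℂ)‖ ^ 2) : f ∈ Gp m := by
  have hkf : ((uGL k * f : GL ι ℂ) : Matrix ι ι ℂ) = ((uGL k : GL ι ℂ) : Matrix ι ι ℂ) * (f : Matrix ι ι ℂ) :=
    Units.val_mul _ _
  have hgu : ((uGL k * f : GL ι ℂ) : Matrix ι ι ℂ)ᴴ * ((uGL k * f : GL ι ℂ) : Matrix ι ι ℂ) = 1 := by
    rw [hkf, Matrix.conjTranspose_mul]
    calc (f : Matrix ι ι ℂ)ᴴ * ((uGL k : GL ι ℂ) : Matrix ι ι ℂ)ᴴ *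
          (((uGL k : GL ι ℂ) : Matrix ι ι ℂ) * (f : Matrix ι ι ℂ)) =
        (f : Matrix ι ι ℂ)ᴴ * (((uGL k : GL ι ℂ) : Matrix ι ι ℂ)ᴴ * ((uGL k : GL ι ℂ) : Matrix ι ι ℂ)) *
          (f : Matrix ι ι ℂ) := by simp only [Matrix.mul_assoc]
      _ = 1 := by rw [uGL_star_mul, Matrix.mul_one, hf]
  obtain ⟨B, -, hexp, hcomm, hstab, hdetB⟩ := exists_ulog hn (uGL k * f) hgu h
  have hfX : ∀ X, Com m X → (f : Matrix ι ι ℂ) * X = X * (f : Matrix ι ι ℂ) :=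
    fun X hX => (hfc.2 X hX).symm
  have h1 : ∀ X ∈ m, ((uGL k * f : GL ι ℂ) : Matrix ι ι ℂ) * X *
      (((uGL k * f)⁻¹ : GL ι ℂ) : Matrix ι ι ℂ) ∈ m := by
    intro X hX
    have h2 : ((uGL k * f : GL ι ℂ) : Matrix ι ι ℂ) * X *
        (((uGL k * f)⁻¹ : GL ι ℂ) : Matrix ι ι ℂ) =
        ((uGL k : GL ι ℂ) : Matrix ι ι ℂ) * X * (((uGL k)⁻¹ : GL ι ℂ) : Matrix ι ι ℂ) := by
      rw [_root_.mul_inv_rev, Units.val_mul, Units.val_mul]
      calc ((uGL k : GL ι ℂ) : Matrix ι ι ℂ) * (f : Matrix ι ι ℂ) * X *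
            (((f⁻¹ : GL ι ℂ) : Matrix ι ι ℂ) * (((uGL k)⁻¹ : GL ι ℂ) : Matrix ι ι ℂ)) =
          ((uGL k : GL ι ℂ) : Matrix ι ι ℂ) * (((f : Matrix ι ι ℂ) * X) *
            ((f⁻¹ : GL ι ℂ) : Matrix ι ι ℂ)) * (((uGL k)⁻¹ : GL ι ℂ) : Matrix ι ι ℂ) := by
            simp only [Matrix.mul_assoc]
        _ = _ := by
            rw [← hfc.1 X hX, Matrix.mul_assoc X, ← Units.val_mul, mul_inv_cancel, Units.val_one,
              Matrix.mul_one]
    rw [h2]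
    exact Gp_norm ha hk.1 hX
  have h2 := hstab m h1
  have h3 : ∀ C, Com m C → B * C = C * B := by
    intro C hC
    apply hcomm
    rw [hkf, Matrix.mul_assoc, hfX C hC, ← Matrix.mul_assoc, Gp_com hk.1 hC, Matrix.mul_assoc]
  obtain ⟨Y, hY, hBY⟩ := exists_split hm B h2 h3
  obtain ⟨Z, hZ, hZc, hZt⟩ := exists_central hm hY
  have hV : (B - Y) + Z ∈ cen m := (cen m).add_mem hBY hZc
  have h4 : ∀ e ∈ cen m, e * e = e → Matrix.trace (((B - Y) + Z) * e) = 0 := by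
    intro e he hee
    have h5 : eᴴ = e := cen_idem_herm hm he hee
    have hke : ((uGL k : GL ι ℂ) : Matrix ι ι ℂ) * e = e * ((uGL k : GL ι ℂ) : Matrix ι ι ℂ) :=
      Gp_comm_cen hk.1 he
    have hfe : (f : Matrix ι ι ℂ) * e = e * (f : Matrix ι ι ℂ) := hfX e he.1
    have h6 : ((uGL k * f : GL ι ℂ) : Matrix ι ι ℂ) * e =
        e * ((uGL k * f : GL ι ℂ) : Matrix ι ι ℂ) := by
      rw [hkf, Matrix.mul_assoc, hfe, ← Matrix.mul_assoc, hke, Matrix.mul_assoc]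
    have h7 : (((uGL k * f : GL ι ℂ) : Matrix ι ι ℂ) * e + (1 - e)).det = 1 := by
      have h8 := congrArg Matrix.det (bdet_mul (A := (k : Matrix ι ι ℂ)) (B := (f : Matrix ι ι ℂ)) hee hfe)
      rw [Matrix.det_mul, hk.2 e he hee, hdet e he hee, mul_one] at h8
      rw [hkf, coe_uGL]
      exact h8.symm
    have h9 := hdetB e hee h5 h6 h7
    have h10 := hZt e he
    have h11 : ((B - Y) + Z) * e = B * e - (Y - Z) * e := by
      rw [← Matrix.sub_mul]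
      congr 1
      abel
    rw [h11, Matrix.trace_sub, h9, h10, sub_zero]
  have h5 : (B - Y) + Z = 0 := cen_idem_ext hm hV h4
  have h6 : B ∈ m := by
    have h7 : B = Y - Z := by
      have h8 : B = ((B - Y) + Z) + (Y - Z) := by abel
      rw [h8, h5, zero_add]
    rw [h7]
    exact m.sub_mem hY hZ
  have h7 : uGL k * f ∈ Gp m := by
    rw [← hexp]
    exact expGL_mem (m.smul_mem _ h6) 1
  have h8 : f = (uGL k)⁻¹ * (uGL k * f) := by group
  rw [h8]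
  exact mul_mem (inv_mem hk.1) h7

end Pool.Agent.Work.MP_0da4e0_ag.Ex
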