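import Pool.Agent.Work.MP_0da4e0_ag.Fx.DetE
import Pool.Agent.Work.MP_0da4e0_ag.Fx.CenIdem

/-! MP_0da4e0_ag, exact Weil criterion, module KInv: tensors fixed by the compact group Kp m.

PROOF. For Hermitian A in m with trace (A * e) = 0 for all idempotents e of cen m and real s let
k = expGL (I • A) s = expGL A (I * s). It is unitary (expGL_star), in Gp m (expGL_mem), and for an
idempotent e of cen m, det (k e + (1 - e)) = exp (I s trace (A e)) = 1 (det_exp_idem; e commutes with A, e is
Hermitian by cen_idem_herm). So k is in Kp m, act k t = t for all real s; the derivative at s = 0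
(hasDerivAt_act_exp, restricted to real s) gives dact (I • A) t = 0, dact A t = 0. A general X in m with
trace (X e) = 0 for all e is A + I • B with A = (X + Xᴴ) / 2, B = (X - Xᴴ) / (2 I) Hermitian, in m, and
trace (Xᴴ e) = conj (trace (e X)) = 0, so trace (A e) = trace (B e) = 0. dact_add, dact_smul.
Second part: Z is Hermitian (cen_idem_real); k = expGL Z (2 π I) is unitary, in Gp m, and
det (k e + (1 - e)) = exp (2 π I trace (Z e)) = 1. So k is in Kp m. (To build the element of the unitary group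
from a matrix k with kᴴ k = 1 use Matrix.mem_unitaryGroup_iff'.) -/

open Matrix

namespace Pool.Agent.Work.MP_0da4e0_ag.Ex

variable {ι : Type} [Fintype ι] [DecidableEq ι]

private theorem fix_exp {m : Submodule ℂ (Matrix ι ι ℂ)} (hm : StarLie m) {p q : ℕ} {t : Tens ι p q ℂ}
    (ht : ∀ k ∈ Kp m, act (uGL k) t = t) {A : Matrix ι ι ℂ} (hA : Aᴴ = A) (hAm : A ∈ m) (s : ℝ)
    (hd : ∀ e ∈ cen m, e * e = e → Complex.exp (Complex.I * s * Matrix.trace (A * e)) = 1) :
    act (expGL A (Complex.I * s)) t = t := by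
  have h1 : ((expGL A (Complex.I * s) : GL ι ℂ) : Matrix ι ι ℂ)ᴴ = (((expGL A (Complex.I * s))⁻¹ : GL ι ℂ) :
      Matrix ι ι ℂ) := by
    rw [expGL_star, hA, expGL_neg_inv]
    congr 2
    rw [map_mul, Complex.conj_I, Complex.conj_ofReal, neg_mul]
  have h2 : ((expGL A (Complex.I * s) : GL ι ℂ) : Matrix ι ι ℂ) ∈ Matrix.unitaryGroup ι ℂ := by
    rw [Matrix.mem_unitaryGroup_iff']
    rw [Matrix.star_eq_conjTranspose, h1, ← Units.val_mul, inv_mul_cancel, Units.val_one]
  have h3 : uGL (⟨_, h2⟩ : Matrix.unitaryGroup ι ℂ) = expGL A (Complex.I * s) := by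
    apply Units.ext
    rw [coe_uGL]
  have h4 := ht ⟨_, h2⟩ ⟨by rw [h3]; exact expGL_mem hAm _, fun e he hee => by
    rw [det_exp_idem hA hee (cen_idem_herm hm he hee) (he.1 A hAm)]
    exact hd e he hee⟩
  rwa [h3] at h4

private theorem kill_herm {m : Submodule ℂ (Matrix ι ι ℂ)} (hm : StarLie m) {p q : ℕ} {t : Tens ι p q ℂ}
    (ht : ∀ k ∈ Kp m, act (uGL k) t = t) {A : Matrix ι ι ℂ} (hA : Aᴴ = A) (hAm : A ∈ m)
    (hd : ∀ e ∈ cen m, e * e = e → Matrix.trace (A * e) = 0) : dact A t = 0 := by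
  have h1 : ∀ s : ℝ, act (expGL A (Complex.I * s)) t = t := fun s => fix_exp hm ht hA hAm s
    (fun e he hee => by rw [hd e he hee, mul_zero, Complex.exp_zero])
  funext e
  have h2 : HasDerivAt (fun s : ℝ => Complex.I * (s : ℂ)) (Complex.I * 1) (0 : ℝ) :=
    (HasDerivAt.ofReal_comp (hasDerivAt_id (0 : ℝ))).const_mul Complex.I
  have h3 := hasDerivAt_act_exp A t e
  have h4 : HasDerivAt (fun s : ℂ => act (expGL A s) t e) (dact A t e) (Complex.I * ((0 : ℝ) : ℂ)) := by
    simpa using h3
  have h5 := HasDerivAt.comp (𝕜' := ℂ) (0 : ℝ) h4 h2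
  have h6 : ((fun s : ℂ => act (expGL A s) t e) ∘ fun s : ℝ => Complex.I * (s : ℂ)) = fun _ => t e := by
    funext s
    simp only [Function.comp_apply]
    rw [h1 s]
  rw [h6] at h5
  have h7 := h5.unique (hasDerivAt_const _ _)
  have h8 : dact A t e = 0 := by
    rcases mul_eq_zero.1 h7 with h | h
    · exact h
    · simp at h
  rw [h8]
  rfl

theorem kp_inv {m : Submodule ℂ (Matrix ι ι ℂ)} (hm : StarLie m) {p q : ℕ} {t : Tens ι p q ℂ}
    (ht : ∀ k ∈ Kp m, act (uGL k) t = t) : Inv1 m t := by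
  constructor
  · intro X hX hd
    have hs := hm.st X hX
    have htr : ∀ e ∈ cen m, e * e = e → Matrix.trace (Xᴴ * e) = 0 := by
      intro e he hee
      have h1 : Xᴴ * e = (e * X)ᴴ := by
        rw [Matrix.conjTranspose_mul, cen_idem_herm hm he hee]
      rw [h1, Matrix.trace_conjTranspose, Matrix.trace_mul_comm, hd e he hee, star_zero]
    have hA1 : (X + Xᴴ)ᴴ = X + Xᴴ := by
      rw [Matrix.conjTranspose_add, Matrix.conjTranspose_conjTranspose, add_comm]
    have hB1 : (Complex.I • (X - Xᴴ))ᴴ = Complex.I • (X - Xᴴ) := by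
      rw [Matrix.conjTranspose_smul, Matrix.conjTranspose_sub, Matrix.conjTranspose_conjTranspose,
        Complex.star_def, Complex.conj_I, neg_smul, ← smul_neg, neg_sub]
    have hA := kill_herm hm ht hA1 (m.add_mem hX hs) (fun e he hee => by
      rw [Matrix.add_mul, Matrix.trace_add, hd e he hee, htr e he hee, add_zero])
    have hB := kill_herm hm ht hB1 (m.smul_mem _ (m.sub_mem hX hs)) (fun e he hee => by
      rw [Matrix.smul_mul, Matrix.trace_smul, Matrix.sub_mul, Matrix.trace_sub, hd e he hee, htr e he hee,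
        sub_zero, smul_zero])
    rw [dact_smul] at hB
    have hB' : dact (X - Xᴴ) t = 0 := by
      have := congrArg (fun v => (-Complex.I) • v) hB
      simpa [smul_smul] using this
    have h2 : (2 : ℂ) • X = (X + Xᴴ) + (X - Xᴴ) := by
      rw [two_smul]
      abel
    have h3 : (2 : ℂ) • dact X t = 0 := by
      rw [← dact_smul, h2, dact_add, hA, hB', add_zero]
    exact (smul_eq_zero.1 h3).resolve_left two_ne_zero
  · intro Z hZ hZc hd
    have hH := cen_idem_real hm hZc hd
    have h1 := fix_exp hm ht hH hZ (2 * Real.pi) (fun e he hee => by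
      obtain ⟨z, hz⟩ := hd e he hee
      rw [hz, Complex.exp_eq_one_iff]
      refine ⟨z, ?_⟩
      push_cast
      ring)
    have h2 : (2 : ℂ) * Real.pi * Complex.I = Complex.I * ((2 * Real.pi : ℝ) : ℂ) := by
      push_cast
      ring
    rw [h2]
    exact h1

end Pool.Agent.Work.MP_0da4e0_ag.Ex
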