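import Pool.Agent.Work.MP_0da4e0_ag.Fx.Defs

/-! MP_0da4e0_ag, exact Weil criterion, module KpClosed: the group Kp m is closed.

PROOF. The set is the intersection of the sets {k | act (uGL k) t e = t e} over all killed tensors t and indices
e, and the sets {k | det (k * e + (1 - e)) = 1} over all idempotents e of cen m. The functions
k ↦ act (uGL k) t e (a finite sum of products of entries of k and of entries of kᴴ, see act and uGL_inv) and
k ↦ det (k * e + (1 - e)) are continuous (continuous_subtype_val, Continuous.matrix_elem, Continuous.matrix_det,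
continuous_finset_sum, continuous_finset_prod), so each set is closed (isClosed_eq), and so is the
intersection (isClosed_iInter or isClosed_setOf forms). -/

open Matrix

namespace Pool.Agent.Work.MP_0da4e0_ag.Ex

variable {ι : Type} [Fintype ι] [DecidableEq ι]

theorem kp_closed (m : Submodule ℂ (Matrix ι ι ℂ)) :
    IsClosed (Kp m : Set (Matrix.unitaryGroup ι ℂ)) := by
  have hc : Continuous fun k : Matrix.unitaryGroup ι ℂ => (k : Matrix ι ι ℂ) :=
    continuous_subtype_val
  have hcs : Continuous fun k : Matrix.unitaryGroup ι ℂ => (k : Matrix ι ι ℂ)ᴴ :=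
    hc.matrix_conjTranspose
  have h1 : ∀ (a b : ℕ) (t : Tens ι a b ℂ) (e : (Fin a → ι) × (Fin b → ι)),
      Continuous fun k : Matrix.unitaryGroup ι ℂ => act (uGL k) t e := by
    intro a b t e
    unfold act
    refine continuous_finset_sum _ fun f _ => ?_
    refine Continuous.mul (Continuous.mul ?_ ?_) continuous_const
    · exact continuous_finset_prod _ fun j _ => hc.matrix_elem _ _
    · exact continuous_finset_prod _ fun j _ => hcs.matrix_elem _ _
  have h2 : ∀ e : Matrix ι ι ℂ,
      Continuous fun k : Matrix.unitaryGroup ι ℂ => ((k : Matrix ι ι ℂ) * e + (1 - e)).det :=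
    fun e => ((hc.matrix_mul continuous_const).add continuous_const).matrix_det
  have e : (Kp m : Set (Matrix.unitaryGroup ι ℂ)) =
      (⋂ (a : ℕ) (b : ℕ) (t : Tens ι a b ℂ) (_ : Killed m t) (e : (Fin a → ι) × (Fin b → ι)),
        {k | act (uGL k) t e = t e}) ∩
      ⋂ (e : Matrix ι ι ℂ) (_ : e ∈ cen m) (_ : e * e = e),
        {k : Matrix.unitaryGroup ι ℂ | ((k : Matrix ι ι ℂ) * e + (1 - e)).det = 1} := by
    ext k
    simp only [Set.mem_inter_iff, Set.mem_iInter, Set.mem_ofPred_eq]
    constructor
    · rintro ⟨g1, g2⟩
      exact ⟨fun a b t ht e => congrFun (g1 a b t ht) e, g2⟩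
    · rintro ⟨g1, g2⟩
      exact ⟨fun a b t ht => funext fun e => g1 a b t ht e, g2⟩
  rw [e]
  refine IsClosed.inter ?_ ?_
  · exact isClosed_iInter fun a => isClosed_iInter fun b => isClosed_iInter fun t =>
      isClosed_iInter fun _ => isClosed_iInter fun e => isClosed_eq (h1 a b t e) continuous_const
  · exact isClosed_iInter fun e => isClosed_iInter fun _ => isClosed_iInter fun _ =>
      isClosed_eq (h2 e) continuous_const

end Pool.Agent.Work.MP_0da4e0_ag.Ex
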