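import Pool.Agent.Work.MP_0da4e0_ag.Fx.ExNear
import Pool.Agent.Work.MP_0da4e0_ag.Fx.KpClosed
import Pool.Agent.Work.MP_0da4e0_ag.Fx.KInv
import Pool.Agent.Work.MP_0da4e0_ag.Fx.Gap

/-! MP_0da4e0_ag, exact Weil criterion, module SmallInv: a central matrix of finite order which fixes the small
tensors invariant under Kp m is in Gp m.

PROOF. Q is Hermitian (cen_idem_real). f = expGL Q (2 π I) is unitary (expGL_star) and in cen m: it commutes with
everything that commutes with Q (expGL_commute). For an idempotent e of cen m (Hermitian, commuting with Q),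
det (f e + (1 - e)) = exp (2 π I trace (Q e)) = 1 (det_exp_idem). exists_near for K = Kp m (kp_closed), hfix via
kp_inv (f commutes with uGL k: Gp_comm_cen); gap. -/

open Matrix

namespace Pool.Agent.Work.MP_0da4e0_ag.Ex

variable {ι : Type} [Fintype ι] [DecidableEq ι]

theorem small_inv {m : Submodule ℂ (Matrix ι ι ℂ)} (hm : StarLie m) (ha : Algebraic m)
    (hn : 1 ≤ Fintype.card ι) {Q : Matrix ι ι ℂ} (hQ : Q ∈ cen m)
    (hQi : ∀ e ∈ cen m, e * e = e → ∃ z : ℤ, Matrix.trace (Q * e) = z)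
    (hfix : ∀ p q : ℕ, p ≤ 16 * Fintype.card ι ^ 6 → q ≤ 16 * Fintype.card ι ^ 6 →
      ∀ t : Tens ι p q ℂ, Inv1 m t → act (expGL Q (2 * Real.pi * Complex.I)) t = t) :
    expGL Q (2 * Real.pi * Complex.I) ∈ Gp m := by
  have hQH := cen_idem_real hm hQ hQi
  have hs : (starRingEnd ℂ) (2 * Real.pi * Complex.I) = -(2 * Real.pi * Complex.I) := by
    rw [map_mul, map_mul, Complex.conj_I, Complex.conj_ofReal, map_ofNat]
    ring
  have hf : (expGL Q (2 * Real.pi * Complex.I) : Matrix ι ι ℂ)ᴴ *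
      (expGL Q (2 * Real.pi * Complex.I) : Matrix ι ι ℂ) = 1 := by
    have h1 : (expGL Q (2 * Real.pi * Complex.I) : Matrix ι ι ℂ)ᴴ =
        ((expGL Q (2 * Real.pi * Complex.I))⁻¹ : GL ι ℂ) := by
      rw [expGL_star, hQH, hs]
      change NormedSpace.exp (-(2 * Real.pi * Complex.I : ℂ) • Q) =
        NormedSpace.exp ((2 * Real.pi * Complex.I : ℂ) • (-Q))
      rw [neg_smul, smul_neg]
    rw [h1]
    exact Units.inv_mul _
  have hcen : (expGL Q (2 * Real.pi * Complex.I) : Matrix ι ι ℂ) ∈ cen m := by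
    refine ⟨fun X hX => ?_, fun C hC => ?_⟩
    · first
        | exact expGL_commute (hQ.1 X hX) _
        | exact (expGL_commute (hQ.1 X hX).symm _).symm
    · exact (expGL_commute (hQ.2 C hC).symm _).symm
  have hdet : ∀ e ∈ cen m, e * e = e →
      ((expGL Q (2 * Real.pi * Complex.I) : Matrix ι ι ℂ) * e + (1 - e)).det = 1 := by
    intro e he hee
    obtain ⟨z, hz⟩ := hQi e he hee
    rw [det_exp_idem hQH hee (cen_idem_herm hm he hee) (he.2 Q hQ.1), hz, mul_comm]
    exact Complex.exp_int_mul_two_pi_mul_I z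
  obtain ⟨k, hk, hle⟩ := exists_near (Kp m) (kp_closed m) hn
    (expGL Q (2 * Real.pi * Complex.I)) hf
    (fun k hk => Units.ext (Gp_comm_cen hk.1 hcen).symm)
    (fun p q hp hq t ht => hfix p q hp hq t (kp_inv hm ht))
  exact gap hm ha hn _ hcen hf hdet k hk hle

end Pool.Agent.Work.MP_0da4e0_ag.Ex
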