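import Pool.Agent.Work.MP_0da4e0_ag.Ex.CjLem
import Pool.Agent.Work.MP_0da4e0_ag.Fx.SmallInv

/-! MP_0da4e0_ag, exact Weil criterion, module CjInv: change of coordinates.

PROOFS.
(cj_inv1) X' in cj U m iff X = U X' U⁻¹ in m; e' in cen (cj U m) iff e = U e' U⁻¹ in cen m (cj_cen);
trace (X' e') = trace (X e); e' e' = e' iff e e = e. dact X' t = 0 iff dact X (act U t) = act U (dact X' t) = 0
(act_dact, act_injective). expGL (U Z' U⁻¹) s = U (expGL Z' s) U⁻¹ (expGL_conj), so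
act (expGL Z' s) t = t iff act (expGL Z s) (act U t) = act U t (act_mul). Only the direction from left to right
is needed.
(small_inv_cj) m' = cj P m is Algebraic (cj_algebraic). Q' = P⁻¹ Q P is in cen m', with integral traces against
idempotents. For t' with Inv1 m' t': Inv1 m (act P t'), so hfix gives
act (expGL Q (2 π I)) (act P t') = act P t', i.e. act (expGL Q' (2 π I)) t' = t'. small_inv:
expGL Q' (2 π I) in Gp m', and cj_Gp: P (expGL Q' (2 π I)) P⁻¹ = expGL Q (2 π I) is in Gp m. -/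

open Matrix

namespace Pool.Agent.Work.MP_0da4e0_ag.Ex

variable {ι : Type} [Fintype ι] [DecidableEq ι]

private theorem ui (U : GL ι ℂ) : (U : Matrix ι ι ℂ) * ((U⁻¹ : GL ι ℂ) : Matrix ι ι ℂ) = 1 := by
  rw [← Units.val_mul, mul_inv_cancel, Units.val_one]

private theorem iu (U : GL ι ℂ) : ((U⁻¹ : GL ι ℂ) : Matrix ι ι ℂ) * (U : Matrix ι ι ℂ) = 1 := by
  rw [← Units.val_mul, inv_mul_cancel, Units.val_one]

/-- conjugation -/
private noncomputable def cn (U : GL ι ℂ) (X : Matrix ι ι ℂ) : Matrix ι ι ℂ :=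
  (U : Matrix ι ι ℂ) * X * ((U⁻¹ : GL ι ℂ) : Matrix ι ι ℂ)

private theorem cn_mul (U : GL ι ℂ) (X Y : Matrix ι ι ℂ) : cn U (X * Y) = cn U X * cn U Y := by
  rw [cn, cn, cn]
  calc (U : Matrix ι ι ℂ) * (X * Y) * ((U⁻¹ : GL ι ℂ) : Matrix ι ι ℂ)
      = (U : Matrix ι ι ℂ) * X * 1 * Y * ((U⁻¹ : GL ι ℂ) : Matrix ι ι ℂ) := by
        simp only [Matrix.mul_assoc, Matrix.one_mul]
    _ = _ := by
        rw [← iu U]
        simp only [Matrix.mul_assoc]

private theorem cn_inv (U : GL ι ℂ) (X : Matrix ι ι ℂ) : cn U (cn U⁻¹ X) = X := by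
  rw [cn, cn, inv_inv]
  calc (U : Matrix ι ι ℂ) * (((U⁻¹ : GL ι ℂ) : Matrix ι ι ℂ) * X * (U : Matrix ι ι ℂ)) *
        ((U⁻¹ : GL ι ℂ) : Matrix ι ι ℂ)
      = ((U : Matrix ι ι ℂ) * ((U⁻¹ : GL ι ℂ) : Matrix ι ι ℂ)) * X *
          ((U : Matrix ι ι ℂ) * ((U⁻¹ : GL ι ℂ) : Matrix ι ι ℂ)) := by
        simp only [Matrix.mul_assoc]
    _ = X := by rw [ui, Matrix.one_mul, Matrix.mul_one]

private theorem cn_trace (U : GL ι ℂ) (X : Matrix ι ι ℂ) : Matrix.trace (cn U X) = Matrix.trace X := by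
  rw [cn, Matrix.trace_mul_comm, ← Matrix.mul_assoc, iu, Matrix.one_mul]

private theorem trace_cn (U : GL ι ℂ) (X e : Matrix ι ι ℂ) :
    Matrix.trace (cn U⁻¹ X * e) = Matrix.trace (X * cn U e) := by
  rw [← cn_trace U (cn U⁻¹ X * e), cn_mul, cn_inv]

private theorem expGL_cn (U : GL ι ℂ) (X : Matrix ι ι ℂ) (s : ℂ) :
    expGL (cn U X) s = U * expGL X s * U⁻¹ := expGL_conj U X s

private theorem act_zero' (g : GL ι ℂ) {a b : ℕ} : act g (0 : Tens ι a b ℂ) = 0 := by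
  rw [act_eq, Matrix.mulVec_zero]

theorem cj_inv1 {m : Submodule ℂ (Matrix ι ι ℂ)} {U : GL ι ℂ} {p q : ℕ} {t : Tens ι p q ℂ}
    (h : Inv1 (cj U m) t) : Inv1 m (act U t) := by
  constructor
  · intro X hX hXe
    have h1 : cn U⁻¹ X ∈ cj U m := by
      change cn U (cn U⁻¹ X) ∈ m
      rw [cn_inv]
      exact hX
    have h2 : dact (cn U⁻¹ X) t = 0 := by
      refine h.1 _ h1 ?_
      intro e he hee
      rw [trace_cn]
      refine hXe _ (cj_cen.1 he) ?_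
      rw [← cn_mul, hee]
    have h3 : act U (dact (cn U⁻¹ X) t) = dact (cn U (cn U⁻¹ X)) (act U t) := act_dact U _ t
    rw [h2, act_zero', cn_inv] at h3
    exact h3.symm
  · intro Z hZ hZc hZe
    have h1 : cn U⁻¹ Z ∈ cj U m := by
      change cn U (cn U⁻¹ Z) ∈ m
      rw [cn_inv]
      exact hZ
    have h1' : cn U⁻¹ Z ∈ cen (cj U m) := by
      rw [cj_cen]
      change cn U (cn U⁻¹ Z) ∈ cen m
      rw [cn_inv]
      exact hZc
    have h2 : act (expGL (cn U⁻¹ Z) (2 * Real.pi * Complex.I)) t = t := by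
      refine h.2 _ h1 h1' ?_
      intro e he hee
      rw [trace_cn]
      refine hZe _ (cj_cen.1 he) ?_
      rw [← cn_mul, hee]
    have h3 : expGL Z (2 * Real.pi * Complex.I) =
        U * expGL (cn U⁻¹ Z) (2 * Real.pi * Complex.I) * U⁻¹ := by
      rw [← expGL_cn, cn_inv]
    rw [h3, act_mul, act_mul, act_inv_act, h2]

theorem small_inv_cj {m : Submodule ℂ (Matrix ι ι ℂ)} {P : GL ι ℂ} (hP : StarLie (cj P m))
    (ha : Algebraic m) (hn : 1 ≤ Fintype.card ι) {Q : Matrix ι ι ℂ} (hQ : Q ∈ cen m)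
    (hQi : ∀ e ∈ cen m, e * e = e → ∃ z : ℤ, Matrix.trace (Q * e) = z)
    (hfix : ∀ p q : ℕ, p ≤ 16 * Fintype.card ι ^ 6 → q ≤ 16 * Fintype.card ι ^ 6 →
      ∀ t : Tens ι p q ℂ, Inv1 m t → act (expGL Q (2 * Real.pi * Complex.I)) t = t) :
    expGL Q (2 * Real.pi * Complex.I) ∈ Gp m := by
  have hE : expGL (cn P⁻¹ Q) (2 * Real.pi * Complex.I) =
      P⁻¹ * expGL Q (2 * Real.pi * Complex.I) * P := by
    rw [expGL_cn, inv_inv]
  have h1 : cn P⁻¹ Q ∈ cen (cj P m) := by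
    rw [cj_cen]
    change cn P (cn P⁻¹ Q) ∈ cen m
    rw [cn_inv]
    exact hQ
  have h2 := small_inv hP (cj_algebraic ha P) hn h1 (by
    intro e he hee
    rw [trace_cn]
    refine hQi _ (cj_cen.1 he) ?_
    change cn P e * cn P e = cn P e
    rw [← cn_mul, hee]) (by
    intro p q hp hq t ht
    have h3 := hfix p q hp hq _ (cj_inv1 ht)
    rw [hE, act_mul, act_mul, h3, act_inv_act])
  have h3 := cj_Gp.1 h2
  rw [hE] at h3
  have h4 : P * (P⁻¹ * expGL Q (2 * Real.pi * Complex.I) * P) * P⁻¹ =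
      expGL Q (2 * Real.pi * Complex.I) := by group
  rwa [h4] at h3

end Pool.Agent.Work.MP_0da4e0_ag.Ex
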