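import Pool.Agent.Work.MP_0da4e0_ag.Fx.Defs2
import Pool.Agent.Work.MP_0da4e0_ag.Ex.DiagAct

/-! MP_0da4e0_ag, exact Weil criterion, module EigVal: the eigenvalues of the center on tensors.

PROOFS.
(eig_frame) For Cen h Z, Z * U = U * diagonal (κ Z) (d.spec), so U⁻¹ Z U = diagonal (κ Z) and for every tensor s,
act U⁻¹ (dact Z s) = dact (diagonal (κ Z)) (act U⁻¹ s) (act_dact), and dact_diagonal computes this. So the matrix
dmat p q Z satisfies dmat p q Z * actMat U = actMat U * diagonal (fun e => ∑ j, κ Z (e.1 j) - ∑ j, κ Z (e.2 j)).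
The matrix actMat U is invertible with inverse actMat U⁻¹ (actMat_mul, actMat_one): this is the required W.
(eig_val) s' = act U⁻¹ s ≠ 0; choose e with s' e ≠ 0. For Cen h Z with dact Z s = c • s: c * s' e =
(∑ j, κ Z (e.1 j) - ∑ j, κ Z (e.2 j)) * s' e. trace (Z * d.q i) = κ Z i * N i, N i = number of j with d.rel j i ≥ 1
(trace_mul_q; V Z U = diagonal (κ Z), κ Z j = κ Z i for d.rel j i). Let
r i = (number of j with e.1 j = i - number of j with e.2 j = i) / N i. ∑ |r i| ≤ p + q. -/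

open Matrix

namespace Pool.Agent.Work.MP_0da4e0_ag.Ex

variable {ι : Type} [Fintype ι] [DecidableEq ι]

private theorem eq_conj {h : HodgeStr ι} (d : Diag h) {Z : Matrix ι ι ℂ} (hZ : Cen h Z) :
    (d.U : Matrix ι ι ℂ) * Matrix.diagonal (d.κ Z) * ((d.U⁻¹ : GL ι ℂ) : Matrix ι ι ℂ) = Z := by
  rw [← d.spec Z hZ, Matrix.mul_assoc, ← Units.val_mul, mul_inv_cancel, Units.val_one,
    Matrix.mul_one]

private theorem dact_frame {h : HodgeStr ι} (d : Diag h) {p q : ℕ} {Z : Matrix ι ι ℂ} (hZ : Cen h Z)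
    (w : Tens ι p q ℂ) :
    dact Z (act d.U w) = act d.U (fun e => ((∑ j, d.κ Z (e.1 j)) - ∑ j, d.κ Z (e.2 j)) * w e) := by
  have h1 := act_dact d.U (Matrix.diagonal (d.κ Z)) w
  rw [eq_conj d hZ] at h1
  rw [← h1]
  congr 1
  funext e
  exact dact_diagonal _ _ _

theorem eig_frame {h : HodgeStr ι} (d : Diag h) (p q : ℕ) :
    ∃ W : GL ((Fin p → ι) × (Fin q → ι)) ℂ, ∀ Z, Cen h Z → ∃ c : ((Fin p → ι) × (Fin q → ι)) → ℂ,
      dmat p q Z * (W : Matrix ((Fin p → ι) × (Fin q → ι)) ((Fin p → ι) × (Fin q → ι)) ℂ) =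
        (W : Matrix ((Fin p → ι) × (Fin q → ι)) ((Fin p → ι) × (Fin q → ι)) ℂ) * Matrix.diagonal c := by
  refine ⟨⟨actMat d.U, actMat d.U⁻¹, by rw [← actMat_mul, mul_inv_cancel, actMat_one],
    by rw [← actMat_mul, inv_mul_cancel, actMat_one]⟩, fun Z hZ =>
      ⟨fun e => (∑ j, d.κ Z (e.1 j)) - ∑ j, d.κ Z (e.2 j), ?_⟩⟩
  change dmat p q Z * actMat d.U = actMat d.U * _
  apply Matrix.toLin'.injective
  apply LinearMap.ext
  intro w
  rw [Matrix.toLin'_apply, Matrix.toLin'_apply, ← Matrix.mulVec_mulVec, ← Matrix.mulVec_mulVec]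
  have h1 := dact_frame d hZ w
  rw [act_eq, act_eq] at h1
  refine h1.trans ?_
  congr 1
  funext e
  rw [Matrix.mulVec_diagonal]

private theorem sum_fib {p : ℕ} (u : Fin p → ι) (f : ι → ℂ) :
    ∑ i, ((Finset.univ.filter (fun j => u j = i)).card : ℂ) * f i = ∑ j, f (u j) := by
  rw [← Finset.sum_fiberwise Finset.univ u (fun j => f (u j))]
  refine Finset.sum_congr rfl fun i _ => ?_
  rw [← nsmul_eq_mul, ← Finset.sum_const]
  refine Finset.sum_congr rfl fun j hj => ?_
  rw [(Finset.mem_filter.1 hj).2]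

private theorem sum_fib_real {p : ℕ} (u : Fin p → ι) :
    ∑ i, ((Finset.univ.filter (fun j => u j = i)).card : ℝ) = p := by
  have h1 := sum_fib u (fun _ => 1)
  simp only [mul_one, Finset.sum_const, Finset.card_univ, Fintype.card_fin, nsmul_eq_mul] at h1
  exact_mod_cast h1

theorem eig_val {h : HodgeStr ι} (d : Diag h) {p q : ℕ} {s : Tens ι p q ℂ} (hs : s ≠ 0)
    (he : ∀ Z, Cen h Z → ∃ c : ℂ, dact Z s = c • s) :
    ∃ r : ι → ℝ, ∑ i, |r i| ≤ p + q ∧
      ∀ Z, Cen h Z → dact Z s = (∑ i, (r i : ℂ) * Matrix.trace (Z * d.q i)) • s := by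
  classical
  obtain ⟨s', hs'⟩ : ∃ s' : Tens ι p q ℂ, act d.U s' = s := ⟨act d.U⁻¹ s, act_act_inv _ _⟩
  have hne : s' ≠ 0 := by
    rintro rfl
    apply hs
    rw [← hs', act_eq, Matrix.mulVec_zero]
  obtain ⟨e, hee⟩ := Function.ne_iff.1 hne
  have hinj : ∀ a b : Tens ι p q ℂ, act d.U a = act d.U b → a = b := by
    intro a b hab
    have := congrArg (act d.U⁻¹) hab
    rwa [act_inv_act, act_inv_act] at this
  have hN : ∀ i, 0 < (Finset.univ.filter (fun j => d.rel j i)).card := fun i =>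
    Finset.card_pos.2 ⟨i, Finset.mem_filter.2 ⟨Finset.mem_univ i, d.rel_refl i⟩⟩
  refine ⟨fun i => (((Finset.univ.filter (fun j => e.1 j = i)).card : ℝ) -
    ((Finset.univ.filter (fun j => e.2 j = i)).card : ℝ)) /
      ((Finset.univ.filter (fun j => d.rel j i)).card : ℝ), ?_, ?_⟩
  · calc ∑ i, |(((Finset.univ.filter (fun j => e.1 j = i)).card : ℝ) -
          ((Finset.univ.filter (fun j => e.2 j = i)).card : ℝ)) /
            ((Finset.univ.filter (fun j => d.rel j i)).card : ℝ)|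
        ≤ ∑ i, (((Finset.univ.filter (fun j => e.1 j = i)).card : ℝ) +
          ((Finset.univ.filter (fun j => e.2 j = i)).card : ℝ)) := by
          refine Finset.sum_le_sum fun i _ => ?_
          have h1 : (1 : ℝ) ≤ ((Finset.univ.filter (fun j => d.rel j i)).card : ℝ) := by
            exact_mod_cast hN i
          rw [abs_div, abs_of_pos (lt_of_lt_of_le one_pos h1)]
          refine (div_le_self (abs_nonneg _) h1).trans ?_
          refine (abs_sub _ _).trans ?_
          rw [abs_of_nonneg (Nat.cast_nonneg _), abs_of_nonneg (Nat.cast_nonneg _)]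
      _ = p + q := by rw [Finset.sum_add_distrib, sum_fib_real, sum_fib_real]
  · intro Z hZ
    obtain ⟨c, hc⟩ := he Z hZ
    have h1 : (∑ j, d.κ Z (e.1 j)) - ∑ j, d.κ Z (e.2 j) = c := by
      have h2 := dact_frame d hZ s'
      rw [hs', hc, ← hs', ← act_smul] at h2
      have h3 := congrFun (hinj _ _ h2) e
      rw [Pi.smul_apply, smul_eq_mul] at h3
      exact (mul_right_cancel₀ hee h3).symm
    have h4 : ∀ i, Matrix.trace (Z * d.q i) =
        ((Finset.univ.filter (fun j => d.rel j i)).card : ℂ) * d.κ Z i := by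
      intro i
      rw [d.trace_mul_q, ← Finset.sum_filter]
      have h5 : d.V * Z * (d.U : Matrix ι ι ℂ) = Matrix.diagonal (d.κ Z) := by
        rw [Matrix.mul_assoc, d.spec Z hZ, ← Matrix.mul_assoc, d.VU, Matrix.one_mul]
      rw [h5, ← nsmul_eq_mul, ← Finset.sum_const]
      refine Finset.sum_congr (by congr) fun j hj => ?_
      rw [Matrix.diagonal_apply_eq]
      exact (Finset.mem_filter.1 hj).2 Z hZ
    rw [hc, ← h1]
    congr 1
    rw [← sum_fib e.1 (d.κ Z), ← sum_fib e.2 (d.κ Z), ← Finset.sum_sub_distrib]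
    refine Finset.sum_congr rfl fun i _ => ?_
    rw [h4]
    have h6 : ((Finset.univ.filter (fun j => d.rel j i)).card : ℂ) ≠ 0 :=
      Nat.cast_ne_zero.2 (hN i).ne'
    push_cast
    field_simp

end Pool.Agent.Work.MP_0da4e0_ag.Ex
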