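import Pool.Agent.Work.MP_0da4e0_ag.Fx.CenRel
import Pool.Agent.Work.MP_0da4e0_ag.Fx.ActEig

/-! MP_0da4e0_ag, exact Weil criterion, module InvLie: the Lie algebra acts on an Inv1 eigentensor by an integral
character.

PROOFS. mt_decomp hS hX: Z in mtLieC h, Cen h Z, trace (Z * W) = trace (X * W) for all W with Cen h W.
(inv_lie) X - Z is in mtLieC h, and trace ((X - Z) * e) = 0 for e in cen (mtLieC h) (cen_iff), so
dact (X - Z) s = 0 (hs.1), dact X s = dact Z s (dact_sub) = (∑ r i * trace (Z * d.q i)) • s, and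
trace (Z * d.q i) = trace (X * d.q i) (d.q_cen i).
(inv_int) trace (Z * d.q i) = v i, so by idem_int and hs.2, act (expGL Z (2 π I)) s = s. dact Z s = c • s with
c = ∑ r i * v i, so act_eig gives exp (2 π I * c) • s = s, exp (2 π I * c) = 1 (s ≠ 0), c is an integer
(Complex.exp_eq_one_iff). -/

open Matrix

namespace Pool.Agent.Work.MP_0da4e0_ag.Ex

variable {ι : Type} [Fintype ι] [DecidableEq ι]

theorem inv_lie {h : HodgeStr ι} {S : Matrix ι ι ℚ} (hS : Polarizes h S) (d : Diag h) {p q : ℕ}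
    {s : Tens ι p q ℂ} (hs : Inv1 (mtLieC h) s) {r : ι → ℝ}
    (hr : ∀ Z, Cen h Z → dact Z s = (∑ i, (r i : ℂ) * Matrix.trace (Z * d.q i)) • s) :
    ∀ X ∈ mtLieC h, dact X s = (∑ i, (r i : ℂ) * Matrix.trace (X * d.q i)) • s := by
  intro X hX
  obtain ⟨Z, hZ, hZc, hZt⟩ := mt_decomp hS hX
  have h1 : dact (X - Z) s = 0 := by
    refine hs.1 (X - Z) (Submodule.sub_mem _ hX hZ) (fun e he _ => ?_)
    rw [Matrix.sub_mul, Matrix.trace_sub, hZt e (cen_iff.2 he), sub_self]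
  rw [dact_sub, sub_eq_zero] at h1
  rw [h1, hr Z hZc]
  congr 1
  exact Finset.sum_congr rfl (fun i _ => by rw [hZt _ (d.q_cen i)])

theorem inv_int {h : HodgeStr ι} {S : Matrix ι ι ℚ} (hS : Polarizes h S) (d : Diag h) {p q : ℕ}
    {s : Tens ι p q ℂ} (hs : Inv1 (mtLieC h) s) (hs0 : s ≠ 0) {r : ι → ℝ}
    (hr : ∀ Z, Cen h Z → dact Z s = (∑ i, (r i : ℂ) * Matrix.trace (Z * d.q i)) • s)
    {X : Matrix ι ι ℂ} (hX : X ∈ mtLieC h) (v : ι → ℤ)
    (hv : ∀ i, Matrix.trace (X * d.q i) = ((v i : ℤ) : ℂ)) :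
    ∃ z : ℤ, ∑ i, (r i : ℂ) * ((v i : ℤ) : ℂ) = z := by
  obtain ⟨Z, hZ, hZc, hZt⟩ := mt_decomp hS hX
  have hq : ∀ i, Matrix.trace (Z * d.q i) = ((v i : ℤ) : ℂ) := fun i => by
    rw [hZt _ (d.q_cen i), hv i]
  have h1 := hs.2 Z hZ (cen_iff.1 hZc) (idem_int d (fun i => ⟨v i, hq i⟩))
  have h2 : dact Z s = (∑ i, (r i : ℂ) * ((v i : ℤ) : ℂ)) • s := by
    rw [hr Z hZc]
    congr 1
    exact Finset.sum_congr rfl (fun i _ => by rw [hq i])
  rw [act_eig h2] at h1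
  have h3 : Complex.exp (2 * Real.pi * Complex.I * ∑ i, (r i : ℂ) * ((v i : ℤ) : ℂ)) = 1 := by
    obtain ⟨e, he⟩ : ∃ e, s e ≠ 0 := by
      by_contra hcon
      push Not at hcon
      exact hs0 (funext hcon)
    have h4 := congrFun h1 e
    rw [Pi.smul_apply, smul_eq_mul] at h4
    exact mul_right_cancel₀ he (by rw [h4, one_mul])
  obtain ⟨n, hn⟩ := Complex.exp_eq_one_iff.1 h3
  refine ⟨n, ?_⟩
  have h5 : (2 * Real.pi * Complex.I : ℂ) ≠ 0 := Complex.two_pi_I_ne_zero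
  apply mul_left_cancel₀ h5
  rw [hn]
  ring

end Pool.Agent.Work.MP_0da4e0_ag.Ex
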