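import Pool.Agent.Work.MP_0da4e0_ag.Fx.Defs2

/-! MP_0da4e0_ag, exact Weil criterion, module MixSpan: complex tensors killed by the Lie algebra all of whose
slices are killed by the commutators are combinations of Hodge tensors with Weil slices.

PROOF. As mem_span_weil in WeilMain.lean: mem_span_ker (LieHodge) for the rational matrix whose rows are
(i) for X in mtLie h and an index e: the row e of dmat (p + a) (q + b) X (t is killed by cx X, cx_mem);
(ii) for A, B commuting with all Hodge endomorphisms, u : Fin p → ι, v : Fin q → ι and an index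
e of bidegree (a, b): the functional x ↦ dact (A * B - B * A) (slice of x at u, v) e =
∑ f, dmat a b (A * B - B * A) e f * x (Fin.append u f.1, Fin.append v f.2), as a row vector on the indices g of
bidegree (p + a, q + b): the sum over f with (Fin.append u f.1, Fin.append v f.2) = g of dmat a b (..) e f.
t satisfies the complexified equations by ht and hsl. The rational solutions are Hodge tensors (isHodge_of_lie)
with WeilSlices. -/

open Matrix

namespace Pool.Agent.Work.MP_0da4e0_ag.Ex

variable {ι : Type} [Fintype ι] [DecidableEq ι]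

omit [Fintype ι] in
private theorem cast_dmat (a b : ℕ) (X : Matrix ι ι ℚ) (e f : (Fin a → ι) × (Fin b → ι)) :
    ((dmat a b X e f : ℚ) : ℂ) = dmat a b (cx X) e f := by
  have h3 : ∀ i j, (Rat.castHom ℂ) ((1 : Matrix ι ι ℚ) i j) = (1 : Matrix ι ι ℂ) i j := by
    intro i j
    rw [Matrix.one_apply, Matrix.one_apply]
    split_ifs <;> simp
  have h4 : ((dmat a b X e f : ℚ) : ℂ) = (Rat.castHom ℂ) (dmat a b X e f) := rfl
  rw [h4]
  simp only [dmat, map_sub, map_mul, map_sum, map_prod, h3]
  rfl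

/-- the row vector of the functional which takes the entry `e` of the image under `X` of a slice -/
private def rowS {p q a b : ℕ} (X : Matrix ι ι ℚ) (u : Fin p → ι) (v : Fin q → ι)
    (e : (Fin a → ι) × (Fin b → ι)) (g : (Fin (p + a) → ι) × (Fin (q + b) → ι)) : ℚ :=
  ∑ f : (Fin a → ι) × (Fin b → ι),
    if (Fin.append u f.1, Fin.append v f.2) = g then dmat a b X e f else 0

private theorem row_rat {p q a b : ℕ} (X : Matrix ι ι ℚ) (u : Fin p → ι) (v : Fin q → ι)
    (e : (Fin a → ι) × (Fin b → ι)) (x : Tens ι (p + a) (q + b) ℚ) :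
    ∑ g, rowS X u v e g * x g =
      dact X (fun e => x (Fin.append u e.1, Fin.append v e.2)) e := by
  simp only [rowS, Finset.sum_mul, dact, Matrix.mulVec, dotProduct]
  rw [Finset.sum_comm]
  refine Finset.sum_congr rfl fun f _ => ?_
  simp only [ite_mul, zero_mul]
  rw [Finset.sum_ite_eq, if_pos (Finset.mem_univ _)]

private theorem row_cx {p q a b : ℕ} (X : Matrix ι ι ℚ) (u : Fin p → ι) (v : Fin q → ι)
    (e : (Fin a → ι) × (Fin b → ι)) (x : Tens ι (p + a) (q + b) ℂ) :
    ∑ g, ((rowS X u v e g : ℚ) : ℂ) * x g =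
      dact (cx X) (fun e => x (Fin.append u e.1, Fin.append v e.2)) e := by
  simp only [rowS, Rat.cast_sum, Finset.sum_mul, dact, Matrix.mulVec, dotProduct]
  rw [Finset.sum_comm]
  refine Finset.sum_congr rfl fun f _ => ?_
  have h1 : ∀ g, ((if (Fin.append u f.1, Fin.append v f.2) = g then dmat a b X e f else 0 : ℚ) : ℂ) *
      x g = if (Fin.append u f.1, Fin.append v f.2) = g then dmat a b (cx X) e f * x g else 0 := by
    intro g
    split_ifs
    · rw [cast_dmat]
    · rw [Rat.cast_zero, zero_mul]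
  simp only [h1]
  rw [Finset.sum_ite_eq, if_pos (Finset.mem_univ _)]

theorem mix_span {h : HodgeStr ι} {p q a b : ℕ} {t : Tens ι (p + a) (q + b) ℂ}
    (ht : ∀ X ∈ mtLieC h, dact X t = 0)
    (hsl : ∀ A B : Matrix ι ι ℚ, (∀ C : Matrix ι ι ℚ, IsHodge h (matT C) → A * C = C * A) →
      (∀ C : Matrix ι ι ℚ, IsHodge h (matT C) → B * C = C * B) →
      ∀ (u : Fin p → ι) (v : Fin q → ι), dact (m := a) (n := b) (cx (A * B - B * A))
        (fun e => t (Fin.append u e.1, Fin.append v e.2)) = 0) :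
    t ∈ Submodule.span ℂ {w : Tens ι (p + a) (q + b) ℂ | ∃ x : Tens ι (p + a) (q + b) ℚ,
      IsHodge h x ∧ WeilSlices h p q a b x ∧ w = ratT ℂ x} := by
  have hspan := mem_span_ker
    (M := ({X : Matrix ι ι ℚ // X ∈ mtLie h} × ((Fin (p + a) → ι) × (Fin (q + b) → ι))) ⊕
      ({P : Matrix ι ι ℚ × Matrix ι ι ℚ //
        (∀ C : Matrix ι ι ℚ, IsHodge h (matT C) → P.1 * C = C * P.1) ∧
        (∀ C : Matrix ι ι ℚ, IsHodge h (matT C) → P.2 * C = C * P.2)} ×
        (Fin p → ι) × (Fin q → ι) × ((Fin a → ι) × (Fin b → ι))))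
    (Matrix.of fun r g => Sum.elim (fun r => dmat (p + a) (q + b) r.1.1 r.2 g)
      (fun r => rowS (r.1.1.1 * r.1.1.2 - r.1.1.2 * r.1.1.1) r.2.1 r.2.2.1 r.2.2.2 g) r) t (by
    funext r
    rcases r with r | r
    · have h1 := congrFun (ht (cx r.1.1) (cx_mem r.1.2)) r.2
      rw [Pi.zero_apply] at h1 ⊢
      rw [← h1]
      simp only [Matrix.mulVec, dotProduct, dact]
      refine Finset.sum_congr rfl fun f _ => ?_
      rw [← cast_dmat]
      rfl
    · have h1 := congrFun (hsl r.1.1.1 r.1.1.2 r.1.2.1 r.1.2.2 r.2.1 r.2.2.1) r.2.2.2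
      rw [Pi.zero_apply] at h1 ⊢
      rw [← h1, ← row_cx]
      rfl)
  refine Submodule.span_mono ?_ hspan
  rintro _ ⟨x, hx, rfl⟩
  refine ⟨x, isHodge_of_lie fun X hX => ?_, fun u v A B hA hB => ?_, rfl⟩
  · funext e
    exact congrFun hx (Sum.inl (⟨X, hX⟩, e))
  · funext e
    have h1 := congrFun hx (Sum.inr (⟨(A, B), hA, hB⟩, u, v, e))
    have h2 := row_rat (A * B - B * A) u v e x
    rw [← h2]
    exact h1

end Pool.Agent.Work.MP_0da4e0_ag.Ex
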