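import Pool.Agent.Work.MP_0da4e0_ag.Fx.SmallSpan

/-! MP_0da4e0_ag, exact Weil criterion, module Reduce: reduction of integral vectors modulo small ones.

PROOFS. n = card J, E = n! * (K + 1)^n.
(reduce_int) small_span for x = w: w = ∑ c i * s i. w0 = w - ∑ ⌊c i⌋ * s i is integral, orthogonal to F, and
equals ∑ (fract (c i)) * s i, so |w0 j| ≤ n * E. By h, ∑ t j * w0 j and all ∑ t j * s i j are integers
(E ≤ n * E if there is an index i), and ∑ t j * w j = ∑ t j * w0 j + ∑ ⌊c i⌋ * ∑ t j * s i j.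
(reduce_vec) small_span for x = r + w: r + w = ∑ c i * s i; w' = w - ∑ ⌊c i⌋ * s i; r + w' = ∑ fract (c i) * s i
is orthogonal to F, and |w' j| ≤ |r j| + |∑ fract (c i) * s i j| ≤ |r j| + n * E. -/

namespace Pool.Agent.Work.MP_0da4e0_ag.Ex

private theorem red_core {J : Type} [Fintype J] [DecidableEq J] (F : Set (J → ℤ)) (K : ℕ)
    (hK : ∀ d ∈ F, ∀ j, |d j| ≤ K) (r : J → ℝ) (w : J → ℤ)
    (h : ∀ d ∈ F, ∑ j, (r j + (w j : ℝ)) * (d j : ℝ) = 0) :
    ∃ (s : Fin (Fintype.card J) → J → ℤ) (c : Fin (Fintype.card J) → ℝ),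
      (∀ i, (∀ d ∈ F, ∑ j, s i j * d j = 0) ∧
        ∀ j, |s i j| ≤ (Fintype.card J).factorial * (K + 1) ^ (Fintype.card J)) ∧
      (∀ d ∈ F, ∑ j, (r j + ((w j - ∑ i, ⌊c i⌋ * s i j : ℤ) : ℝ)) * (d j : ℝ) = 0) ∧
      ∀ j, |r j + ((w j - ∑ i, ⌊c i⌋ * s i j : ℤ) : ℝ)| ≤
        Fintype.card J * ((Fintype.card J).factorial * (K + 1) ^ (Fintype.card J)) := by
  obtain ⟨s, c, hs, hx⟩ := small_span F K hK (fun j => r j + (w j : ℝ)) h
  refine ⟨s, c, hs, fun d hd => ?_, fun j => ?_⟩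
  · have h1 : ∑ j, (r j + ((w j - ∑ i, ⌊c i⌋ * s i j : ℤ) : ℝ)) * (d j : ℝ) =
        ∑ j, (r j + (w j : ℝ)) * (d j : ℝ) -
          ∑ i, (⌊c i⌋ : ℝ) * ((∑ j, s i j * d j : ℤ) : ℝ) := by
      push_cast
      simp only [Finset.mul_sum]
      rw [Finset.sum_comm, ← Finset.sum_sub_distrib]
      refine Finset.sum_congr rfl fun j _ => ?_
      have h2 : ∑ i, (⌊c i⌋ : ℝ) * ((s i j : ℝ) * (d j : ℝ)) =
          (∑ i, (⌊c i⌋ : ℝ) * (s i j : ℝ)) * (d j : ℝ) := by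
        rw [Finset.sum_mul]
        exact Finset.sum_congr rfl fun i _ => by ring
      rw [h2]
      ring
    rw [h1, h d hd, zero_sub, neg_eq_zero]
    refine Finset.sum_eq_zero fun i _ => ?_
    rw [(hs i).1 d hd, Int.cast_zero, mul_zero]
  · have h1 : r j + ((w j - ∑ i, ⌊c i⌋ * s i j : ℤ) : ℝ) = ∑ i, Int.fract (c i) * (s i j : ℝ) := by
      push_cast
      have h2 := hx j
      have h3 : ∑ i, Int.fract (c i) * (s i j : ℝ) =
          ∑ i, c i * (s i j : ℝ) - ∑ i, (⌊c i⌋ : ℝ) * (s i j : ℝ) := by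
        rw [← Finset.sum_sub_distrib]
        refine Finset.sum_congr rfl fun i _ => ?_
        rw [Int.fract]
        ring
      rw [h3, ← h2]
      ring
    rw [h1]
    refine (Finset.abs_sum_le_sum_abs _ _).trans ?_
    have h4 : ∀ i ∈ (Finset.univ : Finset (Fin (Fintype.card J))),
        |Int.fract (c i) * (s i j : ℝ)| ≤
          (Fintype.card J).factorial * (K + 1) ^ (Fintype.card J) := by
      intro i _
      rw [abs_mul, abs_of_nonneg (Int.fract_nonneg _)]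
      have h5 : |(s i j : ℝ)| ≤ (Fintype.card J).factorial * (K + 1) ^ (Fintype.card J) := by
        exact_mod_cast (hs i).2 j
      calc Int.fract (c i) * |(s i j : ℝ)| ≤ 1 * |(s i j : ℝ)| := by
            gcongr
            exact (Int.fract_lt_one _).le
        _ ≤ _ := by rw [one_mul]; exact h5
    refine (Finset.sum_le_card_nsmul _ _ _ h4).trans ?_
    rw [Finset.card_univ, Fintype.card_fin, nsmul_eq_mul]

theorem reduce_int {J : Type} [Fintype J] [DecidableEq J] (F : Set (J → ℤ)) (K : ℕ)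
    (hK : ∀ d ∈ F, ∀ j, |d j| ≤ K) (t : J → ℂ)
    (h : ∀ w : J → ℤ, (∀ d ∈ F, ∑ j, w j * d j = 0) →
      (∀ j, |w j| ≤ Fintype.card J * ((Fintype.card J).factorial * (K + 1) ^ (Fintype.card J))) →
      ∃ z : ℤ, ∑ j, t j * (w j : ℂ) = z) :
    ∀ w : J → ℤ, (∀ d ∈ F, ∑ j, w j * d j = 0) → ∃ z : ℤ, ∑ j, t j * (w j : ℂ) = z := by
  intro w hw
  obtain ⟨s, c, hs, ho, hb⟩ := red_core F K hK (fun _ => 0) w (by
    intro d hd
    have h1 := hw d hd
    simp only [zero_add]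
    exact_mod_cast h1)
  simp only [zero_add] at ho hb
  obtain ⟨z0, hz0⟩ := h (fun j => w j - ∑ i, ⌊c i⌋ * s i j) (by
    intro d hd
    exact_mod_cast ho d hd) (by
    intro j
    exact_mod_cast hb j)
  have hz : ∀ i, ∃ z : ℤ, ∑ j, t j * (s i j : ℂ) = z := by
    intro i
    refine h (s i) (hs i).1 fun j => ((hs i).2 j).trans ?_
    have h1 : 1 ≤ (Fintype.card J : ℤ) := by
      have := i.pos
      exact_mod_cast this
    have h2 : (0 : ℤ) ≤ (Fintype.card J).factorial * (K + 1) ^ (Fintype.card J) := by positivity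
    nlinarith
  choose z hz using hz
  refine ⟨z0 + ∑ i, ⌊c i⌋ * z i, ?_⟩
  have h3 : ∑ j, t j * (w j : ℂ) = ∑ j, t j * ((w j - ∑ i, ⌊c i⌋ * s i j : ℤ) : ℂ) +
      ∑ i, (⌊c i⌋ : ℂ) * ∑ j, t j * (s i j : ℂ) := by
    push_cast
    simp only [Finset.mul_sum]
    rw [Finset.sum_comm (s := Finset.univ (α := Fin (Fintype.card J))), ← Finset.sum_add_distrib]
    refine Finset.sum_congr rfl fun j _ => ?_
    have h2 : ∑ i, (⌊c i⌋ : ℂ) * (t j * (s i j : ℂ)) =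
        t j * (∑ i, (⌊c i⌋ : ℂ) * (s i j : ℂ)) := by
      rw [Finset.mul_sum]
      exact Finset.sum_congr rfl fun i _ => by ring
    rw [h2]
    ring
  rw [h3, hz0]
  simp only [hz]
  push_cast
  ring

theorem reduce_vec {J : Type} [Fintype J] [DecidableEq J] (F : Set (J → ℤ)) (K : ℕ)
    (hK : ∀ d ∈ F, ∀ j, |d j| ≤ K) (r : J → ℝ) (w : J → ℤ)
    (h : ∀ d ∈ F, ∑ j, (r j + (w j : ℝ)) * (d j : ℝ) = 0) :
    ∃ w' : J → ℤ, (∀ d ∈ F, ∑ j, (r j + (w' j : ℝ)) * (d j : ℝ) = 0) ∧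
      ∀ j, |(w' j : ℝ)| ≤ |r j| +
        Fintype.card J * ((Fintype.card J).factorial * (K + 1) ^ (Fintype.card J)) := by
  obtain ⟨s, c, hs, ho, hb⟩ := red_core F K hK r w h
  refine ⟨fun j => w j - ∑ i, ⌊c i⌋ * s i j, ho, fun j => ?_⟩
  have h1 : ((w j - ∑ i, ⌊c i⌋ * s i j : ℤ) : ℝ) =
      (r j + ((w j - ∑ i, ⌊c i⌋ * s i j : ℤ) : ℝ)) - r j := by ring
  rw [h1]
  refine (abs_sub _ _).trans ?_
  have h2 := hb j
  linarith

end Pool.Agent.Work.MP_0da4e0_ag.Ex
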