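import Pool.Agent.Work.MP_0da4e0_ag.Fx.Defs2

/-! MP_0da4e0_ag, exact Weil criterion, module TrInt: the traces of the conjugates of the generators.

PROOFS. All of this is in the proof of cen_mem in WeilMain.lean (hint, h𝓓, and the induction on the span).
(tr_bound) gen_trace_int applied to p = (d.q j).map θ.symm, as in hint there.
(tr_mem) X = F.map θ is in mtLieC h (map_mem_mt).
(tr_kill) F1, F2 in mtLieC h from exists_gen h 1 0 and exists_gen h 0 1. For every θ and F = F1, F2 there is an integral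
vector v with trace (F.map θ * d.q j) = v j for all j (hint there), which is in trSet h d, so
dact (F.map θ) t = (∑ r i * v i) • t = 0. So t is in fixM h a b (mem_fixM) and fixM_killed gives dact X t = 0. -/

open Matrix

namespace Pool.Agent.Work.MP_0da4e0_ag.Ex

variable {ι : Type} [Fintype ι] [DecidableEq ι]

private theorem hint {h : HodgeStr ι} {H : ℕ} (hH : ∀ p q : ℤ, h.V (p, q) ≠ ⊥ → |p| ≤ H) (d : Diag h)
    (F : Matrix ι ι ℂ) (hF : F ∈ mtLieC h) (α β : ℤ) (hαβ : (α = 1 ∧ β = 0) ∨ (α = 0 ∧ β = 1))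
    (hFv : ∀ (p q : ℤ) (v : ι → ℂ), v ∈ h.V (p, q) → F *ᵥ v = ((α * p + β * q : ℤ) : ℂ) • v)
    (θ : ℂ ≃+* ℂ) (j : ι) :
    ∃ m : ℤ, Matrix.trace (F.map (θ : ℂ →+* ℂ) * d.q j) = m ∧ |m| ≤ Fintype.card ι * H := by
  have hmtc : ∀ X ∈ mtLieC h, ∀ Z, Cen h Z → X * Z = Z * X := fun X hX Z hZ => hZ.1 X hX
  set p := (d.q j).map (θ.symm : ℂ →+* ℂ) with hp
  have hpθ : p.map (θ : ℂ →+* ℂ) = d.q j := by
    rw [hp]; ext a b; simp
  have hpp : p * p = p := by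
    rw [hp, ← Matrix.map_mul, d.q_idem]
  have hFp : F * p = p * F := by
    have h1 := hmtc _ (map_mem_mt (θ : ℂ →+* ℂ) hF) _ (d.q_cen j)
    have h2 := congrArg (fun M : Matrix ι ι ℂ => M.map (θ.symm : ℂ →+* ℂ)) h1
    simp only [Matrix.map_mul] at h2
    have h3 : (F.map (θ : ℂ →+* ℂ)).map (θ.symm : ℂ →+* ℂ) = F := by
      ext a b; simp
    rw [h3] at h2
    exact h2
  obtain ⟨m, hm, hmle⟩ := gen_trace_int hH hαβ hFv p hpp hFp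
  refine ⟨m, ?_, hmle⟩
  have h1 : F.map (θ : ℂ →+* ℂ) * d.q j = (F * p).map (θ : ℂ →+* ℂ) := by
    rw [Matrix.map_mul, hpθ]
  rw [h1]
  have h2 : Matrix.trace ((F * p).map (θ : ℂ →+* ℂ)) = θ (Matrix.trace (F * p)) := by
    rw [Matrix.trace, Matrix.trace, map_sum]
    rfl
  rw [h2, hm]
  simp

theorem tr_bound {h : HodgeStr ι} {H : ℕ} (hH : ∀ p q : ℤ, h.V (p, q) ≠ ⊥ → |p| ≤ H) (d : Diag h) :
    ∀ v ∈ trSet h d, ∀ j, |v j| ≤ ((Fintype.card ι * H : ℕ) : ℤ) := by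
  rintro w ⟨θ, F, hF, α, β, hαβ, hFv, hw⟩ j
  obtain ⟨m, hm, hmle⟩ := hint hH d F hF α β hαβ hFv θ j
  rw [hw j] at hm
  have : w j = m := by exact_mod_cast hm
  rw [this]
  push_cast
  exact hmle

theorem tr_mem {h : HodgeStr ι} (d : Diag h) {v : ι → ℤ} (hv : v ∈ trSet h d) :
    ∃ X ∈ mtLieC h, ∀ j, Matrix.trace (X * d.q j) = ((v j : ℤ) : ℂ) := by
  obtain ⟨θ, F, hF, α, β, hαβ, hFv, hw⟩ := hv
  exact ⟨F.map (θ : ℂ →+* ℂ), map_mem_mt _ hF, hw⟩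

theorem tr_kill {h : HodgeStr ι} {H : ℕ} (hH : ∀ p q : ℤ, h.V (p, q) ≠ ⊥ → |p| ≤ H) (d : Diag h)
    {a b : ℕ} {t : Tens ι a b ℂ} {r : ι → ℂ}
    (ht : ∀ X ∈ mtLieC h, dact X t = (∑ i, r i * Matrix.trace (X * d.q i)) • t)
    (hr : ∀ v ∈ trSet h d, ∑ i, r i * ((v i : ℤ) : ℂ) = 0) : ∀ X ∈ mtLieC h, dact X t = 0 := by
  obtain ⟨F1, hF1, hF1'⟩ := exists_gen h 1 0
  obtain ⟨F2, hF2, hF2'⟩ := exists_gen h 0 1
  have key : ∀ (F : Matrix ι ι ℂ), F ∈ mtLieC h → ∀ α β : ℤ, ((α = 1 ∧ β = 0) ∨ (α = 0 ∧ β = 1)) →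
      (∀ (p q : ℤ) (v : ι → ℂ), v ∈ h.V (p, q) → F *ᵥ v = ((α * p + β * q : ℤ) : ℂ) • v) →
      ∀ θ : ℂ ≃+* ℂ, dact (F.map (θ : ℂ →+* ℂ)) t = 0 := by
    intro F hF α β hαβ hFv θ
    have h1 : ∀ j, ∃ m : ℤ, Matrix.trace (F.map (θ : ℂ →+* ℂ) * d.q j) = m := fun j =>
      (hint hH d F hF α β hαβ hFv θ j).imp fun m hm => hm.1
    choose w hw using h1
    rw [ht _ (map_mem_mt _ hF)]
    have h2 := hr w ⟨θ, F, hF, α, β, hαβ, hFv, hw⟩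
    simp only [hw]
    rw [h2, zero_smul]
  have hfix : t ∈ fixM h a b := mem_fixM hF1' hF2' (key F1 hF1 1 0 (Or.inl ⟨rfl, rfl⟩) hF1')
    (key F2 hF2 0 1 (Or.inr ⟨rfl, rfl⟩) hF2')
  exact fun X hX => fixM_killed hfix hX

end Pool.Agent.Work.MP_0da4e0_ag.Ex
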