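import Pool.Agent.Work.MP_0da4e0_ag.Fx.ExtHom
import Pool.Agent.Work.MP_0da4e0_ag.Fx.Reduce
import Pool.Agent.Work.MP_0da4e0_ag.Fx.TrInt

/-! MP_0da4e0_ag, exact Weil criterion, module MixT: completing an eigentensor by a Weil tensor.

PROOF. n = card ι, E = n! * (n * H + 1)^n. Λ = {v : ι → ℤ | ∃ X ∈ mtLieC h, ∀ i, trace (X * d.q i) = v i} is an
additive subgroup, and k • v ∈ Λ, k ≠ 0 implies v ∈ Λ (divide X by k). ext_hom with t = r (hint): w0 : ι → ℤ with
∑ w0 i * v i = ∑ r i * v i for v in Λ. trSet h d is contained in Λ (tr_mem). So with w = -w0,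
∑ (r i + w i) * v i = 0 for all v in trSet h d (real numbers; pass through ℂ). reduce_vec with F = trSet h d,
K = n * H (tr_bound): w' with ∑ (r i + w' i) * v i = 0 for v in trSet h d and |w' j| ≤ |r j| + n * E. The sum k of the
natAbs of the w' j is at most p + q + n * (n * E) (hr1). Diag.exists_weight: D ≠ 0 of bidegree at most
(n * k, n * k), dact X D = (∑ w' j * trace (X * d.q j)) • D for X commuting with the center. For X in mtLieC h (it
commutes with the center) dact X (tmul s D) = (∑ (r i + w' i) * trace (X * d.q i)) • tmul s D (dact_tmul_eigen),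
and tr_kill gives the claim. -/

open Matrix

namespace Pool.Agent.Work.MP_0da4e0_ag.Ex

variable {ι : Type} [Fintype ι] [DecidableEq ι]

/-- the lattice of integral trace vectors -/
private noncomputable def trLat (h : HodgeStr ι) (d : Diag h) : AddSubgroup (ι → ℤ) where
  carrier := {v | ∃ X ∈ mtLieC h, ∀ i, Matrix.trace (X * d.q i) = ((v i : ℤ) : ℂ)}
  zero_mem' := ⟨0, Submodule.zero_mem _, fun i => by
    rw [Matrix.zero_mul, Matrix.trace_zero, Pi.zero_apply, Int.cast_zero]⟩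
  add_mem' := by
    rintro v w ⟨X, hX, hv⟩ ⟨Y, hY, hw⟩
    refine ⟨X + Y, Submodule.add_mem _ hX hY, fun i => ?_⟩
    rw [Matrix.add_mul, Matrix.trace_add, hv, hw, Pi.add_apply, Int.cast_add]
  neg_mem' := by
    rintro v ⟨X, hX, hv⟩
    refine ⟨-X, Submodule.neg_mem _ hX, fun i => ?_⟩
    rw [Matrix.neg_mul, Matrix.trace_neg, hv, Pi.neg_apply, Int.cast_neg]

private theorem mem_trLat {h : HodgeStr ι} {d : Diag h} {v : ι → ℤ} : v ∈ trLat h d ↔
    ∃ X ∈ mtLieC h, ∀ i, Matrix.trace (X * d.q i) = ((v i : ℤ) : ℂ) := Iff.rfl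

theorem exists_mix {h : HodgeStr ι} {H : ℕ} (hH : ∀ p q : ℤ, h.V (p, q) ≠ ⊥ → |p| ≤ H)
    (d : Diag h) {p q : ℕ} {s : Tens ι p q ℂ} {r : ι → ℝ} (hr1 : ∑ i, |r i| ≤ p + q)
    (hr : ∀ X ∈ mtLieC h, dact X s = (∑ i, (r i : ℂ) * Matrix.trace (X * d.q i)) • s)
    (hint : ∀ X ∈ mtLieC h, ∀ v : ι → ℤ, (∀ i, Matrix.trace (X * d.q i) = ((v i : ℤ) : ℂ)) →
      ∃ z : ℤ, ∑ i, (r i : ℂ) * ((v i : ℤ) : ℂ) = z) :
    ∃ a b : ℕ,
      a ≤ Fintype.card ι * (p + q + Fintype.card ι * (Fintype.card ι *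
        ((Fintype.card ι).factorial * (Fintype.card ι * H + 1) ^ Fintype.card ι))) ∧
      b ≤ Fintype.card ι * (p + q + Fintype.card ι * (Fintype.card ι *
        ((Fintype.card ι).factorial * (Fintype.card ι * H + 1) ^ Fintype.card ι))) ∧
      ∃ (w : ι → ℤ) (D : Tens ι a b ℂ), D ≠ 0 ∧
        (∀ X : Matrix ι ι ℂ, (∀ Z, Cen h Z → X * Z = Z * X) →
          dact X D = (∑ i, (w i : ℂ) * Matrix.trace (X * d.q i)) • D) ∧
        ∀ X ∈ mtLieC h, dact X (tmul s D) = 0 := by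
  have hsat : ∀ (k : ℤ) (v : ι → ℤ), k ≠ 0 → k • v ∈ trLat h d → v ∈ trLat h d := by
    intro k v hk hv
    rw [mem_trLat] at hv ⊢
    obtain ⟨X, hX, hXv⟩ := hv
    have hkC : (k : ℂ) ≠ 0 := Int.cast_ne_zero.2 hk
    refine ⟨(k : ℂ)⁻¹ • X, Submodule.smul_mem _ _ hX, fun i => ?_⟩
    rw [Matrix.smul_mul, Matrix.trace_smul, hXv, Pi.smul_apply, smul_eq_mul, smul_eq_mul,
      Int.cast_mul, inv_mul_cancel_left₀ hkC]
  obtain ⟨w0, hw0⟩ := ext_hom (trLat h d) hsat (fun i => (r i : ℂ)) (by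
    intro v hv
    obtain ⟨X, hX, hXv⟩ := mem_trLat.1 hv
    exact hint X hX v hXv)
  have hw : ∀ v ∈ trSet h d, ∑ j, (r j + (((-w0) j : ℤ) : ℝ)) * ((v j : ℤ) : ℝ) = 0 := by
    intro v hv
    have h1 := hw0 v (mem_trLat.2 (tr_mem d hv))
    have h2 : ((∑ j, (r j + (((-w0) j : ℤ) : ℝ)) * ((v j : ℤ) : ℝ) : ℝ) : ℂ) = 0 := by
      rw [Complex.ofReal_sum]
      have h3 : ∀ j, (((r j + (((-w0) j : ℤ) : ℝ)) * ((v j : ℤ) : ℝ) : ℝ) : ℂ) =
          (r j : ℂ) * ((v j : ℤ) : ℂ) - (w0 j : ℂ) * ((v j : ℤ) : ℂ) := by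
        intro j
        rw [Pi.neg_apply]
        push_cast
        ring
      simp only [h3, Finset.sum_sub_distrib]
      rw [h1, sub_self]
    exact_mod_cast h2
  obtain ⟨w', hw', hb⟩ := reduce_vec (trSet h d) (Fintype.card ι * H) (tr_bound hH d) r (-w0) hw
  have hk : ∑ j, (w' j).natAbs ≤ p + q + Fintype.card ι * (Fintype.card ι *
        ((Fintype.card ι).factorial * (Fintype.card ι * H + 1) ^ Fintype.card ι)) := by
    have h1 : ((∑ j, (w' j).natAbs : ℕ) : ℝ) ≤ ((p + q + Fintype.card ι * (Fintype.card ι *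
        ((Fintype.card ι).factorial * (Fintype.card ι * H + 1) ^ Fintype.card ι)) : ℕ) : ℝ) := by
      rw [Nat.cast_sum]
      calc ∑ j, (((w' j).natAbs : ℕ) : ℝ) = ∑ j, |(w' j : ℝ)| := by
            refine Finset.sum_congr rfl fun j _ => ?_
            rw [Nat.cast_natAbs, Int.cast_abs]
        _ ≤ ∑ j, (|r j| + Fintype.card ι * ((Fintype.card ι).factorial *
              ((Fintype.card ι * H : ℕ) + 1) ^ (Fintype.card ι))) :=
            Finset.sum_le_sum fun j _ => hb j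
        _ = (∑ j, |r j|) + Fintype.card ι * (Fintype.card ι * ((Fintype.card ι).factorial *
              ((Fintype.card ι * H : ℕ) + 1) ^ (Fintype.card ι))) := by
            rw [Finset.sum_add_distrib, Finset.sum_const, Finset.card_univ, nsmul_eq_mul]
        _ ≤ _ := by
            push_cast
            linarith
    exact_mod_cast h1
  obtain ⟨a, ha, b, hb', D, hD0, hD⟩ := d.exists_weight _ w' rfl
  refine ⟨a, b, ha.trans (Nat.mul_le_mul_left _ hk), hb'.trans (Nat.mul_le_mul_left _ hk),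
    w', D, hD0, hD, ?_⟩
  refine tr_kill hH d (r := fun i => (r i : ℂ) + (w' i : ℂ)) ?_ ?_
  · intro X hX
    have h1 := dact_tmul_eigen (hr X hX) (hD X fun Z hZ => hZ.1 X hX)
    rw [h1]
    congr 1
    rw [← Finset.sum_add_distrib]
    exact Finset.sum_congr rfl fun i _ => by ring
  · intro v hv
    have h1 := hw' v hv
    have h2 : ((∑ j, (r j + (w' j : ℝ)) * (v j : ℝ) : ℝ) : ℂ) = 0 := by
      rw [h1, Complex.ofReal_zero]
    rw [← h2, Complex.ofReal_sum]
    refine Finset.sum_congr rfl fun j _ => ?_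
    push_cast
    ring

end Pool.Agent.Work.MP_0da4e0_ag.Ex
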