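import Pool.Agent.Work.MP_0da4e0_ag.Fx.EigDec
import Pool.Agent.Work.MP_0da4e0_ag.Fx.EigVal
import Pool.Agent.Work.MP_0da4e0_ag.Fx.InvLie
import Pool.Agent.Work.MP_0da4e0_ag.Fx.MixT
import Pool.Agent.Work.MP_0da4e0_ag.Fx.MixSpan

/-! MP_0da4e0_ag, exact Weil criterion, module FixInv: a central matrix of finite order fixing the mixed Weil
tensors fixes the small tensors with the property Inv1.

PROOF. eig_dec for F = {dmat p q Z | Cen h Z} and W from eig_frame: t = ∑ s l. invS (mtLieC h) p q is a subspace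
containing t, stable under F (inv_stable, cen_iff; dact Z y = dmat p q Z *ᵥ y), so Inv1 (mtLieC h) (s l), and s l is
a common eigentensor. It is enough to prove act f (s l) = s l, f = expGL Q (2 π I). Let s = s l ≠ 0. r from eig_val;
inv_lie, inv_int and exists_mix: a, b ≤ N, w, D. The slices of tmul s D are
e ↦ tmul s D (append u e.1, append v e.2) = s (u, v) * D e (definition of tmul and addEquiv, Fin.append_left,
Fin.append_right). For A, B commuting with all Hodge endomorphisms, X = cx (A * B - B * A) = cx A cx B - cx B cx A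
commutes with the center and trace (X * d.q i) = 0 (as in hgood in cen_mem, WeilMain.lean: rat_comm_cen), so
dact X D = 0 and the slices are killed. mix_span: tmul s D is in the span of tensors fixed by f (hmix), so
act f (tmul s D) = tmul s D; and act f D = exp (2 π I * ∑ w i * trace (Q * d.q i)) • D = D (act_eig, hQi, Q commutes
with the center: Cen.comm). act_tmul: tmul (act f s) D = tmul s D; evaluate at (e, e') with D e' ≠ 0:
act f s = s. -/

open Matrix

namespace Pool.Agent.Work.MP_0da4e0_ag.Ex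

variable {ι : Type} [Fintype ι] [DecidableEq ι]

private theorem comm_AB {h : HodgeStr ι} {A B : Matrix ι ι ℚ}
    (hA : ∀ C : Matrix ι ι ℚ, IsHodge h (matT C) → A * C = C * A)
    (hB : ∀ C : Matrix ι ι ℚ, IsHodge h (matT C) → B * C = C * B) {Z : Matrix ι ι ℂ} (hZ : Cen h Z) :
    cx (A * B - B * A) * Z = Z * cx (A * B - B * A) := by
  rw [cx_sub, cx_mul, cx_mul]
  have e1 : cx A * cx B * Z = Z * (cx A * cx B) := by
    rw [Matrix.mul_assoc, rat_comm_cen hB hZ, ← Matrix.mul_assoc, rat_comm_cen hA hZ, Matrix.mul_assoc]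
  have e2 : cx B * cx A * Z = Z * (cx B * cx A) := by
    rw [Matrix.mul_assoc, rat_comm_cen hA hZ, ← Matrix.mul_assoc, rat_comm_cen hB hZ, Matrix.mul_assoc]
  rw [Matrix.sub_mul, Matrix.mul_sub, e1, e2]

private theorem trace_AB {h : HodgeStr ι} {A B : Matrix ι ι ℚ}
    (hB : ∀ C : Matrix ι ι ℚ, IsHodge h (matT C) → B * C = C * B) {Z : Matrix ι ι ℂ} (hZ : Cen h Z) :
    Matrix.trace (cx (A * B - B * A) * Z) = 0 := by
  rw [cx_sub, cx_mul, cx_mul, Matrix.sub_mul, Matrix.trace_sub]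
  have h2 : Matrix.trace (cx A * cx B * Z) = Matrix.trace (cx B * cx A * Z) := by
    rw [Matrix.mul_assoc, rat_comm_cen hB hZ, ← Matrix.mul_assoc, Matrix.trace_mul_comm,
      ← Matrix.mul_assoc]
  rw [h2, sub_self]

private theorem span_fix {a b : ℕ} {P : Tens ι a b ℚ → Prop} {g : GL ι ℂ}
    (hP : ∀ x, P x → act g (ratT ℂ x) = ratT ℂ x) {D : Tens ι a b ℂ}
    (hD : D ∈ Submodule.span ℂ {w : Tens ι a b ℂ | ∃ u : Tens ι a b ℚ, P u ∧ w = ratT ℂ u}) :
    act g D = D := by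
  induction hD using Submodule.span_induction with
  | mem x hx => obtain ⟨u, hu, rfl⟩ := hx; exact hP u hu
  | zero => rw [act_eq, Matrix.mulVec_zero]
  | add x y _ _ hx hy => rw [act_add, hx, hy]
  | smul c x _ hx => rw [act_smul, hx]

private theorem slice_tmul {p q a b : ℕ} (s : Tens ι p q ℂ) (D : Tens ι a b ℂ) (u : Fin p → ι)
    (v : Fin q → ι) :
    (fun e : (Fin a → ι) × (Fin b → ι) => tmul s D (Fin.append u e.1, Fin.append v e.2)) =
      s (u, v) • D := by
  funext e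
  have h1 : addEquiv ι p q a b (Fin.append u e.1, Fin.append v e.2) = ((u, v), e) :=
    (addEquiv ι p q a b).apply_symm_apply ((u, v), e)
  rw [Pi.smul_apply, smul_eq_mul, tmul, h1]

private theorem fix_one {h : HodgeStr ι} {S : Matrix ι ι ℚ} (hS : Polarizes h S) {H : ℕ}
    (hH : ∀ p q : ℤ, h.V (p, q) ≠ ⊥ → |p| ≤ H) (d : Diag h) {Q : Matrix ι ι ℂ} (hQ : Cen h Q)
    (hQi : ∀ i, ∃ z : ℤ, Matrix.trace (Q * d.q i) = z) {p q N : ℕ}
    (hN : Fintype.card ι * (p + q + Fintype.card ι * (Fintype.card ι *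
        ((Fintype.card ι).factorial * (Fintype.card ι * H + 1) ^ Fintype.card ι))) ≤ N)
    (hmix : ∀ a b : ℕ, a ≤ N → b ≤ N → ∀ x : Tens ι (p + a) (q + b) ℚ,
      IsHodge h x → WeilSlices h p q a b x →
      act (expGL Q (2 * Real.pi * Complex.I)) (ratT ℂ x) = ratT ℂ x) {s : Tens ι p q ℂ}
    (hs0 : s ≠ 0) (hinv : Inv1 (mtLieC h) s)
    (heig : ∀ Z, Cen h Z → ∃ c : ℂ, dact Z s = c • s) :
    act (expGL Q (2 * Real.pi * Complex.I)) s = s := by
  obtain ⟨r, hr1, hr⟩ := eig_val d hs0 heig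
  obtain ⟨a, b, ha, hb, w, D, hD0, hD, hkill⟩ := exists_mix hH d hr1 (inv_lie hS d hinv hr)
    (fun X hX v hv => inv_int hS d hinv hs0 hr hX v hv)
  have hspan := mix_span hkill (by
    intro A B hA hB u v
    rw [slice_tmul, dact_tsmul, hD _ (fun Z hZ => comm_AB hA hB hZ)]
    have h1 : ∀ j, Matrix.trace (cx (A * B - B * A) * d.q j) = 0 := fun j => trace_AB hB (d.q_cen j)
    simp only [h1, mul_zero, Finset.sum_const_zero, zero_smul, smul_zero])
  have hf : act (expGL Q (2 * Real.pi * Complex.I)) (tmul s D) = tmul s D := by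
    refine span_fix (P := fun x => IsHodge h x ∧ WeilSlices h p q a b x)
      (fun x hx => hmix a b (ha.trans hN) (hb.trans hN) x hx.1 hx.2) ?_
    refine Submodule.span_mono ?_ hspan
    rintro _ ⟨x, hx1, hx2, rfl⟩
    exact ⟨x, ⟨hx1, hx2⟩, rfl⟩
  have hfD : act (expGL Q (2 * Real.pi * Complex.I)) D = D := by
    choose z hz using hQi
    rw [act_eig (hD Q (fun Z hZ => hQ.comm hZ))]
    have h1 : 2 * Real.pi * Complex.I * ∑ i, (w i : ℂ) * Matrix.trace (Q * d.q i) =
        ((∑ i, w i * z i : ℤ) : ℂ) * (2 * Real.pi * Complex.I) := by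
      rw [mul_comm]
      congr 1
      push_cast
      exact Finset.sum_congr rfl fun i _ => by rw [hz i]
    rw [h1, Complex.exp_int_mul_two_pi_mul_I, one_smul]
  rw [act_tmul, hfD] at hf
  obtain ⟨e', he'⟩ := Function.ne_iff.1 hD0
  funext e
  have h2 := congrFun hf ((addEquiv ι p q a b).symm (e, e'))
  simp only [tmul, Equiv.apply_symm_apply] at h2
  exact mul_right_cancel₀ he' h2

theorem fix_inv {h : HodgeStr ι} {S : Matrix ι ι ℚ} (hS : Polarizes h S) {H : ℕ}
    (hH : ∀ p q : ℤ, h.V (p, q) ≠ ⊥ → |p| ≤ H) (d : Diag h) {Q : Matrix ι ι ℂ} (hQ : Cen h Q)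
    (hQi : ∀ i, ∃ z : ℤ, Matrix.trace (Q * d.q i) = z) {M N : ℕ}
    (hMN : Fintype.card ι * (M + M + Fintype.card ι * (Fintype.card ι *
        ((Fintype.card ι).factorial * (Fintype.card ι * H + 1) ^ Fintype.card ι))) ≤ N)
    (hmix : ∀ p q a b : ℕ, p ≤ M → q ≤ M → a ≤ N → b ≤ N → ∀ x : Tens ι (p + a) (q + b) ℚ,
      IsHodge h x → WeilSlices h p q a b x →
      act (expGL Q (2 * Real.pi * Complex.I)) (ratT ℂ x) = ratT ℂ x) :
    ∀ p q : ℕ, p ≤ M → q ≤ M → ∀ t : Tens ι p q ℂ, Inv1 (mtLieC h) t →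
      act (expGL Q (2 * Real.pi * Complex.I)) t = t := by
  intro p q hp hq t ht
  obtain ⟨W, hW⟩ := eig_frame d p q
  obtain ⟨k, s, hts, hs⟩ := eig_dec {A | ∃ Z, Cen h Z ∧ A = dmat p q Z} W
    (by rintro A ⟨Z, hZ, rfl⟩; exact hW Z hZ) t
  have hfs : ∀ l, act (expGL Q (2 * Real.pi * Complex.I)) (s l : Tens ι p q ℂ) = s l := by
    intro l
    obtain ⟨h1, h2⟩ := hs l
    by_cases hs0 : s l = 0
    · rw [hs0, act_eq, Matrix.mulVec_zero]
    · refine fix_one hS hH d hQ hQi ((Nat.mul_le_mul_left _ ?_).trans hMN)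
        (fun a b ha hb x hx hxW => hmix p q a b hp hq ha hb x hx hxW) hs0 ?_ ?_
      · exact Nat.add_le_add_right (Nat.add_le_add hp hq) _
      · exact h2 (invS (mtLieC h) p q) ht (by
          rintro A ⟨Z, hZ, rfl⟩ y hy
          exact inv_stable hy (cen_iff.1 hZ))
      · exact fun Z hZ => h1 _ ⟨Z, hZ, rfl⟩
  have h3 : act (expGL Q (2 * Real.pi * Complex.I)) (∑ l, (s l : Tens ι p q ℂ)) =
      ∑ l, (s l : Tens ι p q ℂ) := by
    rw [act_sum]
    exact Finset.sum_congr rfl fun l _ => hfs l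
  rw [hts]
  exact h3

end Pool.Agent.Work.MP_0da4e0_ag.Ex
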