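import Pool.Agent.Work.MP_0da4e0_ag.Fx.ExtHom
import Pool.Agent.Work.MP_0da4e0_ag.Fx.Reduce
import Pool.Agent.Work.MP_0da4e0_ag.Fx.TrInt
import Pool.Agent.Work.MP_0da4e0_ag.Fx.ActEig

/-! MP_0da4e0_ag, exact Weil criterion, module SplitC: a central matrix fixing the small Weil tensors is the
product of a central element of the group and a matrix of finite order.

PROOF. n = card ι, E = n! * (n * H + 1)^n, T i = trace (W * d.q i), t i = T i / (2 π I), F = trSet h d.
Let w : ι → ℤ be orthogonal to F with |w j| ≤ n * E. Diag.exists_weight: D ≠ 0 of bidegree (a, b),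
a, b ≤ n * ∑ natAbs (w j) ≤ n * (n * (n * E)) ≤ N, dact X D = (∑ w j * trace (X * d.q j)) • D for X commuting with the
center. dact X D = 0 for X in mtLieC h (tr_kill with r = w), and for X = cx (A * B - B * A), A and B commuting with
the Hodge endomorphisms (as in hgood in cen_mem). mem_span_weil: D is a combination of Weil Hodge tensors, so
act (expGL W 1) D = D (hfix). act_eig: exp (∑ w j * T j) = 1, so ∑ t j * w j is an integer
(Complex.exp_eq_one_iff). reduce_int (K = n * H, tr_bound): this holds for all w orthogonal to F. Λ = the subgroup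
of all w orthogonal to F is saturated; ext_hom: v : ι → ℤ with ∑ v j * w j = ∑ t j * w j for all w in Λ. Let
y = t - v. If y is not in the complex span of F, small_orth gives an integral e orthogonal to F with
∑ e j * y j ≠ 0, a contradiction. So y is in the span of F; by tr_mem and linearity there is X in mtLieC h with
trace (X * d.q j) = 2 π I * y j (multiply by 2 π I), and mt_decomp gives Z. Then
trace ((W - Z) * d.q j) = T j - 2 π I * (t j - v j) = 2 π I * v j. -/

open Matrix

namespace Pool.Agent.Work.MP_0da4e0_ag.Ex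

variable {ι : Type} [Fintype ι] [DecidableEq ι]

private theorem comm_AB {h : HodgeStr ι} {A B : Matrix ι ι ℚ}
    (hA : ∀ C : Matrix ι ι ℚ, IsHodge h (matT C) → A * C = C * A)
    (hB : ∀ C : Matrix ι ι ℚ, IsHodge h (matT C) → B * C = C * B) {Z : Matrix ι ι ℂ} (hZ : Cen h Z) :
    cx (A * B - B * A) * Z = Z * cx (A * B - B * A) := by
  rw [cx_sub, cx_mul, cx_mul]
  have e1 : cx A * cx B * Z = Z * (cx A * cx B) := by
    rw [Matrix.mul_assoc, rat_comm_cen hB hZ, ← Matrix.mul_assoc, rat_comm_cen hA hZ, Matrix.mul_assoc]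
  have e2 : cx B * cx A * Z = Z * (cx B * cx A) := by
    rw [Matrix.mul_assoc, rat_comm_cen hA hZ, ← Matrix.mul_assoc, rat_comm_cen hB hZ, Matrix.mul_assoc]
  rw [Matrix.sub_mul, Matrix.mul_sub, e1, e2]

private theorem trace_AB {h : HodgeStr ι} {A B : Matrix ι ι ℚ}
    (hB : ∀ C : Matrix ι ι ℚ, IsHodge h (matT C) → B * C = C * B) {Z : Matrix ι ι ℂ} (hZ : Cen h Z) :
    Matrix.trace (cx (A * B - B * A) * Z) = 0 := by
  rw [cx_sub, cx_mul, cx_mul, Matrix.sub_mul, Matrix.trace_sub]
  have h2 : Matrix.trace (cx A * cx B * Z) = Matrix.trace (cx B * cx A * Z) := by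
    rw [Matrix.mul_assoc, rat_comm_cen hB hZ, ← Matrix.mul_assoc, Matrix.trace_mul_comm,
      ← Matrix.mul_assoc]
  rw [h2, sub_self]

private theorem span_fix {a b : ℕ} {P : Tens ι a b ℚ → Prop} {g : GL ι ℂ}
    (hP : ∀ x, P x → act g (ratT ℂ x) = ratT ℂ x) {D : Tens ι a b ℂ}
    (hD : D ∈ Submodule.span ℂ {w : Tens ι a b ℂ | ∃ u : Tens ι a b ℚ, P u ∧ w = ratT ℂ u}) :
    act g D = D := by
  induction hD using Submodule.span_induction with
  | mem x hx => obtain ⟨u, hu, rfl⟩ := hx; exact hP u hu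
  | zero => rw [act_eq, Matrix.mulVec_zero]
  | add x y _ _ hx hy => rw [act_add, hx, hy]
  | smul c x _ hx => rw [act_smul, hx]

theorem split_c {h : HodgeStr ι} {S : Matrix ι ι ℚ} (hS : Polarizes h S) {H : ℕ}
    (hH : ∀ p q : ℤ, h.V (p, q) ≠ ⊥ → |p| ≤ H) (d : Diag h) {W : Matrix ι ι ℂ} (hW : Cen h W)
    {N : ℕ} (hN : Fintype.card ι * (Fintype.card ι * (Fintype.card ι *
        ((Fintype.card ι).factorial * (Fintype.card ι * H + 1) ^ Fintype.card ι))) ≤ N)
    (hfix : ∀ a b : ℕ, a ≤ N → b ≤ N → ∀ x : Tens ι a b ℚ, IsHodge h x → IsWeil h x →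
      act (expGL W 1) (ratT ℂ x) = ratT ℂ x) :
    ∃ Z ∈ mtLieC h, Cen h Z ∧
      ∀ i, ∃ z : ℤ, Matrix.trace ((W - Z) * d.q i) = 2 * Real.pi * Complex.I * z := by
  have hpi : (2 * Real.pi * Complex.I : ℂ) ≠ 0 := Complex.two_pi_I_ne_zero
  obtain ⟨t, ht⟩ : ∃ t : ι → ℂ, ∀ i, Matrix.trace (W * d.q i) = 2 * Real.pi * Complex.I * t i :=
    ⟨fun i => Matrix.trace (W * d.q i) / (2 * Real.pi * Complex.I), fun i => by
      rw [mul_div_cancel₀ _ hpi]⟩
  have hsmall : ∀ w : ι → ℤ, (∀ v ∈ trSet h d, ∑ j, w j * v j = 0) →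
      (∀ j, |w j| ≤ Fintype.card ι * ((Fintype.card ι).factorial *
        ((Fintype.card ι * H : ℕ) + 1) ^ (Fintype.card ι))) →
      ∃ z : ℤ, ∑ j, t j * (w j : ℂ) = z := by
    intro w hw hwb
    obtain ⟨a, ha, b, hb, D, hD0, hD⟩ := d.exists_weight _ w rfl
    have hsum : ∑ j, (w j).natAbs ≤ Fintype.card ι * (Fintype.card ι * ((Fintype.card ι).factorial *
        (Fintype.card ι * H + 1) ^ (Fintype.card ι))) := by
      calc ∑ j, (w j).natAbs ≤ ∑ j : ι, (Fintype.card ι * ((Fintype.card ι).factorial *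
            (Fintype.card ι * H + 1) ^ (Fintype.card ι))) := by
            apply Finset.sum_le_sum
            intro j _
            have h1 := hwb j
            zify
            push_cast at h1
            exact_mod_cast h1
        _ = _ := by rw [Finset.sum_const, Finset.card_univ, smul_eq_mul]
    have hbound : Fintype.card ι * ∑ j, (w j).natAbs ≤ N := (Nat.mul_le_mul_left _ hsum).trans hN
    have hkill : ∀ X ∈ mtLieC h, dact X D = 0 := by
      refine tr_kill hH d (r := fun i => (w i : ℂ)) (fun X hX => hD X (fun Z hZ => hZ.1 X hX)) ?_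
      intro v hv
      exact_mod_cast hw v hv
    have hgood : ∀ X : Matrix ι ι ℚ, Good h X → dact (cx X) D = 0 := by
      rintro X (hX | ⟨A, B, hA, hB, rfl⟩)
      · exact hkill _ (cx_mem hX)
      · rw [hD _ (fun Z hZ => comm_AB hA hB hZ)]
        have h1 : ∀ j, Matrix.trace (cx (A * B - B * A) * d.q j) = 0 := fun j => trace_AB hB (d.q_cen j)
        simp only [h1, mul_zero, Finset.sum_const_zero, zero_smul]
    have hfixD : act (expGL W 1) D = D := by
      have hsp := mem_span_weil hgood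
      refine span_fix (P := fun u => IsHodge h u ∧ IsWeil h u)
        (fun x hx => hfix a b (ha.trans hbound) (hb.trans hbound) x hx.1 hx.2) ?_
      refine Submodule.span_mono ?_ hsp
      rintro _ ⟨u, hu1, hu2, rfl⟩
      exact ⟨u, ⟨hu1, hu2⟩, rfl⟩
    rw [act_eig (hD W (fun Z hZ => hW.comm hZ)) 1, one_mul] at hfixD
    have hexp : Complex.exp (∑ j, (w j : ℂ) * Matrix.trace (W * d.q j)) = 1 := by
      obtain ⟨e, he⟩ := Function.ne_iff.1 hD0
      have h1 := congrFun hfixD e
      rw [Pi.smul_apply, smul_eq_mul] at h1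
      exact mul_right_cancel₀ he (by rw [h1, one_mul])
    obtain ⟨z, hz⟩ := Complex.exp_eq_one_iff.1 hexp
    refine ⟨z, ?_⟩
    apply mul_left_cancel₀ hpi
    rw [mul_comm _ (z : ℂ), ← hz, Finset.mul_sum]
    refine Finset.sum_congr rfl fun j _ => ?_
    rw [ht j]
    ring
  have hall := reduce_int (trSet h d) (Fintype.card ι * H) (tr_bound hH d) t hsmall
  let Λ : AddSubgroup (ι → ℤ) :=
    { carrier := {w | ∀ v ∈ trSet h d, ∑ j, w j * v j = 0}
      add_mem' := by
        intro w w' hw hw' v hv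
        have h1 := hw v hv
        have h2 := hw' v hv
        simp only [Pi.add_apply, add_mul, Finset.sum_add_distrib, h1, h2, add_zero]
      zero_mem' := by
        intro v _
        simp only [Pi.zero_apply, zero_mul, Finset.sum_const_zero]
      neg_mem' := by
        intro w hw v hv
        have h1 := hw v hv
        simp only [Pi.neg_apply, neg_mul, Finset.sum_neg_distrib, h1, neg_zero] }
  have hΛ : ∀ (k : ℤ) (v : ι → ℤ), k ≠ 0 → k • v ∈ Λ → v ∈ Λ := by
    intro k w hk hw v hv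
    have h1 : ∑ j, (k • w) j * v j = 0 := hw v hv
    have h2 : k * ∑ j, w j * v j = 0 := by
      rw [← h1, Finset.mul_sum]
      refine Finset.sum_congr rfl fun j _ => ?_
      rw [Pi.smul_apply, smul_eq_mul, mul_assoc]
    exact (mul_eq_zero.1 h2).resolve_left hk
  obtain ⟨v, hv⟩ := ext_hom Λ hΛ t (fun w hw => hall w hw)
  have hy : (fun j => t j - (v j : ℂ)) ∈
      Submodule.span ℂ {x : ι → ℂ | ∃ w ∈ trSet h d, x = fun j => ((w j : ℤ) : ℂ)} := by
    by_contra hcon
    obtain ⟨e, -, he2, he3⟩ := small_orth (trSet h d) (Fintype.card ι * H) (tr_bound hH d) _ hcon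
    apply he3
    have h1 := hv e he2
    have h2 : ∑ j, (e j : ℂ) * (t j - (v j : ℂ)) = ∑ j, t j * (e j : ℂ) - ∑ j, (v j : ℂ) * (e j : ℂ) := by
      rw [← Finset.sum_sub_distrib]
      refine Finset.sum_congr rfl fun j _ => ?_
      ring
    rw [h2, h1, sub_self]
  obtain ⟨X, hX, hXt⟩ : ∃ X ∈ mtLieC h, (fun j => t j - (v j : ℂ)) = fun j => Matrix.trace (X * d.q j) := by
    generalize (fun j => t j - (v j : ℂ)) = y at hy
    induction hy using Submodule.span_induction with
    | mem x hx =>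
      obtain ⟨w, hw, rfl⟩ := hx
      obtain ⟨X, hX, hXw⟩ := tr_mem d hw
      exact ⟨X, hX, by funext j; exact (hXw j).symm⟩
    | zero => exact ⟨0, Submodule.zero_mem _, by funext j; simp⟩
    | add x y _ _ hx hy =>
      obtain ⟨X, hX, rfl⟩ := hx
      obtain ⟨X', hX', rfl⟩ := hy
      refine ⟨X + X', Submodule.add_mem _ hX hX', ?_⟩
      funext j
      rw [Pi.add_apply, Matrix.add_mul, Matrix.trace_add]
    | smul c x _ hx =>
      obtain ⟨X, hX, rfl⟩ := hx
      refine ⟨c • X, Submodule.smul_mem _ _ hX, ?_⟩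
      funext j
      rw [Pi.smul_apply, Matrix.smul_mul, Matrix.trace_smul]
  obtain ⟨Z, hZ, hZc, hZt⟩ := mt_decomp hS
    (Submodule.smul_mem (mtLieC h) (2 * Real.pi * Complex.I : ℂ) hX)
  refine ⟨Z, hZ, hZc, fun i => ⟨v i, ?_⟩⟩
  have h1 := congrFun hXt i
  rw [Matrix.sub_mul, Matrix.trace_sub, hZt _ (d.q_cen i), Matrix.smul_mul, Matrix.trace_smul, ← h1,
    ht i, smul_eq_mul]
  ring

end Pool.Agent.Work.MP_0da4e0_ag.Ex
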