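import Pool.Agent.Work.MP_0da4e0_ag.Ex.GlD
import Pool.Agent.Work.MP_0da4e0_ag.Fx.CjInv
import Pool.Agent.Work.MP_0da4e0_ag.Fx.FixInv
import Pool.Agent.Work.MP_0da4e0_ag.Fx.SplitC

/-! MP_0da4e0_ag, exact Weil criterion, module CentralMem: a central matrix fixing the mixed Weil Hodge tensors of
bounded bidegree fixes all Hodge tensors.

PROOF. n = card ι, M = 16 n^6, N = mixN n H = n * (M + M + n * (n * E)), E = n! * (n * H + 1)^n (ring). cen_exp: c = expGL W 1, W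
in cen (mtLieC h), Cen h W (cen_iff). d from exists_Diag hS. split_c with hfix from hmix for p = q = 0: for
x : Tens ι a b ℚ a Weil Hodge tensor, let x' : Tens ι (0 + a) (0 + b) ℚ be x with casted indices
(x' e = x (e.1 ∘ Fin.cast .., e.2 ∘ Fin.cast ..)); easiest: generalize, since 0 + a = a (Nat.zero_add), by
transport: prove for all a' b' with a' = a, b' = b and subst; the slice of x' at (u, v) is x, as
Fin.append u e = e ∘ Fin.cast for u : Fin 0 → ι (Fin.elim0_append or Fin.append_left_nil).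
It gives Z in mtLieC h, Cen h Z. Q = (1 / (2 π I)) • (W - Z), Cen h Q, trace (Q * d.q i) an integer, and
expGL Q (2 π I) = expGL (W - Z) 1 = c * (expGL Z 1)⁻¹ =: f (expGL_add_of_commute, expGL_neg_inv; Z W = W Z). As
expGL Z 1 is in Gp (mtLieC h) (expGL_mem), it fixes ratT ℂ x for every Hodge tensor x, so f fixes the mixed Weil
Hodge tensors. fix_inv; small_inv_cj with P from exists_star hS, mt_algebraic, idem_int: f is in Gp (mtLieC h), and so
is c = f * expGL Z 1. -/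

open Matrix

namespace Pool.Agent.Work.MP_0da4e0_ag.Ex

variable {ι : Type} [Fintype ι] [DecidableEq ι]

private theorem cast_aux {h : HodgeStr ι} {c : GL ι ℂ} {a b a' b' : ℕ} (ha : a' = a) (hb : b' = b)
    (H0 : ∀ x : Tens ι a' b' ℚ, IsHodge h x →
      IsWeil h (a := a) (b := b) (fun e => x (e.1 ∘ Fin.cast ha, e.2 ∘ Fin.cast hb)) →
      act c (ratT ℂ x) = ratT ℂ x) :
    ∀ x : Tens ι a b ℚ, IsHodge h x → IsWeil h x → act c (ratT ℂ x) = ratT ℂ x := by
  subst ha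
  subst hb
  intro x hx hxW
  exact H0 x hx hxW

private theorem mix0 {h : HodgeStr ι} {c : GL ι ℂ} {a b : ℕ}
    (H0 : ∀ x : Tens ι (0 + a) (0 + b) ℚ, IsHodge h x → WeilSlices h 0 0 a b x →
      act c (ratT ℂ x) = ratT ℂ x) :
    ∀ x : Tens ι a b ℚ, IsHodge h x → IsWeil h x → act c (ratT ℂ x) = ratT ℂ x := by
  refine cast_aux (Nat.zero_add a) (Nat.zero_add b) (fun x hx hxW => H0 x hx ?_)
  intro u v
  have h1 : ∀ (e : (Fin a → ι) × (Fin b → ι)), (Fin.append u e.1, Fin.append v e.2) =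
      (e.1 ∘ Fin.cast (Nat.zero_add a), e.2 ∘ Fin.cast (Nat.zero_add b)) := by
    intro e
    rw [Fin.append_left_nil u e.1 rfl, Fin.append_left_nil v e.2 rfl]
  simp only [h1]
  exact hxW

private theorem cen_sub {h : HodgeStr ι} {W Z : Matrix ι ι ℂ} (hW : Cen h W) (hZ : Cen h Z) (k : ℂ) :
    Cen h (k • (W - Z)) := by
  rw [cen_iff] at hW hZ ⊢
  exact Submodule.smul_mem _ _ (Submodule.sub_mem _ hW hZ)

theorem central_mem {h : HodgeStr ι} {S : Matrix ι ι ℚ} (hS : Polarizes h S) {H : ℕ}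
    (hH : ∀ p q : ℤ, h.V (p, q) ≠ ⊥ → |p| ≤ H) (hn : 1 ≤ Fintype.card ι) (c : GL ι ℂ)
    (hc : (c : Matrix ι ι ℂ) ∈ cen (mtLieC h))
    (hmix : ∀ p q a b : ℕ, p ≤ 16 * Fintype.card ι ^ 6 → q ≤ 16 * Fintype.card ι ^ 6 →
      a ≤ mixN (Fintype.card ι) H → b ≤ mixN (Fintype.card ι) H →
      ∀ x : Tens ι (p + a) (q + b) ℚ, IsHodge h x → WeilSlices h p q a b x →
      act c (ratT ℂ x) = ratT ℂ x) : c ∈ Gp (mtLieC h) := by
  have hpi : (2 * Real.pi * Complex.I : ℂ) ≠ 0 := Complex.two_pi_I_ne_zero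
  have hN : Fintype.card ι * (16 * Fintype.card ι ^ 6 + 16 * Fintype.card ι ^ 6 + Fintype.card ι *
      (Fintype.card ι * ((Fintype.card ι).factorial * (Fintype.card ι * H + 1) ^ Fintype.card ι))) =
      mixN (Fintype.card ι) H := by
    rw [mixN]
    ring
  obtain ⟨W, hWc, hWe⟩ := cen_exp hS hc
  have hW : Cen h W := cen_iff.2 hWc
  obtain ⟨d⟩ := exists_Diag hS
  obtain ⟨Z, hZ, hZc, hZt⟩ := split_c hS hH d hW (N := mixN (Fintype.card ι) H)
    (by rw [← hN]; exact Nat.mul_le_mul_left _ (Nat.le_add_left _ _)) (by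
    intro a b ha hb x hx hxW
    rw [hWe]
    exact mix0 (fun x hx hxW => hmix 0 0 a b (Nat.zero_le _) (Nat.zero_le _) ha hb x hx hxW) x hx hxW)
  set Q : Matrix ι ι ℂ := (2 * Real.pi * Complex.I : ℂ)⁻¹ • (W - Z) with hQdef
  have hQ : Cen h Q := cen_sub hW hZc _
  have hQi : ∀ i, ∃ z : ℤ, Matrix.trace (Q * d.q i) = z := by
    intro i
    obtain ⟨z, hz⟩ := hZt i
    refine ⟨z, ?_⟩
    rw [hQdef, Matrix.smul_mul, Matrix.trace_smul, hz, smul_eq_mul, ← mul_assoc, inv_mul_cancel₀ hpi,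
      one_mul]
  have hfQ : expGL Q (2 * Real.pi * Complex.I) = expGL (W - Z) 1 := by
    apply Units.ext
    change NormedSpace.exp ((2 * Real.pi * Complex.I : ℂ) • Q) = NormedSpace.exp ((1 : ℂ) • (W - Z))
    rw [hQdef, smul_smul, mul_inv_cancel₀ hpi]
  have hfc : expGL Q (2 * Real.pi * Complex.I) * expGL Z 1 = c := by
    have h1 : (W - Z) * Z = Z * (W - Z) := by
      rw [Matrix.sub_mul, Matrix.mul_sub, hW.comm hZc]
    rw [hfQ, ← expGL_add_of_commute h1, sub_add_cancel, hWe]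
  have hinv := fix_inv hS hH d hQ hQi (M := 16 * Fintype.card ι ^ 6) (N := mixN (Fintype.card ι) H)
    hN.le (by
    intro p q a b hp hq ha hb x hx hxW
    have h1 : act (expGL Z 1) (ratT ℂ x) = ratT ℂ x := act_expGL_fix (hZ _ _ x hx) 1
    have h2 := hmix p q a b hp hq ha hb x hx hxW
    rw [← hfc, act_mul, h1] at h2
    exact h2)
  obtain ⟨P, hP⟩ := exists_star hS
  have hf := small_inv_cj hP (mt_algebraic h) hn (cen_iff.1 hQ) (idem_int d hQi) hinv
  rw [← hfc]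
  exact (Gp (mtLieC h)).mul_mem hf (expGL_mem hZ 1)

end Pool.Agent.Work.MP_0da4e0_ag.Ex
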