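import Pool.Agent.Work.MP_0da4e0_ag.Ex.Core

/-! MP_0da4e0_ag, exact Weil criterion: definitions. -/

open Matrix

namespace Pool.Agent.Work.MP_0da4e0_ag.Ex

variable {ι : Type} [Fintype ι] [DecidableEq ι]

/-- the tensor `t` is killed by all elements of `m` whose products with the idempotents of `cen m` have
trace zero, and fixed by `exp (2 π i Z)` for all elements `Z` of `m` and `cen m` whose products with the
idempotents of `cen m` have integral traces -/
def Inv1 (m : Submodule ℂ (Matrix ι ι ℂ)) {p q : ℕ} (t : Tens ι p q ℂ) : Prop :=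
  (∀ X ∈ m, (∀ e ∈ cen m, e * e = e → Matrix.trace (X * e) = 0) → dact X t = 0) ∧
  (∀ Z ∈ m, Z ∈ cen m → (∀ e ∈ cen m, e * e = e → ∃ z : ℤ, Matrix.trace (Z * e) = z) →
    act (expGL Z (2 * Real.pi * Complex.I)) t = t)

/-- unitary matrices as invertible matrices -/
def uGL : Matrix.unitaryGroup ι ℂ →* GL ι ℂ := Unitary.toUnits

theorem coe_uGL (k : Matrix.unitaryGroup ι ℂ) : ((uGL k : GL ι ℂ) : Matrix ι ι ℂ) = (k : Matrix ι ι ℂ) := rfl

theorem uGL_star_mul (k : Matrix.unitaryGroup ι ℂ) :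
    ((uGL k : GL ι ℂ) : Matrix ι ι ℂ)ᴴ * ((uGL k : GL ι ℂ) : Matrix ι ι ℂ) = 1 :=
  Unitary.coe_star_mul_self k

theorem uGL_inv (k : Matrix.unitaryGroup ι ℂ) :
    (((uGL k)⁻¹ : GL ι ℂ) : Matrix ι ι ℂ) = (k : Matrix ι ι ℂ)ᴴ := rfl

/-- elements of `Gp m` commute with elements of `cen m` -/
theorem Gp_comm_cen {m : Submodule ℂ (Matrix ι ι ℂ)} {g : GL ι ℂ} (hg : g ∈ Gp m) {e : Matrix ι ι ℂ}
    (he : e ∈ cen m) : (g : Matrix ι ι ℂ) * e = e * (g : Matrix ι ι ℂ) := Gp_com hg he.1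

theorem bdet_mul {A B e : Matrix ι ι ℂ} (he : e * e = e) (hB : B * e = e * B) :
    (A * e + (1 - e)) * (B * e + (1 - e)) = A * B * e + (1 - e) := by
  have h1 : A * e * (B * e) = A * B * e := by
    rw [Matrix.mul_assoc A e, ← Matrix.mul_assoc e B e, ← hB, Matrix.mul_assoc B e e, he,
      ← Matrix.mul_assoc]
  have h2 : A * e * (1 - e) = 0 := by rw [Matrix.mul_sub, Matrix.mul_one, Matrix.mul_assoc, he, sub_self]
  have h3 : (1 - e) * (B * e) = 0 := by
    rw [Matrix.sub_mul, Matrix.one_mul, ← Matrix.mul_assoc, ← hB, Matrix.mul_assoc, he, sub_self]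
  have h4 : (1 - e) * (1 - e) = 1 - e := by
    rw [Matrix.mul_sub, Matrix.mul_one, Matrix.sub_mul, Matrix.one_mul, he, sub_self, sub_zero]
  rw [Matrix.add_mul, Matrix.mul_add, Matrix.mul_add, h1, h2, h3, h4, add_zero, zero_add]

/-- the unitary elements of `Gp m` of determinant one on the images of the idempotents of `cen m` -/
def Kp (m : Submodule ℂ (Matrix ι ι ℂ)) : Subgroup (Matrix.unitaryGroup ι ℂ) where
  carrier := {k | uGL k ∈ Gp m ∧ ∀ e ∈ cen m, e * e = e → ((k : Matrix ι ι ℂ) * e + (1 - e)).det = 1}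
  mul_mem' := by
    rintro k k' ⟨h1, h2⟩ ⟨h3, h4⟩
    refine ⟨by rw [map_mul]; exact (Gp m).mul_mem h1 h3, fun e he hee => ?_⟩
    have hB := Gp_comm_cen h3 he
    rw [coe_uGL] at hB
    have h5 := congrArg Matrix.det (bdet_mul (A := (k : Matrix ι ι ℂ)) hee hB)
    rw [Matrix.det_mul, h2 e he hee, h4 e he hee, mul_one] at h5
    exact h5.symm
  one_mem' := by
    refine ⟨by rw [map_one]; exact (Gp m).one_mem, fun e _ _ => ?_⟩
    have h1 : ((1 : Matrix.unitaryGroup ι ℂ) : Matrix ι ι ℂ) * e + (1 - e) = 1 := by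
      rw [OneMemClass.coe_one, Matrix.one_mul]
      abel
    rw [h1, Matrix.det_one]
  inv_mem' := by
    rintro k ⟨h1, h2⟩
    have h3 : uGL k⁻¹ ∈ Gp m := by rw [map_inv]; exact (Gp m).inv_mem h1
    refine ⟨h3, fun e he hee => ?_⟩
    have hB := Gp_comm_cen h3 he
    rw [coe_uGL] at hB
    have h5 := congrArg Matrix.det (bdet_mul (A := (k : Matrix ι ι ℂ)) hee hB)
    have h6 : (k : Matrix ι ι ℂ) * ((k⁻¹ : Matrix.unitaryGroup ι ℂ) : Matrix ι ι ℂ) = 1 := by
      rw [← Submonoid.coe_mul, mul_inv_cancel, OneMemClass.coe_one]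
    rw [Matrix.det_mul, h2 e he hee, one_mul, h6, Matrix.one_mul] at h5
    rw [h5]
    have h7 : e + (1 - e) = 1 := by abel
    rw [h7, Matrix.det_one]

end Pool.Agent.Work.MP_0da4e0_ag.Ex
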