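import Pool.Agent.Work.MP_0da4e0_ag.Fx.Defs
import Pool.Agent.Work.MP_0da4e0_ag.WeilDefs
import Pool.Agent.Work.MP_0da4e0_ag.WeilMain

/-! MP_0da4e0_ag, exact Weil criterion: definitions on the Hodge side. -/

open Matrix

namespace Pool.Agent.Work.MP_0da4e0_ag.Ex

variable {ι : Type} [Fintype ι] [DecidableEq ι]

/-- All tensors of bidegree `(a, b)` obtained from `x` by fixing the first `p` upper indices and the first
`q` lower indices are Weil tensors: `x` is in the tensor product of the space of all tensors of bidegree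
`(p, q)` and the space of Weil tensors of bidegree `(a, b)`. -/
def WeilSlices (h : HodgeStr ι) (p q a b : ℕ) (x : Tens ι (p + a) (q + b) ℚ) : Prop :=
  ∀ (u : Fin p → ι) (v : Fin q → ι), IsWeil h (a := a) (b := b)
    (fun e => x (Fin.append u e.1, Fin.append v e.2))

/-- the bound for the Weil bidegree -/
def mixN (n H : ℕ) : ℕ := 32 * n ^ 7 + n ^ 3 * n.factorial * (n * H + 1) ^ n

/-- the traces of the conjugates of the generators of the Hodge torus on the images of the idempotents -/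
def trSet (h : HodgeStr ι) (d : Diag h) : Set (ι → ℤ) :=
  {v | ∃ θ : ℂ ≃+* ℂ, ∃ F ∈ mtLieC h, ∃ α β : ℤ, ((α = 1 ∧ β = 0) ∨ (α = 0 ∧ β = 1)) ∧
    (∀ (p q : ℤ) (v : ι → ℂ), v ∈ h.V (p, q) → F *ᵥ v = ((α * p + β * q : ℤ) : ℂ) • v) ∧
    ∀ j, Matrix.trace (F.map (θ : ℂ →+* ℂ) * d.q j) = ((v j : ℤ) : ℂ)}

/-- the tensors with the property `Inv1` -/
def invS (m : Submodule ℂ (Matrix ι ι ℂ)) (p q : ℕ) : Submodule ℂ (Tens ι p q ℂ) where
  carrier := {t | Inv1 m t}
  add_mem' := by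
    rintro s t ⟨h1, h2⟩ ⟨h3, h4⟩
    refine ⟨fun X hX hX0 => ?_, fun Z hZ hZc hZi => ?_⟩
    · rw [dact, Matrix.mulVec_add]
      change dact X s + dact X t = 0
      rw [h1 X hX hX0, h3 X hX hX0, add_zero]
    · rw [act_add, h2 Z hZ hZc hZi, h4 Z hZ hZc hZi]
  zero_mem' := by
    refine ⟨fun X _ _ => ?_, fun Z _ _ _ => ?_⟩
    · rw [dact, Matrix.mulVec_zero]
    · rw [act_eq, Matrix.mulVec_zero]
  smul_mem' := by
    rintro c t ⟨h1, h2⟩
    refine ⟨fun X hX hX0 => ?_, fun Z hZ hZc hZi => ?_⟩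
    · rw [dact_tsmul, h1 X hX hX0, smul_zero]
    · rw [act_smul, h2 Z hZ hZc hZi]

end Pool.Agent.Work.MP_0da4e0_ag.Ex
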