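import Mathlib

/-! MP_0da4e0_ag, exact Weil criterion, module EigDec: decomposition of a vector into common eigenvectors.

PROOF. Choose c A : E → ℂ for A in F (hU). i ~ j if c A i = c A j for all A in F: an equivalence relation on E.
For a class C let P C = U * diagonal (indicator of C) * U⁻¹ and s C = P C t. The sum of the P C is 1, so
t = ∑ s C. A * P C = (c A at C) • P C, so A (s C) = (c A at C) • s C. Let Y be stable under F, t in Y. For every class
C' ≠ C there is A in F with c A at C ≠ c A at C'; P C is the product over the classes C' ≠ C of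
(A - (c A at C') • 1) / (c A at C - c A at C') (all matrices are diagonal in the basis U), and each factor maps Y
to Y. So s C = P C t is in Y. (Index the classes by Fin r, e.g. by an equivalence of the quotient with
Fin (card) — or use Finset sums over E with weights: it is also enough to take r = card E and
s l = (1 / card of the class of l) • P (class of l) t, which avoids the quotient.) -/

open Matrix

namespace Pool.Agent.Work.MP_0da4e0_ag.Ex

theorem eig_dec {E : Type} [Fintype E] [DecidableEq E] (F : Set (Matrix E E ℂ)) (U : GL E ℂ)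
    (hU : ∀ A ∈ F, ∃ c : E → ℂ, A * (U : Matrix E E ℂ) = (U : Matrix E E ℂ) * Matrix.diagonal c)
    (t : E → ℂ) :
    ∃ (r : ℕ) (s : Fin r → E → ℂ), t = ∑ l, s l ∧ ∀ l, (∀ A ∈ F, ∃ c : ℂ, A *ᵥ s l = c • s l) ∧
      ∀ Y : Submodule ℂ (E → ℂ), t ∈ Y → (∀ A ∈ F, ∀ y ∈ Y, A *ᵥ y ∈ Y) → s l ∈ Y := by
  classical
  choose! c hc using hU
  obtain ⟨cl, hcl⟩ : ∃ cl : E → Finset E, ∀ e e', e' ∈ cl e ↔ ∀ A ∈ F, c A e' = c A e :=
    ⟨fun e => Finset.univ.filter (fun e' => ∀ A ∈ F, c A e' = c A e), fun e e' => by simp⟩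
  obtain ⟨t', ht'⟩ : ∃ t' : E → ℂ, (U : Matrix E E ℂ) *ᵥ t' = t :=
    ⟨((U⁻¹ : GL E ℂ) : Matrix E E ℂ) *ᵥ t, by
      rw [Matrix.mulVec_mulVec, ← Units.val_mul, mul_inv_cancel, Units.val_one,
        Matrix.one_mulVec]⟩
  obtain ⟨ind, hind⟩ : ∃ ind : E → E → ℂ, ∀ e x, ind e x = if x ∈ cl e then 1 else 0 :=
    ⟨fun e x => if x ∈ cl e then 1 else 0, fun _ _ => rfl⟩
  have hA : ∀ A ∈ F, ∀ w : E → ℂ, A *ᵥ ((U : Matrix E E ℂ) *ᵥ w) =
      (U : Matrix E E ℂ) *ᵥ (c A * w) := by
    intro A hAF w
    rw [Matrix.mulVec_mulVec, hc A hAF, ← Matrix.mulVec_mulVec]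
    congr 1
    funext x
    rw [Matrix.mulVec_diagonal]
    rfl
  have hself : ∀ x, x ∈ cl x := fun x => (hcl x x).2 fun _ _ => rfl
  have hcleq : ∀ x e, x ∈ cl e → cl e = cl x := by
    intro x e hx
    ext y
    rw [hcl, hcl]
    have h1 := (hcl e x).1 hx
    exact ⟨fun h A hA' => (h A hA').trans (h1 A hA').symm,
      fun h A hA' => (h A hA').trans (h1 A hA')⟩
  have hsymm : ∀ x e, x ∈ cl e ↔ e ∈ cl x := by
    intro x e
    rw [hcl, hcl]
    exact ⟨fun h A hA' => (h A hA').symm, fun h A hA' => (h A hA').symm⟩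
  have hone : ∀ x, ∑ e, ((cl e).card : ℂ)⁻¹ * ind e x = 1 := by
    intro x
    have h1 : ∀ e, ((cl e).card : ℂ)⁻¹ * ind e x = if e ∈ cl x then ((cl x).card : ℂ)⁻¹ else 0 := by
      intro e
      rw [hind]
      by_cases h : x ∈ cl e
      · rw [if_pos h, if_pos ((hsymm x e).1 h), mul_one, hcleq x e h]
      · rw [if_neg h, if_neg (fun h' => h ((hsymm x e).2 h')), mul_zero]
    simp only [h1]
    rw [Finset.sum_ite_mem, Finset.univ_inter, Finset.sum_const, nsmul_eq_mul]
    apply mul_inv_cancel₀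
    exact Nat.cast_ne_zero.2 (Finset.card_ne_zero_of_mem (hself x))
  have hsum : t = ∑ e, ((cl e).card : ℂ)⁻¹ • ((U : Matrix E E ℂ) *ᵥ (ind e * t')) := by
    have h1 : ∑ e, ((cl e).card : ℂ)⁻¹ • (ind e * t') = t' := by
      funext x
      rw [Finset.sum_apply]
      simp only [Pi.smul_apply, Pi.mul_apply, smul_eq_mul, ← mul_assoc]
      rw [← Finset.sum_mul, hone, one_mul]
    conv_lhs => rw [← ht', ← h1]
    rw [Matrix.mulVec_sum]
    refine Finset.sum_congr rfl fun e _ => ?_
    rw [Matrix.mulVec_smul]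
  refine ⟨Fintype.card E, fun l => ((cl ((Fintype.equivFin E).symm l)).card : ℂ)⁻¹ •
    ((U : Matrix E E ℂ) *ᵥ (ind ((Fintype.equivFin E).symm l) * t')), ?_, ?_⟩
  · rw [hsum]
    exact ((Fintype.equivFin E).symm.sum_comp
      (fun e => ((cl e).card : ℂ)⁻¹ • ((U : Matrix E E ℂ) *ᵥ (ind e * t')))).symm
  · intro l
    beta_reduce
    generalize (Fintype.equivFin E).symm l = e
    refine ⟨fun A hAF => ⟨c A e, ?_⟩, fun Y htY hYF => ?_⟩
    · rw [Matrix.mulVec_smul, hA A hAF, smul_comm]
      congr 1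
      rw [← Matrix.mulVec_smul]
      congr 1
      funext x
      simp only [Pi.mul_apply, Pi.smul_apply, smul_eq_mul]
      rw [hind]
      by_cases h : x ∈ cl e
      · rw [(hcl e x).1 h A hAF]
      · rw [if_neg h]; ring
    · apply Y.smul_mem
      have hS : ∀ (T : Finset E) (f : E → E → ℂ),
          (∀ i ∈ T, ∀ w : E → ℂ, (U : Matrix E E ℂ) *ᵥ w ∈ Y → (U : Matrix E E ℂ) *ᵥ (f i * w) ∈ Y) →
          ∀ w : E → ℂ, (U : Matrix E E ℂ) *ᵥ w ∈ Y →
            (U : Matrix E E ℂ) *ᵥ ((∏ i ∈ T, f i) * w) ∈ Y := by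
        intro T
        induction T using Finset.induction_on with
        | empty =>
          intro f _ w hw
          rw [Finset.prod_empty, one_mul]
          exact hw
        | insert i T hi ih =>
          intro f hf w hw
          rw [Finset.prod_insert hi, mul_assoc]
          exact hf i (Finset.mem_insert_self i T) _
            (ih f (fun j hj => hf j (Finset.mem_insert_of_mem hj)) w hw)
      have hex : ∀ e', ∃ A, e' ∉ cl e → A ∈ F ∧ c A e' ≠ c A e := by
        intro e'
        by_cases h : e' ∈ cl e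
        · exact ⟨0, fun h' => absurd h h'⟩
        · have h1 := h
          rw [hcl] at h1
          push Not at h1
          obtain ⟨A, hAF, hne⟩ := h1
          exact ⟨A, fun _ => ⟨hAF, hne⟩⟩
      choose B hB using hex
      let f : E → E → ℂ := fun e' x => (c (B e') x - c (B e') e') * (c (B e') e - c (B e') e')⁻¹
      have hprod : ind e = ∏ e' ∈ Finset.univ \ cl e, f e' := by
        funext x
        rw [hind, Finset.prod_apply]
        by_cases h : x ∈ cl e
        · rw [if_pos h]
          symm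
          apply Finset.prod_eq_one
          intro e' he'
          have h1 := hB e' (Finset.mem_sdiff.1 he').2
          change (c (B e') x - c (B e') e') * (c (B e') e - c (B e') e')⁻¹ = 1
          rw [(hcl e x).1 h _ h1.1]
          exact mul_inv_cancel₀ (sub_ne_zero.2 h1.2.symm)
        · rw [if_neg h]
          symm
          apply Finset.prod_eq_zero (Finset.mem_sdiff.2 ⟨Finset.mem_univ x, h⟩)
          change (c (B x) x - c (B x) x) * (c (B x) e - c (B x) x)⁻¹ = 0
          rw [sub_self, zero_mul]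
      rw [hprod]
      refine hS _ f ?_ t' (by rw [ht']; exact htY)
      intro e' he' w hw
      have h1 := hB e' (Finset.mem_sdiff.1 he').2
      have h2 : f e' * w = (c (B e') e - c (B e') e')⁻¹ • (c (B e') * w - c (B e') e' • w) := by
        funext x
        simp only [f, Pi.mul_apply, Pi.smul_apply, Pi.sub_apply, smul_eq_mul]
        ring
      rw [h2, Matrix.mulVec_smul, Matrix.mulVec_sub, Matrix.mulVec_smul, ← hA _ h1.1]
      exact Y.smul_mem _ (Y.sub_mem (hYF _ h1.1 _ hw) (Y.smul_mem _ hw))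

end Pool.Agent.Work.MP_0da4e0_ag.Ex
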