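import Mathlib

/-! MP_0da4e0_ag, exact Weil criterion, module FNum: a numerical inequality.

PROOF. Let e = 16 n^6, L = log (e + 1). L ≤ 4 n (n = 1: log 17 < 4; in general e + 1 ≤ 17 n^6 ≤ exp (4 n), e.g.
because exp (4 n) = exp 4 * exp (4 (n - 1)) ≥ 54 * exp (6 (n - 1) * 2 / 3) and n ≤ exp ((n - 1) * 2 / 3) for
n ≥ 1 ... choose your own proof; n = 1, 2 can be done numerically, and 17 n^6 ≤ exp (4 n) follows for all n ≥ 1
by induction since ((n + 1) / n)^6 ≤ exp (6 / n) ≤ exp 4 for n ≥ 2 and 2^6 = 64 ≤ exp 4 * 2 ... ).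
Suppose x^2 < (n + 1)^2 - 1 / n =: (n + 1)^2 (1 - δ), δ = 1 / (n (n + 1)^2). Then
x^(2 e) = (x^2)^e ≤ (n + 1)^(2 e) (1 - δ)^e ≤ (n + 1)^(2 e) exp (-δ e), strictly unless e = 0 (e > 0), and
(e + 1)^(n^2) = exp (n^2 L) ≤ exp (4 n^3). As (n + 1)^2 ≤ 4 n^2: δ e = 16 n^5 / (n + 1)^2 ≥ 4 n^3. So
(e + 1)^(n^2) * x^(2 e) < (n + 1)^(2 e), a contradiction. -/

namespace Pool.Agent.Work.MP_0da4e0_ag.Ex

private theorem exp_four : (53 : ℝ) ≤ Real.exp 4 := by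
  have h1 : (2.7 : ℝ) ≤ Real.exp 1 := by
    have := Real.exp_one_gt_d9
    linarith
  have h2 : Real.exp 4 = Real.exp 1 ^ 4 := by
    rw [← Real.exp_nat_mul]
    norm_num
  rw [h2]
  calc (53 : ℝ) ≤ 2.7 ^ 4 := by norm_num
    _ ≤ Real.exp 1 ^ 4 := by gcongr

private theorem exp_bd {n : ℕ} (hn : 1 ≤ n) : 17 * (n : ℝ) ^ 6 ≤ Real.exp (4 * n) := by
  have h4 := exp_four
  have h2 : ∀ m : ℕ, 17 * ((m : ℝ) + 2) ^ 6 ≤ Real.exp (4 * ((m : ℝ) + 2)) := by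
    intro m
    induction m with
    | zero =>
      have e1 : Real.exp (4 * (((0 : ℕ) : ℝ) + 2)) = Real.exp 4 * Real.exp 4 := by
        rw [← Real.exp_add]
        congr 1
        push_cast
        norm_num
      rw [e1]
      push_cast
      nlinarith
    | succ m ih =>
      have e1 : Real.exp (4 * (((m + 1 : ℕ) : ℝ) + 2)) = Real.exp 4 * Real.exp (4 * ((m : ℝ) + 2)) := by
        rw [← Real.exp_add]
        congr 1
        push_cast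
        ring
      rw [e1]
      have hm : (0 : ℝ) ≤ m := Nat.cast_nonneg m
      have h5 : (((m + 1 : ℕ) : ℝ) + 2) ^ 6 ≤ (1.5 * ((m : ℝ) + 2)) ^ 6 := by
        have h6 : ((m + 1 : ℕ) : ℝ) + 2 ≤ 1.5 * ((m : ℝ) + 2) := by
          push_cast
          linarith
        gcongr
      have h7 : (0 : ℝ) ≤ 17 * ((m : ℝ) + 2) ^ 6 := by positivity
      calc 17 * (((m + 1 : ℕ) : ℝ) + 2) ^ 6 ≤ 17 * (1.5 * ((m : ℝ) + 2)) ^ 6 := by gcongr
        _ = 1.5 ^ 6 * (17 * ((m : ℝ) + 2) ^ 6) := by ring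
        _ ≤ 53 * (17 * ((m : ℝ) + 2) ^ 6) := by
          refine mul_le_mul_of_nonneg_right (by norm_num) h7
        _ ≤ Real.exp 4 * Real.exp (4 * ((m : ℝ) + 2)) := by gcongr
  obtain _ | _ | m := n
  · omega
  · push_cast
    norm_num
    linarith
  · have h3 := h2 m
    push_cast
    have e2 : (m : ℝ) + 1 + 1 = m + 2 := by ring
    rw [e2]
    exact h3

theorem f_num {n : ℕ} (hn : 1 ≤ n) {x : ℝ} (hx : 0 ≤ x)
    (h : ((n : ℝ) + 1) ^ (2 * (16 * n ^ 6)) ≤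
      ((16 * n ^ 6 + 1 : ℕ) : ℝ) ^ (n ^ 2) * x ^ (2 * (16 * n ^ 6))) :
    ((n : ℝ) + 1) ^ 2 - 1 / n ≤ x ^ 2 := by
  by_contra hcon
  rw [not_le] at hcon
  have hn0 : (1 : ℝ) ≤ n := by exact_mod_cast hn
  have hnp : (0 : ℝ) < n := by linarith
  obtain ⟨e, he⟩ : ∃ e : ℕ, e = 16 * n ^ 6 := ⟨_, rfl⟩
  have he0 : e ≠ 0 := by
    rw [he]
    have : 0 < n ^ 6 := pow_pos (by omega) 6
    omega
  rw [← he] at h
  obtain ⟨a, ha⟩ : ∃ a : ℝ, a = ((n : ℝ) + 1) ^ 2 := ⟨_, rfl⟩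
  have ha0 : 0 < a := by rw [ha]; positivity
  have ha4 : a ≤ 4 * (n : ℝ) ^ 2 := by rw [ha]; nlinarith
  have ha1 : (4 : ℝ) ≤ a := by rw [ha]; nlinarith
  obtain ⟨δ, hδ⟩ : ∃ δ : ℝ, δ = 1 / (n * a) := ⟨_, rfl⟩
  have h1 : x ^ 2 < a * Real.exp (-δ) := by
    have h2 : a - 1 / n = a * (1 - δ) := by
      rw [hδ]
      field_simp
    have h3 : 1 - δ ≤ Real.exp (-δ) := Real.one_sub_le_exp_neg δ
    calc x ^ 2 < a - 1 / n := by rw [ha]; exact hcon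
      _ = a * (1 - δ) := h2
      _ ≤ a * Real.exp (-δ) := by gcongr
  have h2 : (x ^ 2) ^ e < (a * Real.exp (-δ)) ^ e := pow_lt_pow_left₀ h1 (sq_nonneg x) he0
  have h3 : (a * Real.exp (-δ)) ^ e = a ^ e * Real.exp (-(δ * e)) := by
    rw [mul_pow, ← Real.exp_nat_mul]
    congr 2
    ring
  have h4 : ((e + 1 : ℕ) : ℝ) ^ (n ^ 2) ≤ Real.exp (4 * (n : ℝ) ^ 3) := by
    have h5 : ((e + 1 : ℕ) : ℝ) ≤ Real.exp (4 * n) := by
      have h6 := exp_bd hn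
      have h7 : (1 : ℝ) ≤ (n : ℝ) ^ 6 := one_le_pow₀ hn0
      have h8 : ((e + 1 : ℕ) : ℝ) = 16 * (n : ℝ) ^ 6 + 1 := by
        rw [he]
        push_cast
        ring
      rw [h8]
      linarith
    calc ((e + 1 : ℕ) : ℝ) ^ (n ^ 2) ≤ Real.exp (4 * n) ^ (n ^ 2) := by gcongr
      _ = Real.exp (4 * (n : ℝ) ^ 3) := by
        rw [← Real.exp_nat_mul]
        congr 1
        push_cast
        ring
  have h5 : 4 * (n : ℝ) ^ 3 ≤ δ * e := by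
    have h6 : δ * e = 16 * (n : ℝ) ^ 5 / a := by
      rw [hδ, he]
      push_cast
      field_simp
    rw [h6, le_div_iff₀ ha0]
    calc 4 * (n : ℝ) ^ 3 * a ≤ 4 * (n : ℝ) ^ 3 * (4 * (n : ℝ) ^ 2) := by gcongr
      _ = 16 * (n : ℝ) ^ 5 := by ring
  have h6 : ((n : ℝ) + 1) ^ (2 * e) = a ^ e := by rw [ha, pow_mul]
  have h7 : x ^ (2 * e) = (x ^ 2) ^ e := pow_mul x 2 e
  rw [h6, h7] at h
  have h8 : (0 : ℝ) < ((e + 1 : ℕ) : ℝ) ^ (n ^ 2) := by positivity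
  have h9 : ((e + 1 : ℕ) : ℝ) ^ (n ^ 2) * (x ^ 2) ^ e < a ^ e := by
    calc ((e + 1 : ℕ) : ℝ) ^ (n ^ 2) * (x ^ 2) ^ e
        < ((e + 1 : ℕ) : ℝ) ^ (n ^ 2) * (a ^ e * Real.exp (-(δ * e))) := by
          rw [← h3]
          exact mul_lt_mul_of_pos_left h2 h8
      _ ≤ Real.exp (4 * (n : ℝ) ^ 3) * (a ^ e * Real.exp (-(δ * e))) := by gcongr
      _ = a ^ e * Real.exp (4 * (n : ℝ) ^ 3 - δ * e) := by
          rw [sub_eq_add_neg, Real.exp_add]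
          ring
      _ ≤ a ^ e * 1 := by
          gcongr
          exact Real.exp_le_one_iff.2 (by linarith)
      _ = a ^ e := mul_one _
  exact absurd h (not_le.2 h9)

end Pool.Agent.Work.MP_0da4e0_ag.Ex
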