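import Mathlib

/-! MP_0da4e0_ag, exact Weil criterion, module SymCard: the number of monomials of degree at most e.

PROOF. The map Sym (Option α) e → (α → Fin (e + 1)), s ↦ (a ↦ number of occurrences of some a in s), is
injective: the multiplicity of none is e minus the sum of the others (a multiset on a finite type is
determined by its multiplicities, Multiset.ext; the total is Multiset.card = e). So the cardinality is at most
(e + 1) ^ card α (Fintype.card_le_of_injective, Fintype.card_fun). -/

namespace Pool.Agent.Work.MP_0da4e0_ag.Ex

theorem sym_card (α : Type) [Fintype α] [DecidableEq α] (e : ℕ) :
    Fintype.card (Sym (Option α) e) ≤ (e + 1) ^ Fintype.card α := by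
  let f : Sym (Option α) e → (α → Fin (e + 1)) := fun s a =>
    ⟨(s : Multiset (Option α)).count (some a), by
      have h := Multiset.count_le_card (some a) (s : Multiset (Option α))
      rw [Sym.card_coe] at h
      omega⟩
  have hf : Function.Injective f := by
    intro s t hst
    have h1 : ∀ a : α, (s : Multiset (Option α)).count (some a) =
        (t : Multiset (Option α)).count (some a) := fun a => by
      have := congrFun hst a
      exact congrArg Fin.val this
    apply Subtype.ext
    change (s : Multiset (Option α)) = (t : Multiset (Option α))
    rw [Multiset.ext]
    intro o
    rcases o with _ | a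
    · have hs : ∑ o : Option α, (s : Multiset (Option α)).count o = e := by
        rw [Multiset.sum_count_eq_card (by simp)]
        exact Sym.card_coe
      have ht : ∑ o : Option α, (t : Multiset (Option α)).count o = e := by
        rw [Multiset.sum_count_eq_card (by simp)]
        exact Sym.card_coe
      rw [Fintype.sum_option] at hs ht
      rw [Finset.sum_congr rfl fun a _ => h1 a] at hs
      omega
    · exact h1 a
  refine (Fintype.card_le_of_injective f hf).trans (le_of_eq ?_)
  rw [Fintype.card_fun, Fintype.card_fin]

end Pool.Agent.Work.MP_0da4e0_ag.Ex
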