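import Pool.Agent.Work.MP_0da4e0_ag.Fx.HaarK
import Pool.Agent.Work.MP_0da4e0_ag.Fx.SymCard
import Pool.Agent.Work.MP_0da4e0_ag.Fx.FNum
import Pool.Agent.Work.MP_0da4e0_ag.Fx.AvgLow
import Pool.Agent.Work.MP_0da4e0_ag.Fx.AvgInv

/-! MP_0da4e0_ag, exact Weil criterion, module ExNear: a compact group whose small invariants are fixed by f
has an element near the inverse of f.

PROOF. exists_haar: measure μ on K (compact). ρ = uGL.comp K.subtype, continuous, unitary (uGL_star_mul).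
e = 16 n^6, n = card ι. avg_low and avg_inv: (n + 1)^(2e) ≤ D * ∫ k, ‖1 + trace (ρ k * f)‖^(2e), D = card (Sym ..)
≤ (e + 1)^(n^2) (sym_card with α = ι × ι, card (ι × ι) = n^2). If ‖1 + trace (ρ k * f)‖^(2e) < c for all k,
where c = (n + 1)^(2e) / D (D > 0 since the left side is positive), the integral of this continuous function on
the compact (nonempty) space K would be less than c (it attains its maximum; integral over a probability
measure ≤ maximum < c), a contradiction. So there is k with (n + 1)^(2e) ≤ D * x^(2e), x = ‖1 + trace (k * f)‖,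
and f_num gives the claim. -/

open Matrix MeasureTheory

namespace Pool.Agent.Work.MP_0da4e0_ag.Ex

variable {ι : Type} [Fintype ι] [DecidableEq ι]

theorem exists_near (K : Subgroup (Matrix.unitaryGroup ι ℂ))
    (hK : IsClosed (K : Set (Matrix.unitaryGroup ι ℂ))) (hn : 1 ≤ Fintype.card ι) (f : GL ι ℂ)
    (hf : (f : Matrix ι ι ℂ)ᴴ * (f : Matrix ι ι ℂ) = 1) (hfc : ∀ k ∈ K, f * uGL k = uGL k * f)
    (hfix : ∀ p q : ℕ, p ≤ 16 * Fintype.card ι ^ 6 → q ≤ 16 * Fintype.card ι ^ 6 →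
      ∀ t : Tens ι p q ℂ, (∀ k ∈ K, act (uGL k) t = t) → act f t = t) :
    ∃ k ∈ K, ((Fintype.card ι : ℝ) + 1) ^ 2 - 1 / (Fintype.card ι : ℝ) ≤
      ‖1 + Matrix.trace ((uGL k * f : GL ι ℂ) : Matrix ι ι ℂ)‖ ^ 2 := by
  obtain ⟨hc, mK, μ, hB, hP, hL⟩ := exists_haar K hK
  let ρ : K →* GL ι ℂ := uGL.comp K.subtype
  have hρc : Continuous fun k : K => ((ρ k : GL ι ℂ) : Matrix ι ι ℂ) := by
    have : (fun k : K => ((ρ k : GL ι ℂ) : Matrix ι ι ℂ)) = fun k : K => ((k : Matrix.unitaryGroup ι ℂ) : Matrix ι ι ℂ) := rfl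
    rw [this]
    exact continuous_subtype_val.comp continuous_subtype_val
  have hu : ∀ k : K, ((ρ k : GL ι ℂ) : Matrix ι ι ℂ)ᴴ * ((ρ k : GL ι ℂ) : Matrix ι ι ℂ) = 1 :=
    fun k => uGL_star_mul _
  set n := Fintype.card ι with hn'
  set e := 16 * n ^ 6 with he
  have h1 := avg_low μ ρ hρc hu e
  have h2 := avg_inv μ ρ hρc hu f hf (fun k => hfc _ k.2) e
    (fun p q hp hq t ht => hfix p q hp hq t (fun k hk => ht ⟨k, hk⟩))
  rw [← h2] at h1
  set F : K → ℝ := fun k => ‖1 + Matrix.trace (((ρ k * f : GL ι ℂ)) : Matrix ι ι ℂ)‖ ^ (2 * e) with hF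
  have hFc : Continuous F := by
    have : Continuous fun k : K => Matrix.trace (((ρ k * f : GL ι ℂ)) : Matrix ι ι ℂ) := by
      have h3 : (fun k : K => Matrix.trace (((ρ k * f : GL ι ℂ)) : Matrix ι ι ℂ)) =
          fun k : K => Matrix.trace (((ρ k : GL ι ℂ) : Matrix ι ι ℂ) * (f : Matrix ι ι ℂ)) := rfl
      rw [h3]
      exact (hρc.matrix_mul continuous_const).matrix_trace
    exact (continuous_const.add this).norm.pow _
  obtain ⟨k0, -, hk0⟩ := isCompact_univ.exists_isMaxOn (⟨1, trivial⟩ : (Set.univ : Set K).Nonempty) hFc.continuousOn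
  have hle : ∫ k, F k ∂μ ≤ F k0 := by
    have hint : Integrable F μ := by
      exact hFc.integrable_of_hasCompactSupport (HasCompactSupport.of_compactSpace F)
    calc ∫ k, F k ∂μ ≤ ∫ _k, F k0 ∂μ :=
          integral_mono hint (integrable_const _) (fun k => hk0 (Set.mem_univ k))
      _ = F k0 := by simp
  have hD : (Fintype.card (Sym (Option (ι × ι)) e) : ℝ) ≤ ((e + 1 : ℕ) : ℝ) ^ (n ^ 2) := by
    have h3 := sym_card (ι × ι) e
    rw [Fintype.card_prod, ← pow_two, ← hn'] at h3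
    exact_mod_cast h3
  have hF0 : 0 ≤ F k0 := by positivity
  have h4 : ((n : ℝ) + 1) ^ (2 * e) ≤ ((e + 1 : ℕ) : ℝ) ^ (n ^ 2) * F k0 := by
    calc ((n : ℝ) + 1) ^ (2 * e) ≤ (Fintype.card (Sym (Option (ι × ι)) e) : ℝ) * ∫ k, F k ∂μ := h1
      _ ≤ (Fintype.card (Sym (Option (ι × ι)) e) : ℝ) * F k0 :=
          mul_le_mul_of_nonneg_left hle (Nat.cast_nonneg _)
      _ ≤ _ := mul_le_mul_of_nonneg_right hD hF0
  exact ⟨k0, k0.2, f_num hn (norm_nonneg _) h4⟩

end Pool.Agent.Work.MP_0da4e0_ag.Ex
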