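import Mathlib

/-! MP_0da4e0_ag, exact Weil criterion, module ExtHom: integral functionals on a saturated sublattice extend.

PROOF. Λ' = AddSubgroup.toIntSubmodule Λ, a submodule of the finite free module J → ℤ. The quotient
(J → ℤ) ⧸ Λ' is finitely generated and torsion free (hΛ), so it is free (Module.free_of_finite_type_torsion_free'
or the current name; principal ideal domain) and projective, so the quotient map has a section σ, linear
(Module.projective_lifting_property), and r x = x - σ (class of x) maps J → ℤ to Λ' and is the identity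
on Λ'. For j in J let w j be the integer z with ∑ i, t i * (r (Pi.single j 1)) i = z (ht). For v in Λ,
v = r v = ∑ j, v j • r (Pi.single j 1), so ∑ i, t i * v i = ∑ j, v j * w j. -/

namespace Pool.Agent.Work.MP_0da4e0_ag.Ex

private theorem retr_exists {J : Type} [Fintype J] [DecidableEq J] (Λ : AddSubgroup (J → ℤ))
    (hΛ : ∀ (k : ℤ) (v : J → ℤ), k ≠ 0 → k • v ∈ Λ → v ∈ Λ) :
    ∃ r : (J → ℤ) →ₗ[ℤ] (J → ℤ), (∀ x, r x ∈ Λ) ∧ ∀ v ∈ Λ, r v = v := by
  classical
  let P : Submodule ℤ (J → ℤ) := AddSubgroup.toIntSubmodule Λ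
  have hP : ∀ v : J → ℤ, v ∈ P ↔ v ∈ Λ := fun v => Iff.rfl
  have htf : Module.IsTorsionFree ℤ ((J → ℤ) ⧸ P) := by
    refine Module.isTorsionFree_iff_smul_eq_zero.2 ?_
    intro k x hkx
    obtain ⟨y, rfl⟩ := P.mkQ_surjective x
    rw [← map_smul, Submodule.mkQ_apply, Submodule.Quotient.mk_eq_zero] at hkx
    rw [Submodule.mkQ_apply, Submodule.Quotient.mk_eq_zero]
    by_cases hk : k = 0
    · exact Or.inl hk
    · exact Or.inr (hΛ k y hk hkx)
  have : Module.Free ℤ ((J → ℤ) ⧸ P) := Module.free_of_finite_type_torsion_free'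
  obtain ⟨σ, hσ⟩ := Module.projective_lifting_property P.mkQ (LinearMap.id : ((J → ℤ) ⧸ P) →ₗ[ℤ] _)
    P.mkQ_surjective
  let R : (J → ℤ) →ₗ[ℤ] (J → ℤ) := LinearMap.id - σ ∘ₗ P.mkQ
  refine ⟨R, fun x => ?_, fun v hv => ?_⟩
  · have h1 : P.mkQ (R x) = 0 := by
      have h2 := LinearMap.congr_fun hσ (P.mkQ x)
      simp only [LinearMap.comp_apply, LinearMap.id_apply] at h2
      simp only [R, LinearMap.sub_apply, LinearMap.id_apply, LinearMap.comp_apply, map_sub, h2, sub_self]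
    rw [Submodule.mkQ_apply, Submodule.Quotient.mk_eq_zero] at h1
    exact h1
  · have h1 : P.mkQ v = 0 := by
      rw [Submodule.mkQ_apply, Submodule.Quotient.mk_eq_zero]
      exact hv
    simp only [R, LinearMap.sub_apply, LinearMap.id_apply, LinearMap.comp_apply, h1, map_zero, sub_zero]

theorem ext_hom {J : Type} [Fintype J] [DecidableEq J] (Λ : AddSubgroup (J → ℤ))
    (hΛ : ∀ (k : ℤ) (v : J → ℤ), k ≠ 0 → k • v ∈ Λ → v ∈ Λ) (t : J → ℂ)
    (ht : ∀ v ∈ Λ, ∃ z : ℤ, ∑ j, t j * (v j : ℂ) = z) :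
    ∃ w : J → ℤ, ∀ v ∈ Λ, ∑ j, (w j : ℂ) * (v j : ℂ) = ∑ j, t j * (v j : ℂ) := by
  obtain ⟨r, hr1, hr2⟩ := retr_exists Λ hΛ
  choose w hw using fun j : J => ht (r (Pi.single j 1)) (hr1 _)
  refine ⟨w, fun v hv => ?_⟩
  have h1 : v = ∑ j, v j • r (Pi.single j 1) := by
    have h2 := LinearMap.pi_apply_eq_sum_univ r v
    rw [hr2 v hv] at h2
    rw [h2]
    refine Finset.sum_congr rfl fun j _ => ?_
    rw [← h2]
    congr 2
    funext i
    rw [Pi.single_apply]
    simp only [eq_comm]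
  have h3 : ∀ i, v i = ∑ j, v j * r (Pi.single j 1) i := fun i => by
    have h4 := congrFun h1 i
    rw [Finset.sum_apply] at h4
    simpa only [Pi.smul_apply, smul_eq_mul] using h4
  calc ∑ j, (w j : ℂ) * (v j : ℂ) = ∑ j, (v j : ℂ) * ∑ i, t i * ((r (Pi.single j 1) i : ℤ) : ℂ) :=
        Finset.sum_congr rfl fun j _ => by rw [hw j, mul_comm]
    _ = ∑ i, t i * ∑ j, (v j : ℂ) * ((r (Pi.single j 1) i : ℤ) : ℂ) := by
        simp only [Finset.mul_sum]
        rw [Finset.sum_comm]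
        refine Finset.sum_congr rfl fun i _ => Finset.sum_congr rfl fun j _ => by ring
    _ = ∑ j, t j * (v j : ℂ) := Finset.sum_congr rfl fun i _ => by
        rw [h3 i]
        push_cast
        rfl

end Pool.Agent.Work.MP_0da4e0_ag.Ex
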