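import Pool.Agent.Work.MP_0da4e0_ag.Ex.GlM
import Pool.Agent.Work.MP_0da4e0_ag.Fx.CentralMem

/-! MP_0da4e0_ag, exact Weil criterion, module FMain: the criterion.

PROOF. Only if: clear. If: n = card ι. π from exists_projQ hS. Apply the theorem exact (Ex/GlM.lean), direction from
right to left, to the family T of all Hodge tensors x of bidegree (p + a, q + b) with WeilSlices h p q a b x,
p, q ≤ 16 n^6, a, b ≤ mixN n H (index type: the sigma type of all (p, q, a, b) and such x), and to the given Hodge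
tensor x. The condition on central matrices c: if n = 0, c = 1 (Subsingleton of matrices); if n ≥ 1, central_mem
(with mem_cen_iff) shows that c is in Gp (mtLieC h), so it fixes ratT ℂ x (which is killed by mtLieC h). The
right side of exact: the members of T are AH by hypothesis. π, matT A and the alternating x of bidegree (f, f) are
members for a = b = 0 (Tens ι (f + 0) (f + 0) is Tens ι f f by definition; the slices are tensors of
bidegree (0, 0), which are killed by every dact: dmat 0 0 X = 0), with p = q = 2, 1, f, which are at most 16 n^6 if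
n ≥ 1 (2 f ≤ n; 2 ≤ 16). If n = 0: every tensor with at least one index is zero (no indices), and 0 is AH
(exists: all components 0); for f with 2 ≤ f and 2 f ≤ 0 there is nothing to prove. -/

open Matrix

namespace Pool.Agent.Work.MP_0da4e0_ag.Ex

variable {ι : Type} [Fintype ι] [DecidableEq ι]

private theorem ws_zero (h : HodgeStr ι) (p q : ℕ) (x : Tens ι (p + 0) (q + 0) ℚ) :
    WeilSlices h p q 0 0 x := by
  intro u v A B _ _
  have h1 : dmat 0 0 (A * B - B * A) = 0 := by
    ext e f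
    simp [dmat]
  rw [dact, h1, Matrix.zero_mulVec]

private noncomputable def zeroAH {k : Type} [Field k] (X : RealSys k ι) (m n : ℕ) : AHTensor X m n where
  dR := 0
  ad := fun _ _ => 0
  betti := fun _ => 0
  comp_dR := by
    intro τ
    rw [ratT_zero, act_eq, Matrix.mulVec_zero]
    funext e
    simp
  comp_ad := by
    intro τ l _
    have h1 : ratT ℚ_[l] (0 : Tens ι m n ℚ) = 0 := by
      funext e
      simp [ratT]
    rw [h1, act_eq, Matrix.mulVec_zero]
  hodge := by
    intro τ z w g _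
    rw [ratT_zero, act_eq, Matrix.mulVec_zero]

theorem exact_weil {k : Type} [Field k] [IsAlgClosed k] (X : RealSys k ι) (σ : k →+* ℂ)
    (S : Matrix ι ι ℚ) (hS : Polarizes (X.hodge σ) S) (H : ℕ)
    (hH : ∀ p q : ℤ, (X.hodge σ).V (p, q) ≠ ⊥ → |p| ≤ H) :
    (∀ (a b : ℕ) (x : Tens ι a b ℚ), IsHodge (X.hodge σ) x → ∃ s : AHTensor X a b, s.betti σ = x) ↔
      ∀ p q a b : ℕ, p ≤ 16 * Fintype.card ι ^ 6 → q ≤ 16 * Fintype.card ι ^ 6 →
        a ≤ mixN (Fintype.card ι) H → b ≤ mixN (Fintype.card ι) H →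
        ∀ x : Tens ι (p + a) (q + b) ℚ, IsHodge (X.hodge σ) x → WeilSlices (X.hodge σ) p q a b x →
          ∃ s : AHTensor X (p + a) (q + b), s.betti σ = x := by
  constructor
  · intro hall p q a b _ _ _ _ x hx _
    exact hall _ _ x hx
  · intro hw
    rcases Nat.eq_zero_or_pos (Fintype.card ι) with hn | hn
    · -- no indices
      have : IsEmpty ι := Fintype.card_eq_zero_iff.1 hn
      intro a b x hx
      by_cases hab : a = 0 ∧ b = 0
      · obtain ⟨rfl, rfl⟩ := hab
        exact hw 0 0 0 0 (Nat.zero_le _) (Nat.zero_le _) (Nat.zero_le _) (Nat.zero_le _) x hx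
          (ws_zero _ 0 0 x)
      · have he : IsEmpty ((Fin a → ι) × (Fin b → ι)) := by
          refine ⟨fun e => hab ⟨?_, ?_⟩⟩
          · by_contra ha
            exact isEmptyElim (e.1 ⟨0, Nat.pos_of_ne_zero ha⟩)
          · by_contra hb
            exact isEmptyElim (e.2 ⟨0, Nat.pos_of_ne_zero hb⟩)
        refine ⟨zeroAH X a b, ?_⟩
        funext e
        exact he.elim e
    · obtain ⟨π, hπ⟩ := exists_projQ hS
      have hn6 : 1 ≤ Fintype.card ι ^ 6 := Nat.one_le_pow _ _ hn
      let I := {y : Σ d : (ℕ × ℕ) × (ℕ × ℕ), Tens ι (d.1.1 + d.2.1) (d.1.2 + d.2.2) ℚ //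
        y.1.1.1 ≤ 16 * Fintype.card ι ^ 6 ∧ y.1.1.2 ≤ 16 * Fintype.card ι ^ 6 ∧
        y.1.2.1 ≤ mixN (Fintype.card ι) H ∧ y.1.2.2 ≤ mixN (Fintype.card ι) H ∧
        IsHodge (X.hodge σ) y.2 ∧ WeilSlices (X.hodge σ) y.1.1.1 y.1.1.2 y.1.2.1 y.1.2.2 y.2}
      let T : ∀ i : I, Tens ι (i.1.1.1.1 + i.1.1.2.1) (i.1.1.1.2 + i.1.1.2.2) ℚ := fun i => i.1.2
      have hT : ∀ i, IsHodge (X.hodge σ) (T i) := fun i => i.2.2.2.2.2.1
      have hex := (exact X σ S hS hπ T hT).2 ⟨?_, ?_, ?_, ?_⟩
      · intro a b x hx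
        refine hex a b x hx (fun c hc hcT => ?_)
        have hG := central_mem hS hH hn c (mem_cen_iff.2 hc)
          (fun p q a b hp hq ha hb x hx hxs => hcT ⟨⟨((p, q), (a, b)), x⟩, hp, hq, ha, hb, hx, hxs⟩)
        exact hG a b (ratT ℂ x) (fun Y hY => hY a b x hx)
      · exact hw 2 2 0 0 (by omega) (by omega) (Nat.zero_le _) (Nat.zero_le _) π (hπ.isHodge hS)
          (ws_zero _ 2 2 π)
      · intro A hA
        exact hw 1 1 0 0 (by omega) (by omega) (Nat.zero_le _) (Nat.zero_le _) (matT A) hA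
          (ws_zero _ 1 1 (matT A))
      · intro f _ hf x hx _ _
        have h1 : Fintype.card ι ≤ Fintype.card ι ^ 6 := Nat.le_self_pow (by norm_num) _
        exact hw f f 0 0 (by omega) (by omega) (Nat.zero_le _) (Nat.zero_le _) x hx (ws_zero _ f f x)
      · rintro ⟨⟨⟨⟨p, q⟩, ⟨a, b⟩⟩, x⟩, hp, hq, ha, hb, hx, hxs⟩
        exact hw p q a b hp hq ha hb x hx hxs

end Pool.Agent.Work.MP_0da4e0_ag.Ex
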