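import Pool.Agent.Work.MP_0da4e0_ag.Fx.Defs

/-! MP_0da4e0_ag, exact Weil criterion, module HaarK: Haar measure on closed subgroups of the unitary group.

PROOF. The topological group Matrix.unitaryGroup ι ℂ = unitary (Matrix ι ι ℂ) (instances: subtype topology,
IsTopologicalGroup in Mathlib.Topology.Algebra.Star.Unitary) is compact: its image in Matrix ι ι ℂ
(the Pi topology) is the closed set {A | star A * A = 1 ∧ A * star A = 1}, contained in the compact set
of all matrices with entries of norm ≤ 1 (Set.pi of closed balls; |A i j|² ≤ ∑ k |A i k|² = 1); see also the proof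
of exists_kmax in Ex/KMax.lean. A closed subset of a compact space is compact: CompactSpace K
(isCompact_iff_compactSpace, hK.isCompact). With MeasurableSpace K := borel K (BorelSpace ⟨rfl⟩) take
μ = MeasureTheory.Measure.haarMeasure ⊤ (⊤ : TopologicalSpace.PositiveCompacts K, available as K is compact and
nonempty; or PositiveCompacts with carrier Set.univ), μ univ = 1 by haarMeasure_self. -/

open Matrix MeasureTheory

namespace Pool.Agent.Work.MP_0da4e0_ag.Ex

variable {ι : Type} [Fintype ι] [DecidableEq ι]

private theorem unitary_compact : CompactSpace (Matrix.unitaryGroup ι ℂ) := by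
  have h1 : IsCompact (Set.univ.pi fun _ : ι => Set.univ.pi fun _ : ι =>
      Metric.closedBall (0 : ℂ) 1) :=
    isCompact_univ_pi fun _ => isCompact_univ_pi fun _ => isCompact_closedBall _ _
  have h3 : IsClosed (unitary (Matrix ι ι ℂ) : Set (Matrix ι ι ℂ)) :=
    isClosed_unitary (R := Matrix ι ι ℂ)
  have h2 : IsCompact ((unitary (Matrix ι ι ℂ) : Set (Matrix ι ι ℂ))) := by
    refine IsCompact.of_isClosed_subset (s := (Set.univ.pi fun _ : ι => Set.univ.pi fun _ : ι =>
      Metric.closedBall (0 : ℂ) 1 : Set (Matrix ι ι ℂ))) h1 h3 ?_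
    intro A hA i _ j _
    rw [mem_closedBall_zero_iff]
    exact entry_norm_bound_of_unitary hA i j
  exact isCompact_iff_compactSpace.1 h2

theorem exists_haar (K : Subgroup (Matrix.unitaryGroup ι ℂ))
    (hK : IsClosed (K : Set (Matrix.unitaryGroup ι ℂ))) :
    CompactSpace K ∧ ∃ (_ : MeasurableSpace K) (μ : Measure K),
      BorelSpace K ∧ IsProbabilityMeasure μ ∧ μ.IsMulLeftInvariant := by
  have hU : CompactSpace (Matrix.unitaryGroup ι ℂ) := unitary_compact
  have hc : CompactSpace K := isCompact_iff_compactSpace.1 hK.isCompact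
  refine ⟨hc, borel K, ?_⟩
  let mK : MeasurableSpace K := borel K
  have hb : BorelSpace K := ⟨rfl⟩
  have hne : Nonempty K := ⟨1⟩
  have htg : IsTopologicalGroup (Matrix.unitaryGroup ι ℂ) :=
    inferInstanceAs (IsTopologicalGroup (unitary (Matrix ι ι ℂ)))
  have htK : IsTopologicalGroup K := inferInstance
  refine ⟨Measure.haarMeasure (⊤ : TopologicalSpace.PositiveCompacts K), hb, ⟨?_⟩, inferInstance⟩
  have h := Measure.haarMeasure_self (K₀ := (⊤ : TopologicalSpace.PositiveCompacts K))
  rwa [TopologicalSpace.PositiveCompacts.coe_top] at h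

end Pool.Agent.Work.MP_0da4e0_ag.Ex
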