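import Pool.Agent.Work.MP_0da4e0_ag.WeilLin

/-! MP_0da4e0_ag, exact Weil criterion, module SmallSpan: real vectors orthogonal to small integral vectors are
combinations of few small integral vectors.

PROOF. Let S be the set of all s : J → ℤ with ∑ s j * d j = 0 for all d in F and |s j| ≤ E =
(card J)! * (K + 1)^(card J), and W the complex span of S. Claim: x is in W. Otherwise there is a linear
functional vanishing on W but not at x (Submodule.exists_le_ker_of_notMem), given by a vector y:
∑ y j * s j = 0 for s in S, ∑ y j * x j ≠ 0. If y is not in the complex span of F, small_orth (WeilLin) gives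
s in S with ∑ s j * y j ≠ 0, a contradiction. So y is in the span of F, and ∑ y j * x j = 0 by hx, a
contradiction. A maximal linearly independent subset of S (exists_linearIndependent) has at most card J elements
and spans W: x = ∑ over it of complex multiples; take real parts of the coefficients. Pad with zero vectors
(0 is in S) to index by Fin (card J). -/

namespace Pool.Agent.Work.MP_0da4e0_ag.Ex

private theorem pad {J : Type} (P : (J → ℤ) → Prop) (h0 : P 0) {N ρ : ℕ} (h : ρ ≤ N)
    (s : Fin ρ → J → ℤ) (hs : ∀ i, P (s i)) (c : Fin ρ → ℝ) (x : J → ℝ)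
    (hx : ∀ j, x j = ∑ i, c i * (s i j : ℝ)) :
    ∃ (s' : Fin N → J → ℤ) (c' : Fin N → ℝ), (∀ i, P (s' i)) ∧
      ∀ j, x j = ∑ i, c' i * (s' i j : ℝ) := by
  obtain ⟨m, rfl⟩ := Nat.exists_eq_add_of_le h
  refine ⟨Fin.append s (fun _ => 0), Fin.append c (fun _ => 0), fun i => ?_, fun j => ?_⟩
  · refine Fin.addCases (fun i => ?_) (fun i => ?_) i
    · rw [Fin.append_left]
      exact hs i
    · rw [Fin.append_right]
      exact h0
  · rw [Fin.sum_univ_add]
    simp only [Fin.append_left, Fin.append_right, zero_mul, Finset.sum_const_zero, add_zero]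
    exact hx j

theorem small_span {J : Type} [Fintype J] [DecidableEq J] (F : Set (J → ℤ)) (K : ℕ)
    (hK : ∀ d ∈ F, ∀ j, |d j| ≤ K) (x : J → ℝ) (hx : ∀ d ∈ F, ∑ j, x j * (d j : ℝ) = 0) :
    ∃ (s : Fin (Fintype.card J) → J → ℤ) (c : Fin (Fintype.card J) → ℝ),
      (∀ i, (∀ d ∈ F, ∑ j, s i j * d j = 0) ∧
        ∀ j, |s i j| ≤ (Fintype.card J).factorial * (K + 1) ^ (Fintype.card J)) ∧
      ∀ j, x j = ∑ i, c i * (s i j : ℝ) := by
  classical
  set E : ℤ := (Fintype.card J).factorial * (K + 1) ^ (Fintype.card J) with hE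
  have hE0 : 0 ≤ E := by positivity
  let P : (J → ℤ) → Prop := fun s => (∀ d ∈ F, ∑ j, s j * d j = 0) ∧ ∀ j, |s j| ≤ E
  let SS : Set (J → ℂ) := {v : J → ℂ | ∃ s, P s ∧ v = fun j => (s j : ℂ)}
  have hmem : (fun j => (x j : ℂ)) ∈ Submodule.span ℂ SS := by
    by_contra hcon
    obtain ⟨f, hf1, hf2⟩ := Submodule.exists_le_ker_of_notMem hcon
    let y : J → ℂ := fun j => f (Pi.single j 1)
    have hf : ∀ v : J → ℂ, f v = ∑ j, v j * y j := by
      intro v
      rw [LinearMap.pi_apply_eq_sum_univ f v]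
      refine Finset.sum_congr rfl fun j _ => ?_
      rw [smul_eq_mul]
      congr 2
      funext i
      simp only [Pi.single_apply, eq_comm]
    by_cases hy : y ∈ Submodule.span ℂ {v : J → ℂ | ∃ d ∈ F, v = fun j => (d j : ℂ)}
    · apply hf1
      rw [hf]
      let g : (J → ℂ) →ₗ[ℂ] ℂ := ∑ j, (x j : ℂ) • LinearMap.proj j
      have hg : ∀ v, g v = ∑ j, (x j : ℂ) * v j := by
        intro v
        simp [g, LinearMap.sum_apply]
      rw [← hg]
      have h1 : Submodule.span ℂ {v : J → ℂ | ∃ d ∈ F, v = fun j => (d j : ℂ)} ≤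
          LinearMap.ker g := by
        rw [Submodule.span_le]
        rintro v ⟨d, hd, rfl⟩
        show g _ = 0
        rw [hg]
        exact_mod_cast hx d hd
      exact h1 hy
    · obtain ⟨e, he1, he2, he3⟩ := small_orth F K hK y hy
      apply he3
      rw [← hf]
      exact hf2 (Submodule.subset_span ⟨e, ⟨he2, he1⟩, rfl⟩)
  obtain ⟨b, hb, hb1, hb2⟩ := exists_linearIndependent ℂ SS
  have hfin : Finite b := hb2.setFinite
  obtain ⟨ρ, ⟨ε⟩⟩ := Finite.exists_equiv_fin b
  choose d hd hd' using fun i : Fin ρ => hb (ε.symm i).2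
  let v : Fin ρ → (J → ℂ) := fun i => ((ε.symm i : b) : J → ℂ)
  have hv : LinearIndependent ℂ v := hb2.comp _ ε.symm.injective
  have hρ : ρ ≤ Fintype.card J := by
    have h1 := hv.fintype_card_le_finrank
    rwa [Fintype.card_fin, Module.finrank_fintype_fun_eq_card] at h1
  have hrange : Set.range v = b := by
    ext z
    constructor
    · rintro ⟨i, rfl⟩
      exact (ε.symm i).2
    · intro hz
      exact ⟨ε ⟨z, hz⟩, by simp [v]⟩
  rw [← hb1, ← hrange, Submodule.mem_span_range_iff_exists_fun] at hmem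
  obtain ⟨c, hc⟩ := hmem
  refine pad P ⟨fun d _ => by simp, fun j => by simpa using hE0⟩ hρ d hd (fun i => (c i).re) x
    fun j => ?_
  have h1 := congrArg Complex.re (congrFun hc j)
  rw [Finset.sum_apply, Complex.re_sum] at h1
  simp only [Complex.ofReal_re] at h1
  rw [← h1]
  refine Finset.sum_congr rfl fun i _ => ?_
  have h2 : v i j = (d i j : ℂ) := congrFun (hd' i) j
  rw [Pi.smul_apply, smul_eq_mul, h2, Complex.mul_re]
  simp

end Pool.Agent.Work.MP_0da4e0_ag.Ex
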